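import Mathlib

/-! Pair relations of two idempotents from the braid relations of the Hecke operators. -/

namespace Pool.Agent.Helper45.FG

/-- The alternating product x y x ... with n factors. -/
def alt {A : Type*} [Monoid A] (x y : A) : ℕ → A
  | 0 => 1
  | n + 1 => x * alt y x n

section

variable {A : Type*} [Ring A] [Algebra ℂ A] {a b : A} {q : ℂ}

/-- The Hecke operator q - (q+1) a, for the idempotent a. -/
noncomputable def hk (q : ℂ) (a : A) : A := algebraMap ℂ A q - (q + 1) • a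

lemma hk_mul (a b : A) : hk q a * hk q b =
    (q ^ 2) • (1 : A) - (q * (q + 1)) • (a + b) + ((q + 1) ^ 2) • (a * b) := by
  unfold hk
  simp only [sub_mul, mul_sub, Algebra.algebraMap_eq_smul_one, smul_mul_assoc, mul_smul_comm,
    one_mul, mul_one, smul_add]
  module

lemma rel2 (hs : q + 1 ≠ 0) (h : hk q a * hk q b = hk q b * hk q a) : a * b = b * a := by
  rw [hk_mul, hk_mul, add_comm b a] at h
  have h1 := add_left_cancel h
  exact smul_right_injective A (pow_ne_zero 2 hs) h1

lemma rel3 (ha : a * a = a) (hb : b * b = b) (hs : q + 1 ≠ 0)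
    (h : hk q a * (hk q b * hk q a) = hk q b * (hk q a * hk q b)) :
    a * (b * a) - b * (a * b) = (q / (q + 1) ^ 2) • (a - b) := by
  have e : hk q a * (hk q b * hk q a) - hk q b * (hk q a * hk q b) =
      (q * (q + 1)) • (a - b) - ((q + 1) ^ 3) • (a * (b * a) - b * (a * b)) := by
    rw [hk_mul, hk_mul]
    unfold hk
    simp only [sub_mul, mul_sub, mul_add, Algebra.algebraMap_eq_smul_one, smul_mul_assoc,
      mul_smul_comm, one_mul, mul_one, smul_add, ha, hb]
    module
  rw [h, sub_self] at e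
  apply smul_right_injective A (pow_ne_zero 3 hs)
  show ((q + 1) ^ 3) • _ = ((q + 1) ^ 3) • _
  rw [← sub_eq_zero.1 e.symm, smul_smul]
  congr 1
  field_simp

lemma hk_sq (ha : a * a = a) (hb : b * b = b) :
    hk q a * hk q b * (hk q a * hk q b) =
      (q ^ 4) • (1 : A) + (q ^ 2 * (q + 1) ^ 2 - 2 * q ^ 3 * (q + 1)) • (a + b) +
      (3 * q ^ 2 * (q + 1) ^ 2 - 2 * q * (q + 1) ^ 3) • (a * b) +
      (q ^ 2 * (q + 1) ^ 2) • (b * a) - (q * (q + 1) ^ 3) • (a * (b * a) + b * (a * b)) +
      ((q + 1) ^ 4) • (a * (b * (a * b))) := by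
  have ha' : ∀ x, a * (a * x) = a * x := fun x => by rw [← mul_assoc, ha]
  rw [hk_mul]
  simp only [sub_mul, mul_sub, mul_add, add_mul, smul_mul_assoc, mul_smul_comm, one_mul, mul_one,
    smul_add, mul_assoc, ha, hb, ha']
  module

lemma rel4 (ha : a * a = a) (hb : b * b = b) (hs : q + 1 ≠ 0)
    (h : hk q a * hk q b * (hk q a * hk q b) = hk q b * hk q a * (hk q b * hk q a)) :
    a * (b * (a * b)) - b * (a * (b * a)) = (2 * (q / (q + 1) ^ 2)) • (a * b - b * a) := by
  have e : hk q a * hk q b * (hk q a * hk q b) - hk q b * hk q a * (hk q b * hk q a) =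
      ((q + 1) ^ 4) • (a * (b * (a * b)) - b * (a * (b * a))) -
      (2 * q * (q + 1) ^ 2) • (a * b - b * a) := by
    rw [hk_sq ha hb, hk_sq hb ha]
    module
  rw [h, sub_self] at e
  apply smul_right_injective A (pow_ne_zero 4 hs)
  show ((q + 1) ^ 4) • _ = ((q + 1) ^ 4) • _
  rw [sub_eq_zero.1 e.symm, smul_smul]
  congr 1
  field_simp

lemma rel6 (ha : a * a = a) (hb : b * b = b) (hs : q + 1 ≠ 0)
    (h : hk q a * hk q b * (hk q a * hk q b) * (hk q a * hk q b) =
      hk q b * hk q a * (hk q b * hk q a) * (hk q b * hk q a)) :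
    a * (b * (a * (b * (a * b)))) - b * (a * (b * (a * (b * a)))) =
      (4 * (q / (q + 1) ^ 2)) • (a * (b * (a * b)) - b * (a * (b * a))) -
      (3 * (q / (q + 1) ^ 2) ^ 2) • (a * b - b * a) := by
  have ha' : ∀ x, a * (a * x) = a * x := fun x => by rw [← mul_assoc, ha]
  have hb' : ∀ x, b * (b * x) = b * x := fun x => by rw [← mul_assoc, hb]
  have e : hk q a * hk q b * (hk q a * hk q b) * (hk q a * hk q b) -
        hk q b * hk q a * (hk q b * hk q a) * (hk q b * hk q a) =
      ((q + 1) ^ 6) • (a * (b * (a * (b * (a * b)))) - b * (a * (b * (a * (b * a))))) -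
      (4 * q * (q + 1) ^ 4) • (a * (b * (a * b)) - b * (a * (b * a))) +
      (3 * q ^ 2 * (q + 1) ^ 2) • (a * b - b * a) := by
    rw [hk_sq ha hb, hk_sq hb ha, hk_mul, hk_mul]
    simp only [sub_mul, mul_sub, mul_add, add_mul, smul_mul_assoc, mul_smul_comm, one_mul, mul_one,
      smul_add, mul_assoc, ha, hb, ha', hb']
    module
  rw [h, sub_self] at e
  apply smul_right_injective A (pow_ne_zero 6 hs)
  show ((q + 1) ^ 6) • _ = ((q + 1) ^ 6) • _
  have e2 : ((q + 1) ^ 6) • (a * (b * (a * (b * (a * b)))) - b * (a * (b * (a * (b * a))))) =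
      (4 * q * (q + 1) ^ 4) • (a * (b * (a * b)) - b * (a * (b * a))) -
      (3 * q ^ 2 * (q + 1) ^ 2) • (a * b - b * a) := by
    rw [eq_comm, ← sub_eq_zero]
    rw [← neg_eq_zero, e]
    abel
  rw [e2, smul_sub ((q + 1) ^ 6), smul_smul ((q + 1) ^ 6), smul_smul ((q + 1) ^ 6)]
  congr 2
  · field_simp
  · field_simp

end

end Pool.Agent.Helper45.FG
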