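import Pool.Agent.Helper45.FG.Kap3
import Pool.Agent.Helper80.AT.Fn

/-! Averaging over the classes of an invariant equivalence relation with finite classes. -/

open scoped ENNReal NNReal InnerProductSpace
open MeasureTheory

namespace Pool.Agent.Helper45.FG

open Pool.Agent.Helper80.AT

/-- An invariant equivalence relation all of whose classes have n elements. -/
structure Eqv (G C : Type) [Group G] [MulAction G C] where
  /-- the relation -/
  r : C → C → Prop
  eqv : Equivalence r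
  inv : ∀ (g : G) c d, r c d → r (g • c) (g • d)
  /-- the size of the classes -/
  n : ℕ
  pos : 0 < n
  card : ∀ c, {d | r c d}.ncard = n

variable {G C : Type} [Group G] [MulAction G C]

lemma Eqv.fin (E : Eqv G C) (c : C) : {d | E.r c d}.Finite := by
  apply Set.finite_of_ncard_ne_zero
  rw [E.card]
  exact E.pos.ne'

/-- The class as a finite set. -/
noncomputable def Eqv.cl (E : Eqv G C) (c : C) : Finset C := (E.fin c).toFinset

lemma Eqv.mem_cl (E : Eqv G C) {c d : C} : d ∈ E.cl c ↔ E.r c d := by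
  unfold Eqv.cl
  simp

lemma Eqv.card_cl (E : Eqv G C) (c : C) : (E.cl c).card = E.n := by
  unfold Eqv.cl
  rw [← Set.ncard_eq_toFinset_card _ (E.fin c), E.card]

lemma Eqv.inv_iff (E : Eqv G C) (g : G) (c d : C) : E.r (g • c) (g • d) ↔ E.r c d := by
  constructor
  · intro h
    have := E.inv g⁻¹ _ _ h
    simpa using this
  · exact E.inv g c d

lemma Eqv.cl_eq (E : Eqv G C) {c d : C} (h : E.r c d) : E.cl c = E.cl d := by
  ext x
  rw [E.mem_cl, E.mem_cl]
  exact ⟨fun h1 => E.eqv.trans (E.eqv.symm h) h1, fun h1 => E.eqv.trans h h1⟩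

open Classical in
lemma Eqv.sum_enorm (E : Eqv G C) (c : C) :
    ∑' d, ‖(if E.r c d then (1 / (E.n : ℂ)) else 0 : ℂ)‖ₑ ≤ (1 : ℝ≥0) := by
  rw [tsum_eq_sum (s := E.cl c)]
  · have h1 : ∀ d ∈ E.cl c, ‖(if E.r c d then (1 / (E.n : ℂ)) else 0 : ℂ)‖ₑ =
        ENNReal.ofReal (1 / E.n) := by
      intro d hd
      rw [if_pos (E.mem_cl.1 hd), ← ofReal_norm]
      congr 1
      simp
    rw [Finset.sum_congr rfl h1, Finset.sum_const, E.card_cl, nsmul_eq_mul]
    have h2 : (E.n : ℝ≥0∞) = ENNReal.ofReal (E.n : ℝ) := by simp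
    have h3 : (0:ℝ) < E.n := by exact_mod_cast E.pos
    rw [h2, ← ENNReal.ofReal_mul h3.le, mul_one_div_cancel h3.ne']
    simp
  · intro d hd
    rw [E.mem_cl] at hd
    rw [if_neg hd]
    simp

open Classical in
/-- The averaging kernel. -/
noncomputable def Eqv.ker (E : Eqv G C) : Ker G C where
  k c d := if E.r c d then (1 / (E.n : ℂ)) else 0
  smul g c d := by
    simp only [E.inv_iff]
  finrow c := by
    refine (E.fin c).subset ?_
    intro d hd
    by_contra h
    exact hd (if_neg h)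
  fincol d := by
    refine (E.fin d).subset ?_
    intro c hc
    by_contra h
    exact hc (if_neg fun h2 => h (E.eqv.symm h2))
  C := 1
  row := E.sum_enorm
  col d := by
    refine le_trans (le_of_eq ?_) (E.sum_enorm d)
    refine tsum_congr fun c => ?_
    have : E.r c d ↔ E.r d c := ⟨E.eqv.symm, E.eqv.symm⟩
    simp only [this]

/-- The average of a function over the class. -/
noncomputable def Eqv.av (E : Eqv G C) (F : C → ℂ) (c : C) : ℂ := (1 / (E.n : ℂ)) * ∑ d ∈ E.cl c, F d

/-- The lift of a function on the set of orbits. -/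
def lf (u : Bun G C → ℂ) : C → ℂ := fun c => u (cls G C c)

lemma Eqv.fn_cls (E : Eqv G C) (f : Bun G C → ℂ) (c : C) :
    E.ker.fn f (cls G C c) = E.av (lf f) c := by
  classical
  rw [Ker.fn_cls, finsum_eq_sum_of_support_subset (s := E.cl c)]
  · unfold Eqv.av
    rw [Finset.mul_sum]
    refine Finset.sum_congr rfl fun d hd => ?_
    show (if E.r c d then (1 / (E.n : ℂ)) else 0) * _ = _
    rw [if_pos (E.mem_cl.1 hd)]
    rfl
  · intro d hd
    rw [Finset.mem_coe, E.mem_cl]
    by_contra h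
    apply hd
    show (if E.r c d then (1 / (E.n : ℂ)) else 0) * _ = _
    rw [if_neg h, zero_mul]

lemma Eqv.av_const (E : Eqv G C) {F : C → ℂ} {c : C} (h : ∀ d, E.r c d → F d = F c) :
    E.av F c = F c := by
  unfold Eqv.av
  rw [Finset.sum_congr rfl fun d hd => h d (E.mem_cl.1 hd), Finset.sum_const, E.card_cl,
    nsmul_eq_mul]
  have : (E.n : ℂ) ≠ 0 := by exact_mod_cast E.pos.ne'
  field_simp

lemma Eqv.av_eq (E : Eqv G C) (F : C → ℂ) {c d : C} (h : E.r c d) : E.av F c = E.av F d := by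
  unfold Eqv.av
  rw [E.cl_eq h]

variable [hfin : ∀ P : C, Finite (MulAction.stabilizer G P)]

/-- The averaging operator. -/
noncomputable def Eqv.op (E : Eqv G C) : L2 G C →L[ℂ] L2 G C := E.ker.op

omit hfin in
lemma lf_inj {u v : L2 G C} (h : lf (u : Bun G C → ℂ) = lf (v : Bun G C → ℂ)) : u = v := by
  apply coe_eq
  intro b
  have := congrFun h b.out
  unfold lf at this
  rwa [cls_out] at this

lemma Eqv.lf_op (E : Eqv G C) (u : L2 G C) : lf (E.op u : Bun G C → ℂ) = E.av (lf u) := by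
  funext c
  unfold lf
  rw [show (E.op u : Bun G C → ℂ) (cls G C c) = E.ker.fn u (cls G C c) from Ker.op_apply _ _ _,
    E.fn_cls]
  rfl

lemma Eqv.star_op (E : Eqv G C) : E.ker.star.op = E.ker.op := by
  classical
  apply ContinuousLinearMap.ext
  intro u
  apply coe_eq
  intro b
  rw [Ker.op_apply, Ker.op_apply]
  unfold Ker.fn
  refine finsum_congr fun Q => ?_
  congr 1
  show starRingEnd ℂ (if E.r Q b.out then (1 / (E.n : ℂ)) else 0) =
    (if E.r b.out Q then (1 / (E.n : ℂ)) else 0)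
  have : E.r Q b.out ↔ E.r b.out Q := ⟨E.eqv.symm, E.eqv.symm⟩
  simp only [this]
  split_ifs <;> simp

lemma Eqv.isPr (E : Eqv G C) : IsPr E.op where
  sa u v := by
    have h := adjoint_op (G := G) E.ker
    rw [E.star_op] at h
    unfold Eqv.op
    conv_rhs => rw [← h]
    rw [ContinuousLinearMap.adjoint_inner_right]
  idem u := by
    apply lf_inj
    rw [E.lf_op]
    funext c
    apply E.av_const
    intro d hd
    rw [E.lf_op]
    exact (E.av_eq _ hd).symm

lemma Eqv.op_eq_self (E : Eqv G C) {u : L2 G C} :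
    E.op u = u ↔ ∀ c d, E.r c d → lf (u : Bun G C → ℂ) c = lf (u : Bun G C → ℂ) d := by
  constructor
  · intro h c d hcd
    rw [← h, E.lf_op]
    exact E.av_eq _ hcd
  · intro h
    apply lf_inj
    rw [E.lf_op]
    funext c
    exact E.av_const fun d hd => (h c d hd).symm

/-! ### The Hecke operators -/

omit hfin in
/-- The sum over the other elements of the class. -/
noncomputable def heckeFn (r : C → C → Prop) (F : C → ℂ) (c : C) : ℂ :=
  ∑ᶠ (d : C) (_ : r c d ∧ d ≠ c), F d

omit hfin in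
lemma Eqv.hecke_eq (E : Eqv G C) (F : C → ℂ) (c : C) :
    heckeFn E.r F c = (E.n : ℂ) * E.av F c - F c := by
  classical
  unfold heckeFn
  have h1 : ∑ᶠ (d : C) (_ : E.r c d ∧ d ≠ c), F d = ∑ d ∈ (E.cl c).erase c, F d := by
    apply finsum_cond_eq_sum_of_cond_iff
    intro d _
    rw [Finset.mem_erase, E.mem_cl]
    exact and_comm
  rw [h1]
  have h2 : c ∈ E.cl c := E.mem_cl.2 (E.eqv.refl c)
  have h3 := Finset.sum_erase_add (E.cl c) F h2
  unfold Eqv.av
  have : (E.n : ℂ) ≠ 0 := by exact_mod_cast E.pos.ne'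
  rw [← h3]
  field_simp
  ring

/-- The complementary projection. -/
noncomputable def Eqv.co (E : Eqv G C) : L2 G C →L[ℂ] L2 G C := 1 - E.op

lemma Eqv.co_apply (E : Eqv G C) (u : L2 G C) : E.co u = u - E.op u := rfl

lemma Eqv.co_isPr (E : Eqv G C) : IsPr E.co where
  sa u v := by
    rw [E.co_apply, E.co_apply, inner_sub_left, inner_sub_right, E.isPr.sa]
  idem u := by
    rw [E.co_apply, E.co_apply, map_sub, E.isPr.idem]
    abel

lemma Eqv.co_eq_zero (E : Eqv G C) {u : L2 G C} :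
    E.co u = 0 ↔ ∀ c d, E.r c d → lf (u : Bun G C → ℂ) c = lf (u : Bun G C → ℂ) d := by
  rw [← E.op_eq_self, E.co_apply, sub_eq_zero, eq_comm]

lemma lf_sub (u v : L2 G C) : lf ((u - v : L2 G C) : Bun G C → ℂ) =
    fun c => lf (u : Bun G C → ℂ) c - lf (v : Bun G C → ℂ) c := by
  funext c
  exact coe_sub u v _

lemma lf_smul (a : ℂ) (u : L2 G C) : lf ((a • u : L2 G C) : Bun G C → ℂ) =
    fun c => a * lf (u : Bun G C → ℂ) c := by
  funext c
  exact coe_smul a u _

lemma Eqv.lf_hk (E : Eqv G C) {q : ℕ} (hq : E.n = q + 1) (u : L2 G C) :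
    lf ((hk ((q : ℝ) : ℂ) E.co u : L2 G C) : Bun G C → ℂ) = heckeFn E.r (lf u) := by
  rw [hk_apply, lf_sub, lf_smul, lf_smul, E.co_apply, lf_sub, E.lf_op]
  funext c
  rw [E.hecke_eq, hq]
  push_cast
  ring

omit hfin in
/-- s t s ... applied to x (m letters). -/
def altF {X : Type} (s t : X → X) : ℕ → X → X
  | 0, x => x
  | m + 1, x => s (altF t s m x)

omit hfin in
lemma lf_alt {a b : L2 G C →L[ℂ] L2 G C} {s t : (C → ℂ) → (C → ℂ)}
    (ha : ∀ u : L2 G C, lf (a u : Bun G C → ℂ) = s (lf u))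
    (hb : ∀ u : L2 G C, lf (b u : Bun G C → ℂ) = t (lf u)) (m : ℕ) (u : L2 G C) :
    lf (alt a b m u : Bun G C → ℂ) = altF s t m (lf u) := by
  induction m generalizing a b s t with
  | zero => rfl
  | succ m ih =>
    have e1 : alt a b (m + 1) u = a (alt b a m u) := rfl
    have e2 : altF s t (m + 1) (lf u) = s (altF t s m (lf u)) := rfl
    rw [e1, e2, ha, ih hb ha]

/-- The braid relations for the operators on functions give the braid relations for the operators
on L2. -/
lemma alt_eq {E E' : Eqv G C} {q : ℕ} (hq : E.n = q + 1) (hq' : E'.n = q + 1) {m : ℕ}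
    (h : ∀ F : C → ℂ, altF (heckeFn E.r) (heckeFn E'.r) m F =
      altF (heckeFn E'.r) (heckeFn E.r) m F) :
    alt (hk ((q : ℝ) : ℂ) E.co) (hk ((q : ℝ) : ℂ) E'.co) m =
      alt (hk ((q : ℝ) : ℂ) E'.co) (hk ((q : ℝ) : ℂ) E.co) m := by
  apply ContinuousLinearMap.ext
  intro u
  apply lf_inj
  rw [lf_alt (E.lf_hk hq) (E'.lf_hk hq') m u, lf_alt (E'.lf_hk hq') (E.lf_hk hq) m u, h]

/-- The projections of a chamber system of affine type form a tree of projections. -/
lemma treeSys (t : AffType) (ht : t.ok) {q : ℕ} (hq : 2 ≤ q) (E : ℕ → Eqv G C)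
    (hE : ∀ i, i ≤ t.rank → (E i).n = q + 1)
    (hb : ∀ i j, i ≤ t.rank → j ≤ t.rank → i ≠ j → ∀ F : C → ℂ,
      altF (heckeFn (E i).r) (heckeFn (E j).r) (t.M i j) F =
        altF (heckeFn (E j).r) (heckeFn (E i).r) (t.M i j) F) :
    TreeSys (fun i => (E i).co) t.rank t.par (t.e q) (t.kap q) where
  par_lt := t.par_lt ht
  isPr i _ := (E i).co_isPr
  comm i j hi hj hij hadj x := by
    have hM : t.M i j = 2 := by
      unfold AffType.M
      rw [if_neg, if_neg]
      · exact fun h => hadj (Or.inr h)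
      · exact fun h => hadj (Or.inl h)
    have h1 := alt_eq (hE i hi) (hE j hj) (hb i j hi hj hij)
    rw [hM] at h1
    have h2 : ((q : ℝ) : ℂ) + 1 ≠ 0 := by
      have : ((q : ℝ) : ℂ) + 1 = ((q + 1 : ℕ) : ℂ) := by push_cast; rfl
      rw [this]
      exact_mod_cast (Nat.succ_ne_zero q)
    have h3 := rel2 (q := ((q : ℝ) : ℂ)) h2 (a := (E i).co) (b := (E j).co)
      (by simpa [alt] using h1)
    exact congrArg (fun f : L2 G C →L[ℂ] L2 G C => f x) h3
  pair c hc hcn v hv := by
    have hp := t.par_lt ht c hc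
    have hM : t.M c (t.par c) = t.lab c := by
      unfold AffType.M
      rw [if_pos ⟨hc, rfl⟩]
    have h1 := alt_eq (hE c hcn) (hE (t.par c) (hp.le.trans hcn))
      (hb c (t.par c) hcn (hp.le.trans hcn) hp.ne')
    rw [hM] at h1
    exact pair_bound (E c).co_isPr (E (t.par c)).co_isPr (q := (q : ℝ))
      (by exact_mod_cast (by omega : 0 < q)) (t.lab_mem c) h1 hv
  e_pos c _ _ := t.e_pos (by exact_mod_cast (by omega : 1 < q)) c
  κ_pos i _ := t.kap_pos (by exact_mod_cast (by omega : 1 < q)) ht i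
  κ_eq i hi := kap_eq (by exact_mod_cast (by omega : 1 < q)) t ht i hi

end Pool.Agent.Helper45.FG
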