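import Pool.Agent.Helper45.FG.Cham

/-! The masses of the orbits for an equivariant map with finite fibres. -/

open scoped ENNReal NNReal InnerProductSpace
open MeasureTheory

namespace Pool.Agent.Helper45.FG

open Pool.Agent.Helper80.AT

variable {G C V : Type} [Group G] [MulAction G C] [MulAction G V]

section

variable [hfin : ∀ P : V, Finite (MulAction.stabilizer G P)]

open Classical in
/-- The weight: the mass at the chosen points of the orbits. -/
noncomputable def wt (v : V) : ℝ≥0∞ :=
  if (cls G V v).out = v then ENNReal.ofReal (mass (cls G V v)) else 0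

lemma sum_wt (v : V) : ∑' g : G, wt (G := G) (g • v) = 1 := by
  classical
  obtain ⟨g0, hg0⟩ := exists_out (G := G) v
  have h1 : ∀ g : G, wt (G := G) (g • v) =
      if g • v = (cls G V v).out then ENNReal.ofReal (mass (cls G V v)) else 0 := by
    intro g
    unfold wt
    rw [cls_smul]
    simp only [eq_comm]
  rw [tsum_congr h1]
  have h0 : g0⁻¹ • (cls G V v).out = v := by rw [hg0, inv_smul_smul]
  let e : MulAction.stabilizer G (cls G V v).out ≃ {g : G // g • v = (cls G V v).out} :=
    { toFun := fun s => ⟨s.1 * g0, by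
        rw [mul_smul, ← hg0]
        exact s.2⟩
      invFun := fun g => ⟨g.1 * g0⁻¹,
        (mul_smul _ _ _).trans ((congrArg (g.1 • ·) h0).trans g.2)⟩
      left_inv := fun s => by simp
      right_inv := fun g => by simp }
  have h2 : ∑' g : G, (if g • v = (cls G V v).out then ENNReal.ofReal (mass (cls G V v)) else 0) =
      ∑' g : {g : G // g • v = (cls G V v).out}, ENNReal.ofReal (mass (cls G V v)) := by
    have := tsum_subtype {g : G | g • v = (cls G V v).out}
      (fun _ => ENNReal.ofReal (mass (cls G V v)))
    rw [show (∑' g : {g : G // g • v = (cls G V v).out}, ENNReal.ofReal (mass (cls G V v))) =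
      ∑' g : {g : G | g • v = (cls G V v).out}, ENNReal.ofReal (mass (cls G V v)) from rfl, this]
    refine tsum_congr fun g => ?_
    rfl
  rw [h2, ← e.tsum_eq, ENNReal.tsum_const]
  have h3 : (ENat.card (MulAction.stabilizer G (cls G V v).out) : ℝ≥0∞) =
      (Nat.card (MulAction.stabilizer G (cls G V v).out) : ℝ≥0∞) := by
    rw [ENat.card_eq_coe_natCard]
    simp
  rw [h3, mul_comm]
  exact ofReal_mass _

end

variable (π : C → V) (hπ : ∀ (g : G) c, π (g • c) = g • π c)
  (hF : ∀ v, {c | π c = v}.Finite)

/-- The fibre. -/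
noncomputable def fib (hF : ∀ v, {c | π c = v}.Finite) (v : V) : Finset C := (hF v).toFinset

lemma mem_fib {v : V} {c : C} : c ∈ fib π hF v ↔ π c = v := by
  unfold fib
  simp

variable [hC : ∀ P : C, Finite (MulAction.stabilizer G P)]
  [hV : ∀ P : V, Finite (MulAction.stabilizer G P)]

include hπ in
theorem mass_sum (h : Bun G C → ℝ≥0∞) : ∑' b, ENNReal.ofReal (mass b) * h b =
    ∑' x : Bun G V, ENNReal.ofReal (mass x) * ∑ c ∈ fib π hF x.out, h (cls G C c) := by
  classical
  have h1 : ∑' b, ENNReal.ofReal (mass b) * h b = ∑' c, h (cls G C c) * wt (G := G) (π c) := by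
    rw [unfolding (G := G) (fun c : C => h (cls G C c) * wt (G := G) (π c))]
    refine tsum_congr fun b => ?_
    congr 1
    simp only [cls_smul, cls_out, hπ]
    rw [ENNReal.tsum_mul_left, sum_wt, mul_one]
  rw [h1, ← (Equiv.sigmaFiberEquiv π).tsum_eq, ENNReal.tsum_sigma']
  have h2 : ∀ v : V, ∑' c : {c // π c = v}, h (cls G C c) * wt (G := G) (π c) =
      wt (G := G) v * ∑ c ∈ fib π hF v, h (cls G C c) := by
    intro v
    have h3 : ∀ c : {c // π c = v}, h (cls G C c) * wt (G := G) (π c) =
        wt (G := G) v * h (cls G C c) := by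
      intro c
      rw [c.2, mul_comm]
    rw [tsum_congr h3, ENNReal.tsum_mul_left]
    congr 1
    have h4 := tsum_subtype {c : C | π c = v} (fun c => h (cls G C c))
    rw [show (∑' c : {c // π c = v}, h (cls G C c)) =
      ∑' c : {c : C | π c = v}, h (cls G C c) from rfl, h4, tsum_eq_sum (s := fib π hF v)]
    · refine Finset.sum_congr rfl fun c hc => ?_
      rw [mem_fib] at hc
      rw [Set.indicator_of_mem (show c ∈ {c : C | π c = v} from hc)]
    · intro c hc
      rw [mem_fib] at hc
      exact Set.indicator_of_notMem (show c ∉ {c : C | π c = v} from hc) _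
  have h5 : (∑' (a : V) (b : {c // π c = a}), h (cls G C ((Equiv.sigmaFiberEquiv π) ⟨a, b⟩)) *
      wt (G := G) (π ((Equiv.sigmaFiberEquiv π) ⟨a, b⟩))) =
      ∑' v : V, wt (G := G) v * ∑ c ∈ fib π hF v, h (cls G C c) := tsum_congr h2
  rw [h5]
  have hinj : Function.Injective (fun x : Bun G V => x.out) := fun x y hxy => by
    rw [← cls_out x, ← cls_out y]
    exact congrArg _ hxy
  rw [← hinj.tsum_eq]
  · refine tsum_congr fun x => ?_
    congr 1
    unfold wt
    rw [cls_out, if_pos rfl]
  · intro v hv
    rw [Function.mem_support] at hv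
    refine ⟨cls G V v, ?_⟩
    by_contra hne
    apply hv
    unfold wt
    rw [if_neg hne, zero_mul]

include hπ in
theorem measure_eq : bunMeasure G C = Measure.sum fun x : Bun G V =>
    ENNReal.ofReal (mass x) • ∑ c ∈ fib π hF x.out, Measure.dirac (cls G C c) := by
  classical
  apply Measure.ext
  intro s hs
  have h1 := mass_sum π hπ hF (fun b => s.indicator 1 b)
  unfold bunMeasure
  rw [Measure.sum_apply _ hs, Measure.sum_apply _ hs]
  simp only [Measure.smul_apply, Measure.dirac_apply' _ hs, smul_eq_mul, Measure.finsetSum_apply]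
  exact h1

include hπ in
theorem integral_eq {F : Bun G C → ℂ} (hI : Integrable F (bunMeasure G C)) :
    ∫ b, F b ∂(bunMeasure G C) =
      ∑' x : Bun G V, (mass x : ℂ) * ∑ c ∈ fib π hF x.out, F (cls G C c) := by
  rw [measure_eq π hπ hF] at hI ⊢
  rw [integral_sum_measure hI]
  refine tsum_congr fun x => ?_
  rw [integral_smul_measure, integral_finsetSum_measure]
  · rw [ENNReal.toReal_ofReal (mass_pos x).le]
    simp only [integral_dirac]
    rw [Complex.real_smul]
  · intro c _
    exact integrable_dirac (by simp)

end Pool.Agent.Helper45.FG
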