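import Pool.Agent.Helper45.FG.Main

/-! The first gap for groups with parahoric subgroups of affine type. -/

open scoped ENNReal NNReal InnerProductSpace
open MeasureTheory

namespace Pool.Agent.Helper45.FG

open Pool.Agent.Helper80.AT

/-- Parahoric subgroups of affine type t with parameter q: a subgroup U (Iwahori) and subgroups
P i, 0 ≤ i ≤ rank, that contain U with index q + 1, such that the operators T_i (the sum over the q
other cosets of U in the same coset of P i) satisfy the braid relations of the diagram. -/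
structure Parahoric (A : Type) [Group A] (t : AffType) (q : ℕ) where
  /-- the Iwahori subgroup -/
  U : Subgroup A
  /-- the minimal parahoric subgroups -/
  P : ℕ → Subgroup A
  le : ∀ i, i ≤ t.rank → U ≤ P i
  index : ∀ i, i ≤ t.rank → U.relIndex (P i) = q + 1
  braid : ∀ i j, i ≤ t.rank → j ≤ t.rank → i ≠ j → ∀ F : A ⧸ U → ℂ,
      altF (heckeFn (SameCoset U (P i))) (heckeFn (SameCoset U (P j))) (t.M i j) F =
        altF (heckeFn (SameCoset U (P j))) (heckeFn (SameCoset U (P i))) (t.M i j) F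

variable {A : Type} [Group A] {t : AffType} {q : ℕ} (S : Parahoric A t q)

/-- The maximal parahoric subgroup K generated by the P i with i > 0. -/
def Parahoric.K : Subgroup A := ⨆ (i : ℕ) (_ : 0 < i ∧ i ≤ t.rank), S.P i

/-- A function on Γ\A/K as a function on A/U. -/
noncomputable def Parahoric.pull (Γ : Subgroup A) (f : Bun Γ (A ⧸ S.K) → ℂ) : A ⧸ S.U → ℂ :=
  fun c => f (cls Γ (A ⧸ S.K) (coarse S.U S.K c))

/-- The product T_(l_1) T_(l_2) ... of Hecke operators on functions on A/U. -/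
noncomputable def Parahoric.word (L : List ℕ) (F : A ⧸ S.U → ℂ) : A ⧸ S.U → ℂ :=
  L.foldr (fun l F => heckeFn (SameCoset S.U (S.P l)) F) F

/-- The spherical Hecke operator e_K T_(l_1) T_(l_2) ... on functions on Γ\A/K: the average of
T_(l_1) T_(l_2) ... f over the cosets of U in the coset of K. -/
noncomputable def Parahoric.sph (Γ : Subgroup A) (L : List ℕ) (f : Bun Γ (A ⧸ S.K) → ℂ) :
    Bun Γ (A ⧸ S.K) → ℂ :=
  fun x => 1 / (S.U.relIndex S.K : ℂ) *
    ∑ᶠ (c : A ⧸ S.U) (_ : coarse S.U S.K c = x.out), S.word L (S.pull Γ f) c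

/-- f is orthogonal to the square-summable functions that are invariant under right translation by
P 0 (hence by all P i). -/
def Parahoric.Orth (Γ : Subgroup A) (f : Bun Γ (A ⧸ S.K) → ℂ) : Prop :=
  ∀ h : Bun Γ (A ⧸ S.K) → ℂ, IsL2 h →
    (∀ c d, SameCoset S.U (S.P 0) c d → S.pull Γ h c = S.pull Γ h d) →
    ∑' x, (mass x : ℂ) * (starRingEnd ℂ (h x) * f x) = 0

/-- The quadratic form (f, T f) of T = (1/q) e_K T_0: T f (gK) is the average of f over the cosets
g k p K with k in K and p in P 0 but not in U. -/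
noncomputable def Parahoric.form (Γ : Subgroup A) (f : Bun Γ (A ⧸ S.K) → ℂ) : ℝ :=
  (∑' x, (mass x : ℂ) * (starRingEnd ℂ (f x) * (1 / (q : ℂ) * S.sph Γ [0] f x))).re

lemma AffType.rank_pos (t : AffType) (ht : t.ok) : 1 ≤ t.rank := by
  cases t <;> simp only [AffType.ok, AffType.rank] at ht ⊢ <;> omega

include S in
lemma Parahoric.P_le_K {i : ℕ} (hi : 0 < i) (hin : i ≤ t.rank) : S.P i ≤ S.K :=
  le_iSup₂_of_le i ⟨hi, hin⟩ le_rfl

lemma Parahoric.U_le_K (ht : t.ok) : S.U ≤ S.K :=
  (S.le 1 (t.rank_pos ht)).trans (S.P_le_K one_pos (t.rank_pos ht))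

/-- The chamber system. -/
noncomputable def Parahoric.sys (ht : t.ok) (hq : 2 ≤ q) (h0 : S.U.relIndex S.K ≠ 0)
    (Γ : Subgroup A) : Sys Γ (A ⧸ S.U) (A ⧸ S.K) t q where
  ok := ht
  hq := hq
  E i := if h : i ≤ t.rank then cosetEqv Γ (S.le i h) (by rw [S.index i h]; omega)
    else cosetEqv Γ (le_refl S.U) (by simp)
  card i hi := by
    rw [dif_pos hi]
    exact S.index i hi
  braid i j hi hj hij F := by
    rw [dif_pos hi, dif_pos hj]
    exact S.braid i j hi hj hij F
  Λ :=
    { π := coarse S.U S.K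
      equi := coarse_smul (S.U_le_K ht) Γ
      surj := coarse_surj (S.U_le_K ht)
      E := cosetEqv Γ (S.U_le_K ht) h0
      hE := fun c d => (coarse_eq_iff c d).symm }
  sub i hi hin c d hcd := by
    rw [dif_pos hin] at hcd
    exact S.P_le_K hi hin hcd
  gen F hF c d hcd := by
    have hcd' : c.out⁻¹ * d.out ∈ S.K := hcd
    let N : Subgroup A :=
      { carrier := {k | ∀ g : A, F ((g * k : A) : A ⧸ S.U) = F (g : A ⧸ S.U)}
        mul_mem' := by
          intro a b ha hb g
          rw [← mul_assoc, hb, ha]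
        one_mem' := by
          intro g
          rw [mul_one]
        inv_mem' := by
          intro a ha g
          have := ha (g * a⁻¹)
          rw [inv_mul_cancel_right] at this
          exact this.symm }
    have hKN : S.K ≤ N := by
      apply iSup₂_le
      rintro i ⟨hi, hin⟩ p hp g
      have h1 := hF i hi hin ((g * p : A) : A ⧸ S.U) (g : A ⧸ S.U)
      rw [dif_pos hin] at h1
      apply h1
      show SameCoset S.U (S.P i) _ _
      rw [sameCoset_mk (S.le i hin)]
      have : (g * p)⁻¹ * g = p⁻¹ := by group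
      rw [this]
      exact (S.P i).inv_mem hp
    have h2 := hKN hcd' c.out
    rw [mul_inv_cancel_left] at h2
    have h3 : ((d.out : A) : A ⧸ S.U) = d := Quotient.out_eq' d
    have h4 : ((c.out : A) : A ⧸ S.U) = c := Quotient.out_eq' c
    rw [h3, h4] at h2
    exact h2.symm

lemma Parahoric.word_eq (ht : t.ok) (hq : 2 ≤ q) (h0 : S.U.relIndex S.K ≠ 0) (Γ : Subgroup A)
    (L : List ℕ) (hL : ∀ l ∈ L, l ≤ t.rank) (F : A ⧸ S.U → ℂ) :
    (S.sys ht hq h0 Γ).word L F = S.word L F := by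
  induction L with
  | nil => rfl
  | cons l L ih =>
    have e1 : (S.sys ht hq h0 Γ).word (l :: L) F = heckeFn ((S.sys ht hq h0 Γ).E l).r
      ((S.sys ht hq h0 Γ).word L F) := rfl
    have e2 : S.word (l :: L) F = heckeFn (SameCoset S.U (S.P l)) (S.word L F) := rfl
    rw [e1, e2, ih fun l hl => hL l (List.mem_cons_of_mem _ hl)]
    have hl := hL l List.mem_cons_self
    have e3 : ((S.sys ht hq h0 Γ).E l).r = SameCoset S.U (S.P l) := by
      unfold Parahoric.sys
      simp only [dif_pos hl]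
      rfl
    rw [e3]

lemma Parahoric.sph_eq (ht : t.ok) (hq : 2 ≤ q) (h0 : S.U.relIndex S.K ≠ 0) (Γ : Subgroup A)
    (L : List ℕ) (hL : ∀ l ∈ L, l ≤ t.rank) (f : Bun Γ (A ⧸ S.K) → ℂ) (x : Bun Γ (A ⧸ S.K)) :
    (S.sys ht hq h0 Γ).sph L f x = S.sph Γ L f x := by
  unfold Sys.sph Parahoric.sph
  rw [S.word_eq ht hq h0 Γ L hL]
  congr 1
  apply Eq.symm
  apply finsum_cond_eq_sum_of_cond_iff
  intro c _
  exact ((S.sys ht hq h0 Γ).Λ.mem_fib).symm

theorem Parahoric.main (ht : t.ok) (hq : 2 ≤ q) (h0 : S.U.relIndex S.K ≠ 0) (Γ : Subgroup A)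
    [hV : ∀ P : A ⧸ S.K, Finite (MulAction.stabilizer Γ P)] (f : Bun Γ (A ⧸ S.K) → ℂ)
    (hf : IsL2 f) (ho : S.Orth Γ f) :
    S.form Γ f ≤ (1 - (q + 1) / q * t.kap q 0) * nrm f ∧
    (S.form Γ f = (1 - (q + 1) / q * t.kap q 0) * nrm f → ∀ L : List ℕ, (∀ l ∈ L, l ≤ t.rank) →
      S.sph Γ L f = fun x => (chi q t.rank t.par (t.e q) (t.kap q) L : ℂ) * f x) := by
  have hC : ∀ P : A ⧸ S.U, Finite (MulAction.stabilizer Γ P) := by
    intro c
    have h1 := hV (coarse S.U S.K c)
    have h2 : (MulAction.stabilizer Γ c : Set Γ) ⊆ MulAction.stabilizer Γ (coarse S.U S.K c) := by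
      intro g hg
      show g • coarse S.U S.K c = coarse S.U S.K c
      rw [← coarse_smul (S.U_le_K ht), show g • c = c from hg]
    have h3 : (MulAction.stabilizer Γ (coarse S.U S.K c) : Set Γ).Finite := Set.toFinite _
    exact (h3.subset h2).to_subtype
  have ho' : (S.sys ht hq h0 Γ).Orth f := by
    intro h hh hinv
    apply ho h hh
    intro c d hcd
    apply hinv c d
    have e3 : ((S.sys ht hq h0 Γ).E 0).r = SameCoset S.U (S.P 0) := by
      unfold Parahoric.sys
      simp only [dif_pos (Nat.zero_le t.rank)]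
      rfl
    rw [e3]
    exact hcd
  obtain ⟨h1, h2⟩ := (S.sys ht hq h0 Γ).main hf ho'
  have hq0 : (0 : ℝ) < q := by exact_mod_cast (by omega : 0 < q)
  have e1 : ∑' x, (mass x : ℂ) * (starRingEnd ℂ (f x) * (S.sys ht hq h0 Γ).sph [0] f x) =
      ∑' x, (mass x : ℂ) * (starRingEnd ℂ (f x) * S.sph Γ [0] f x) := by
    refine tsum_congr fun x => ?_
    rw [S.sph_eq ht hq h0 Γ [0] (by simp) f x]
  have e2 : S.form Γ f =
      (∑' x, (mass x : ℂ) * (starRingEnd ℂ (f x) * S.sph Γ [0] f x)).re / q := by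
    unfold Parahoric.form
    have : ∀ x, (mass x : ℂ) * (starRingEnd ℂ (f x) * (1 / (q : ℂ) * S.sph Γ [0] f x)) =
        ((1 / (q : ℝ) : ℝ) : ℂ) * ((mass x : ℂ) * (starRingEnd ℂ (f x) * S.sph Γ [0] f x)) := by
      intro x
      push_cast
      ring
    rw [tsum_congr this, tsum_mul_left, Complex.re_ofReal_mul]
    ring
  rw [e1] at h1 h2
  have e3 : (1 - (q + 1) / q * t.kap q 0) * nrm f = ((q - (q + 1) * t.kap q 0) * nrm f) / q := by
    field_simp
  constructor
  · rw [e2, e3]
    exact div_le_div_of_nonneg_right h1 hq0.le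
  · intro he L hL
    rw [e2, e3, div_left_inj' hq0.ne'] at he
    funext x
    rw [← S.sph_eq ht hq h0 Γ L hL f x]
    exact h2 he L hL x

end Pool.Agent.Helper45.FG
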