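import Pool.Agent.Helper45.FG.Pair

/-! A spectral gap for the compression of a projection. -/

open scoped InnerProductSpace

namespace Pool.Agent.Helper45.FG

variable {H : Type*} [NormedAddCommGroup H] [InnerProductSpace ℂ H] [CompleteSpace H]

omit [CompleteSpace H] in
lemma re_self (x : H) : (⟪x, x⟫_ℂ).re = ‖x‖ ^ 2 := by
  rw [← inner_self_eq_norm_sq (𝕜 := ℂ)]
  rfl

omit [CompleteSpace H] in
lemma re_symm (x y : H) : (⟪x, y⟫_ℂ).re = (⟪y, x⟫_ℂ).re := by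
  rw [← inner_conj_symm, Complex.conj_re]

section

variable {P R : H →L[ℂ] H} (hP : IsPr P) (hR : IsPr R) {κ : ℝ}
  (h : ∀ v, P v = v → κ * ‖R v‖ ^ 2 ≤ ‖P (R v)‖ ^ 2)

include hP hR h in
omit [CompleteSpace H] in
lemma gap_range (u : H) : κ * ‖P (R (P u))‖ ^ 2 ≤
    (⟪P (R (P (P (R (P u))))), P (R (P u))⟫_ℂ).re := by
  set z := P (R (P u)) with hz
  have hPz : P z = z := by rw [hz, hP.idem]
  have e1 : (⟪P (R (P z)), z⟫_ℂ).re = ‖R z‖ ^ 2 := by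
    rw [hPz, hP.sa, hPz, hR.norm_sq]
  rw [e1]
  have h1 := h (P u) (hP.idem u)
  rw [← hz] at h1
  -- ‖z‖² = ⟪R P u, R z⟫
  have h2 : ‖z‖ ^ 2 = (⟪R (P u), R z⟫_ℂ).re := by
    rw [← re_self]
    conv_lhs => rw [hz]
    rw [hP.sa, hPz, ← hR.idem (P u), hR.sa, hR.idem]
  have h3 : ‖z‖ ^ 2 ≤ ‖R (P u)‖ * ‖R z‖ := by
    rw [h2]
    exact (Complex.re_le_norm _).trans (norm_inner_le_norm _ _)
  have h4 : (‖z‖ ^ 2) ^ 2 ≤ ‖R (P u)‖ ^ 2 * ‖R z‖ ^ 2 := by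
    rw [← mul_pow]
    exact pow_le_pow_left₀ (by positivity) h3 2
  rcases (norm_nonneg (R (P u))).eq_or_lt with h0 | h0
  · have : ‖z‖ ^ 2 = 0 := by
      rw [← h0] at h4
      nlinarith [sq_nonneg ‖z‖]
    rw [this]
    nlinarith [sq_nonneg ‖R z‖]
  · have h5 : 0 < ‖R (P u)‖ ^ 2 := by positivity
    have h6 : κ * ‖z‖ ^ 2 * ‖R (P u)‖ ^ 2 ≤ ‖R z‖ ^ 2 * ‖R (P u)‖ ^ 2 := by
      nlinarith [mul_le_mul_of_nonneg_right h1 (sq_nonneg ‖z‖)]
    exact le_of_mul_le_mul_right h6 h5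

/-- The compression of R. -/
noncomputable def comp (P R : H →L[ℂ] H) : H →L[ℂ] H := P * R * P

omit [CompleteSpace H] in
lemma comp_apply (x : H) : comp P R x = P (R (P x)) := rfl

include hP hR in
omit [CompleteSpace H] in
lemma comp_sa (x y : H) : ⟪comp P R x, y⟫_ℂ = ⟪x, comp P R y⟫_ℂ := by
  rw [comp_apply, comp_apply, hP.sa, hR.sa, hP.sa]

/-- The closure of the range of the compression. -/
noncomputable def clo (P R : H →L[ℂ] H) : Submodule ℂ H :=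
  (LinearMap.range (comp P R : H →ₗ[ℂ] H)).topologicalClosure

include hP hR h in
omit [CompleteSpace H] in
lemma gap_clo {v : H} (hv : v ∈ clo P R) : κ * ‖v‖ ^ 2 ≤ (⟪comp P R v, v⟫_ℂ).re := by
  have hcl : IsClosed {v : H | κ * ‖v‖ ^ 2 ≤ (⟪comp P R v, v⟫_ℂ).re} := by
    apply isClosed_le
    · fun_prop
    · exact Complex.continuous_re.comp (Continuous.inner (by fun_prop) continuous_id)
  have hsub : (LinearMap.range (comp P R : H →ₗ[ℂ] H) : Set H) ⊆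
      {v : H | κ * ‖v‖ ^ 2 ≤ (⟪comp P R v, v⟫_ℂ).re} := by
    rintro z ⟨u, rfl⟩
    exact gap_range hP hR h u
  exact (hcl.closure_subset_iff.2 hsub) hv

include hP hR in
lemma mem_clo {v : H} (hv : P v = v) (hort : ∀ u, P u = u → R u = 0 → ⟪u, v⟫_ℂ = 0) :
    v ∈ clo P R := by
  unfold clo
  rw [← Submodule.orthogonal_orthogonal_eq_closure, Submodule.mem_orthogonal]
  intro x hx
  rw [Submodule.mem_orthogonal] at hx
  have h1 : comp P R x = 0 := by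
    rw [← inner_self_eq_zero (𝕜 := ℂ), comp_sa hP hR, ← inner_conj_symm]
    have := hx (comp P R (comp P R x)) ⟨_, rfl⟩
    rw [this, map_zero]
  have h2 : R (P x) = 0 := by
    rw [← norm_eq_zero, ← sq_eq_zero_iff, hR.norm_sq]
    have : ⟪R (P x), P x⟫_ℂ = ⟪comp P R x, x⟫_ℂ := by rw [comp_apply, hP.sa]
    rw [this, h1, inner_zero_left, Complex.zero_re]
  rw [← hv, ← hP.sa]
  exact hort _ (hP.idem x) h2

omit [CompleteSpace H] in
lemma comp_mem (x : H) : comp P R x ∈ clo P R :=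
  Submodule.le_topologicalClosure _ ⟨x, rfl⟩

include hP hR in
omit [CompleteSpace H] in
lemma comp_quad (v y : H) (t : ℝ) :
    (⟪comp P R (v - (t : ℂ) • y), v - (t : ℂ) • y⟫_ℂ).re = (⟪comp P R v, v⟫_ℂ).re -
      2 * t * (⟪comp P R v, y⟫_ℂ).re + t ^ 2 * (⟪comp P R y, y⟫_ℂ).re := by
  rw [map_sub, map_smul, inner_sub_left, inner_sub_right, inner_sub_right,
    inner_smul_left, inner_smul_left, inner_smul_right, inner_smul_right, Complex.sub_re,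
    Complex.sub_re, Complex.sub_re, Complex.conj_ofReal, Complex.re_ofReal_mul,
    Complex.re_ofReal_mul, Complex.re_ofReal_mul, Complex.re_ofReal_mul]
  have h3 : (⟪comp P R y, v⟫_ℂ).re = (⟪comp P R v, y⟫_ℂ).re := by
    rw [comp_sa hP hR, re_symm]
  rw [h3]
  ring

include hP hR h in
lemma gap_eq {v : H} (hv : v ∈ clo P R) (he : κ * ‖v‖ ^ 2 = (⟪comp P R v, v⟫_ℂ).re) :
    comp P R v = (κ : ℂ) • v := by
  set y := comp P R v - (κ : ℂ) • v with hy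
  have hyz : y ∈ clo P R := (clo P R).sub_mem (comp_mem v) ((clo P R).smul_mem _ hv)
  have hB : κ * ‖y‖ ^ 2 ≤ (⟪comp P R y, y⟫_ℂ).re := gap_clo hP hR h hyz
  have hyy : (⟪comp P R v, y⟫_ℂ).re - κ * (⟪v, y⟫_ℂ).re = ‖y‖ ^ 2 := by
    rw [← re_self y]
    conv_rhs => rw [hy]
    rw [← hy, inner_sub_left, inner_smul_left, Complex.sub_re, Complex.conj_ofReal,
      Complex.re_ofReal_mul]
  have key : ∀ t : ℝ, 0 ≤ -(2 * t * ‖y‖ ^ 2) + t ^ 2 * ((⟪comp P R y, y⟫_ℂ).re - κ * ‖y‖ ^ 2) := by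
    intro t
    have h1 : v - (t : ℂ) • y ∈ clo P R := (clo P R).sub_mem hv ((clo P R).smul_mem _ hyz)
    have h2 := gap_clo hP hR h h1
    rw [nsq_sub_smul, comp_quad hP hR, ← he] at h2
    have h4 : -(2 * t * ‖y‖ ^ 2) = -(2 * t * (⟪comp P R v, y⟫_ℂ).re) +
        2 * t * κ * (⟪v, y⟫_ℂ).re := by
      rw [← hyy]
      ring
    rw [h4]
    linarith
  by_contra hne
  have hy0 : y ≠ 0 := fun h0 => hne (sub_eq_zero.1 h0)
  have hpos : 0 < ‖y‖ ^ 2 := by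
    have := norm_pos_iff.2 hy0
    positivity
  set B := (⟪comp P R y, y⟫_ℂ).re - κ * ‖y‖ ^ 2 with hBd
  have hB0 : 0 ≤ B := by linarith
  have h4 := key (‖y‖ ^ 2 / (B + 1))
  have h5 : -(2 * (‖y‖ ^ 2 / (B + 1)) * ‖y‖ ^ 2) + (‖y‖ ^ 2 / (B + 1)) ^ 2 * B =
      -((‖y‖ ^ 2) ^ 2 * (B + 2) / (B + 1) ^ 2) := by
    field_simp
    ring
  rw [h5] at h4
  have h6 : 0 < (‖y‖ ^ 2) ^ 2 * (B + 2) / (B + 1) ^ 2 := by positivity
  linarith

include hP hR h in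
/-- The gap. -/
theorem gap_main {v : H} (hv : P v = v) (hort : ∀ u, P u = u → R u = 0 → ⟪u, v⟫_ℂ = 0) :
    κ * ‖v‖ ^ 2 ≤ ‖R v‖ ^ 2 ∧ (κ * ‖v‖ ^ 2 = ‖R v‖ ^ 2 → P (R v) = (κ : ℂ) • v) := by
  have h1 := mem_clo hP hR hv hort
  have h2 : (⟪comp P R v, v⟫_ℂ).re = ‖R v‖ ^ 2 := by
    rw [comp_apply, hv, hP.sa, hv, hR.norm_sq]
  constructor
  · rw [← h2]
    exact gap_clo hP hR h h1
  · intro he
    have h3 := gap_eq hP hR h h1 (by rw [h2, he])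
    rwa [comp_apply, hv] at h3

end

end Pool.Agent.Helper45.FG
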