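import Pool.Agent.Helper45.FG.Desc

/-! Cosets of a subgroup contained in a larger subgroup. -/

open scoped ENNReal NNReal InnerProductSpace
open MeasureTheory

namespace Pool.Agent.Helper45.FG

open Pool.Agent.Helper80.AT

variable {A : Type} [Group A]

/-- The cosets c, d of U lie in the same coset of P (for U ≤ P). -/
def SameCoset (U P : Subgroup A) (c d : A ⧸ U) : Prop := c.out⁻¹ * d.out ∈ P

variable {U P : Subgroup A} (h : U ≤ P)

include h in
lemma sameCoset_mk (g g' : A) : SameCoset U P (g : A ⧸ U) (g' : A ⧸ U) ↔ g⁻¹ * g' ∈ P := by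
  obtain ⟨u, hu⟩ := QuotientGroup.mk_out_eq_mul U g
  obtain ⟨u', hu'⟩ := QuotientGroup.mk_out_eq_mul U g'
  unfold SameCoset
  rw [hu, hu']
  have h1 : (g * (u : A))⁻¹ * (g' * (u' : A)) = (u : A)⁻¹ * (g⁻¹ * g') * u' := by group
  rw [h1, P.mul_mem_cancel_right (h u'.2), P.mul_mem_cancel_left (P.inv_mem (h u.2))]

lemma sameCoset_eqv (U P : Subgroup A) : Equivalence (SameCoset U P) where
  refl c := by
    unfold SameCoset
    rw [inv_mul_cancel]
    exact P.one_mem
  symm {c d} hcd := by
    unfold SameCoset at hcd ⊢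
    have := P.inv_mem hcd
    rwa [mul_inv_rev, inv_inv] at this
  trans {c d e} h1 h2 := by
    unfold SameCoset at h1 h2 ⊢
    have := P.mul_mem h1 h2
    rwa [mul_assoc, mul_inv_cancel_left] at this

include h in
lemma sameCoset_card (c : A ⧸ U) : {d | SameCoset U P c d}.ncard = U.relIndex P := by
  let φ : P ⧸ U.subgroupOf P → A ⧸ U := fun p => ((c.out * (p.out : A) : A) : A ⧸ U)
  have hinj : Function.Injective φ := by
    intro p p' hp
    have h1 : (c.out * (p.out : A))⁻¹ * (c.out * (p'.out : A)) ∈ U := QuotientGroup.eq.1 hp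
    rw [mul_inv_rev, mul_assoc, inv_mul_cancel_left] at h1
    rw [← Quotient.out_eq' p, ← Quotient.out_eq' p']
    exact QuotientGroup.eq.2 h1
  have hrange : {d | SameCoset U P c d} = Set.range φ := by
    ext d
    constructor
    · intro hd
      have hd' : c.out⁻¹ * d.out ∈ P := hd
      refine ⟨((⟨c.out⁻¹ * d.out, hd'⟩ : P) : P ⧸ U.subgroupOf P), ?_⟩
      obtain ⟨u, hu⟩ := QuotientGroup.mk_out_eq_mul (U.subgroupOf P) (⟨c.out⁻¹ * d.out, hd'⟩ : P)
      show ((c.out * ((((⟨c.out⁻¹ * d.out, hd'⟩ : P) : P ⧸ U.subgroupOf P).out : P) : A) : A) :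
        A ⧸ U) = d
      rw [hu]
      have h2 : c.out * (((⟨c.out⁻¹ * d.out, hd'⟩ : P) * (u : P) : P) : A) =
          d.out * ((u : P) : A) := by
        rw [Subgroup.coe_mul, ← mul_assoc, mul_inv_cancel_left]
      rw [h2]
      conv_rhs => rw [← Quotient.out_eq' d]
      apply Eq.symm
      apply QuotientGroup.eq.2
      rw [inv_mul_cancel_left]
      exact u.2
    · rintro ⟨p, rfl⟩
      show SameCoset U P c ((c.out * (p.out : A) : A) : A ⧸ U)
      have h3 : c = ((c.out : A) : A ⧸ U) := (Quotient.out_eq' c).symm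
      rw [h3, sameCoset_mk h, ← h3, inv_mul_cancel_left]
      exact p.out.2
  rw [hrange]
  show Nat.card (Set.range φ) = _
  rw [Nat.card_congr (Equiv.ofInjective φ hinj).symm]
  rfl

/-- The relation as an invariant equivalence relation. -/
noncomputable def cosetEqv (Γ : Subgroup A) (h : U ≤ P) (h0 : U.relIndex P ≠ 0) : Eqv Γ (A ⧸ U) where
  r := SameCoset U P
  eqv := sameCoset_eqv U P
  inv g c d hcd := by
    have h1 : c = ((c.out : A) : A ⧸ U) := (Quotient.out_eq' c).symm
    have h2 : d = ((d.out : A) : A ⧸ U) := (Quotient.out_eq' d).symm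
    have h3 : g • c = (((g : A) * c.out : A) : A ⧸ U) := by
      conv_lhs => rw [h1]
      rfl
    have h4 : g • d = (((g : A) * d.out : A) : A ⧸ U) := by
      conv_lhs => rw [h2]
      rfl
    rw [h3, h4, sameCoset_mk h]
    have h5 : ((g : A) * c.out)⁻¹ * ((g : A) * d.out) = c.out⁻¹ * d.out := by group
    rw [h5]
    exact hcd
  n := U.relIndex P
  pos := Nat.pos_of_ne_zero h0
  card := sameCoset_card h

/-- The coset of K that contains a coset of U (for U ≤ K). -/
noncomputable def coarse (U K : Subgroup A) (c : A ⧸ U) : A ⧸ K := ((c.out : A) : A ⧸ K)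

include h in
lemma coarse_mk (g : A) : coarse U P (g : A ⧸ U) = (g : A ⧸ P) := by
  obtain ⟨u, hu⟩ := QuotientGroup.mk_out_eq_mul U g
  unfold coarse
  rw [hu]
  apply Eq.symm
  apply QuotientGroup.eq.2
  rw [inv_mul_cancel_left]
  exact h u.2

include h in
lemma coarse_smul (Γ : Subgroup A) (g : Γ) (c : A ⧸ U) : coarse U P (g • c) = g • coarse U P c := by
  have h1 : c = ((c.out : A) : A ⧸ U) := (Quotient.out_eq' c).symm
  have h3 : g • c = (((g : A) * c.out : A) : A ⧸ U) := by
    conv_lhs => rw [h1]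
    rfl
  rw [h3, coarse_mk h]
  rfl

lemma coarse_eq_iff (c d : A ⧸ U) : coarse U P c = coarse U P d ↔ SameCoset U P c d := by
  unfold coarse SameCoset
  exact QuotientGroup.eq

include h in
lemma coarse_surj (x : A ⧸ P) : ∃ c : A ⧸ U, coarse U P c = x :=
  ⟨((x.out : A) : A ⧸ U), by rw [coarse_mk h]; exact Quotient.out_eq' x⟩

include h in
lemma coarse_fin (h0 : U.relIndex P ≠ 0) (x : A ⧸ P) : {c : A ⧸ U | coarse U P c = x}.Finite := by
  obtain ⟨c, rfl⟩ := coarse_surj h x
  have h1 : {c' : A ⧸ U | coarse U P c' = coarse U P c} = {d | SameCoset U P c d} := by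
    ext d
    rw [Set.mem_ofPred_eq, coarse_eq_iff]
    exact ⟨(sameCoset_eqv U P).symm, (sameCoset_eqv U P).symm⟩
  rw [h1]
  apply Set.finite_of_ncard_ne_zero
  rw [sameCoset_card h]
  exact h0

end Pool.Agent.Helper45.FG
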