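import Pool.Agent.Helper45.FG.Tree

/-! The induction over a rooted tree of projections. -/

open scoped InnerProductSpace

namespace Pool.Agent.Helper45.FG

variable {H : Type*} [NormedAddCommGroup H] [InnerProductSpace ℂ H] [CompleteSpace H]

/-- Projections indexed by the vertices 0..n of a rooted tree: not joined means commuting; for an
edge, the squared cosine is at most e. -/
structure TreeSys (R : ℕ → H →L[ℂ] H) (n : ℕ) (par : ℕ → ℕ) (e κ : ℕ → ℝ) : Prop where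
  par_lt : ∀ i, 0 < i → par i < i
  isPr : ∀ i, i ≤ n → IsPr (R i)
  comm : ∀ i j, i ≤ n → j ≤ n → i ≠ j → ¬ Adj par i j → ∀ x, R i (R j x) = R j (R i x)
  pair : ∀ c, 0 < c → c ≤ n → ∀ v, R c v = 0 →
    ‖R c (R (par c) v)‖ ^ 2 ≤ e c * ‖R (par c) v‖ ^ 2 ∧
    (‖R c (R (par c) v)‖ ^ 2 = e c * ‖R (par c) v‖ ^ 2 →
      R (par c) (R c (R (par c) v)) = (e c : ℂ) • R (par c) v)
  e_pos : ∀ c, 0 < c → c ≤ n → 0 < e c
  κ_pos : ∀ i, i ≤ n → 0 < κ i
  κ_eq : ∀ i, i ≤ n → κ i = 1 - ∑ c ∈ kids par n i, e c / κ c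

variable {R : ℕ → H →L[ℂ] H} {n : ℕ} {par : ℕ → ℕ} {e κ : ℕ → ℝ}

section

variable (T : TreeSys R n par e κ)

include T in
omit [CompleteSpace H] in
lemma TreeSys.kids_comm {i : ℕ} : ∀ a ∈ kids par n i, ∀ b ∈ kids par n i, a ≠ b →
    ∀ k ∈ D par n a, ∀ j ∈ D par n b, ∀ x, R k (R j x) = R j (R k x) := by
  intro a ha b hb hab k hk j hj x
  obtain ⟨h1, h2⟩ := sib_adj T.par_lt ha hb hab hk hj
  exact T.comm k j hk.1 hj.1 h1 h2 x

include T in
omit [CompleteSpace H] in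
lemma TreeSys.low {i c : ℕ} (hi : i ≤ n) (hc : c ∈ kids par n i) {v : H}
    (hv : v ∈ VS R (SD par n i)) : R i v ∈ VS R (SD par n c) := by
  intro l hl
  have hc1 := mem_kids.1 hc
  have hlD : l ∈ D par n c := by
    rw [D_eq T.par_lt hc1.2.1]
    exact Or.inr hl
  have hlc : l ≠ c := by
    rintro rfl
    rw [mem_SD] at hl
    obtain ⟨d, hd, hl⟩ := hl
    have h1 := le_of_anc T.par_lt hl.2
    have hd1 := mem_kids.1 hd
    have h2 := T.par_lt d hd1.1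
    rw [hd1.2.2] at h2
    omega
  obtain ⟨h1, h2⟩ := low_adj T.par_lt hc hlD hlc
  rw [← T.comm i l hi hlD.1 (Ne.symm h1) h2]
  rw [hv l (mem_SD.2 ⟨c, hc, hlD⟩), map_zero]

include T in
/-- The estimate at a vertex from the estimates at the children. -/
lemma TreeSys.sum_le {i : ℕ} (hi : i ≤ n)
    (ih : ∀ c ∈ kids par n i, ∀ w ∈ VS R (SD par n c),
      κ c * ‖w - pr R (D par n c) w‖ ^ 2 ≤ ‖R c w‖ ^ 2)
    {v : H} (hv : v ∈ VS R (SD par n i)) :
    (∀ c ∈ kids par n i, ‖R i v - pr R (D par n c) (R i v)‖ ^ 2 ≤ e c / κ c * ‖R i v‖ ^ 2) ∧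
    ‖R i v - pr R (SD par n i) (R i v)‖ ^ 2 ≤ (1 - κ i) * ‖R i v‖ ^ 2 := by
  have h1 : ∀ c ∈ kids par n i, ‖R i v - pr R (D par n c) (R i v)‖ ^ 2 ≤
      e c / κ c * ‖R i v‖ ^ 2 := by
    intro c hc
    have hc1 := mem_kids.1 hc
    have hκ := T.κ_pos c hc1.2.1
    have h2 := ih c hc _ (T.low hi hc hv)
    have h3 := (T.pair c hc1.1 hc1.2.1 v (hv c (mem_SD.2 ⟨c, hc, D_self hc1.2.1⟩))).1
    rw [hc1.2.2] at h3
    rw [div_mul_eq_mul_div, le_div_iff₀ hκ]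
    linarith
  refine ⟨h1, ?_⟩
  have h2 := (sum_bound (R := R) (kids par n i) (D par n)
    (fun a _ l hl => T.isPr l hl.1) T.kids_comm (R i v)).1
  refine h2.trans ((Finset.sum_le_sum h1).trans (le_of_eq ?_))
  rw [← Finset.sum_mul]
  congr 1
  rw [T.κ_eq i hi]
  ring

include T in
lemma TreeSys.pr_SD_le {i : ℕ} (hi : i ≤ n)
    (ih : ∀ c ∈ kids par n i, ∀ w ∈ VS R (SD par n c),
      κ c * ‖w - pr R (D par n c) w‖ ^ 2 ≤ ‖R c w‖ ^ 2)
    (v : H) (hv : pr R (SD par n i) v = v) :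
    κ i * ‖R i v‖ ^ 2 ≤ ‖pr R (SD par n i) (R i v)‖ ^ 2 := by
  have h1 := (T.sum_le hi ih (pr_eq.1 hv)).2
  rw [isPr_pr.pyth] at h1
  linarith

include T in
lemma TreeSys.ort {i : ℕ} (hi : i ≤ n) (w : H) : ∀ u, pr R (SD par n i) u = u → R i u = 0 →
    ⟪u, w - pr R (D par n i) w⟫_ℂ = 0 := by
  intro u hu hu2
  apply pr_ort
  rw [D_eq T.par_lt hi]
  intro l hl
  rcases hl with hl | hl
  · rw [Set.mem_singleton_iff.1 hl]
    exact hu2
  · exact (pr_eq.1 hu) l hl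

include T in
lemma TreeSys.sub_mem {i : ℕ} (hi : i ≤ n) {w : H} (hw : w ∈ VS R (SD par n i)) :
    w - pr R (D par n i) w ∈ VS R (SD par n i) := by
  apply (VS R (SD par n i)).sub_mem hw
  refine VS_mono ?_ (pr_mem w)
  rw [D_eq T.par_lt hi]
  exact Set.subset_union_right

include T in
theorem TreeSys.claim (i : ℕ) (hi : i ≤ n) : ∀ w ∈ VS R (SD par n i),
    κ i * ‖w - pr R (D par n i) w‖ ^ 2 ≤ ‖R i w‖ ^ 2 := by
  induction hk : n - i using Nat.strong_induction_on generalizing i with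
  | _ k ih =>
    have ih' : ∀ c ∈ kids par n i, ∀ w ∈ VS R (SD par n c),
        κ c * ‖w - pr R (D par n c) w‖ ^ 2 ≤ ‖R c w‖ ^ 2 := by
      intro c hc
      have hc1 := mem_kids.1 hc
      have h2 := T.par_lt c hc1.1
      rw [hc1.2.2] at h2
      exact ih (n - c) (by omega) c hc1.2.1 rfl
    intro w hw
    have h1 := (gap_main (isPr_pr (R := R) (S := SD par n i)) (T.isPr i hi) (κ := κ i)
      (T.pr_SD_le hi ih') (pr_eq.2 (T.sub_mem hi hw)) (T.ort hi w)).1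
    rwa [R_sub (D_self hi)] at h1

include T in
/-- The gap at the root. -/
theorem TreeSys.gap {f : H} (hf : ∀ i, 0 < i → i ≤ n → R i f = 0)
    (hort : ∀ u, (∀ i, i ≤ n → R i u = 0) → ⟪u, f⟫_ℂ = 0) :
    κ 0 * ‖f‖ ^ 2 ≤ ‖R 0 f‖ ^ 2 := by
  have hS : f ∈ VS R (SD par n 0) := by
    intro l hl
    have h1 : l ∈ D par n 0 := by
      rw [D_eq T.par_lt (Nat.zero_le n)]
      exact Or.inr hl
    refine hf l ?_ h1.1
    rw [mem_SD] at hl
    obtain ⟨c, hc, hl⟩ := hl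
    have := le_of_anc T.par_lt hl.2
    have := (mem_kids.1 hc).1
    omega
  have h1 := T.claim 0 (Nat.zero_le n) f hS
  have h2 : pr R (D par n 0) f = 0 := by
    rw [← inner_self_eq_zero (𝕜 := ℂ), isPr_pr.sa, isPr_pr.idem, ← inner_conj_symm]
    rw [hort, map_zero]
    intro i hi
    exact R_pr (by rw [D_zero T.par_lt]; exact hi) f
  rwa [h2, sub_zero] at h1

end

end Pool.Agent.Helper45.FG
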