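import Pool.Agent.Helper45.FG.Types

/-! The constants of the affine trees satisfy the recursion. -/

namespace Pool.Agent.Helper45.FG

variable {q : ℝ} (hq : 1 < q)

lemma edge3 : ((edge 3 : ℕ) : ℝ) = 1 := by simp [edge]
lemma edge4 : ((edge 4 : ℕ) : ℝ) = 2 := by simp [edge]
lemma edge6 : ((edge 6 : ℕ) : ℝ) = 3 := by simp [edge]

include hq in
lemma cc_pos (k : ℕ) : 0 < cc q k := by
  unfold cc
  split_ifs
  · norm_num
  · positivity

include hq in
lemma cc_succ (k : ℕ) (hk : 0 < k) : cc q (k + 1) = 1 - q / (q + 1) ^ 2 / cc q k := by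
  have h1 : 0 < q ^ k := by positivity
  unfold cc
  rw [if_neg (by omega), if_neg (by omega)]
  have h2 : q ^ (k + 1) = q ^ k * q := pow_succ _ _
  have h3 : q ^ (k + 1 + 1) = q ^ k * q * q := by rw [pow_succ, pow_succ]
  rw [h3, h2]
  have h4 : 0 < q ^ k * q := by positivity
  field_simp
  ring

include hq in
lemma cc_one : cc q 1 = 1 - 2 * (q / (q + 1) ^ 2) := by
  unfold cc
  rw [if_neg (by omega)]
  field_simp
  ring

lemma poly_pos {a b : ℝ} (h : 0 < a) (h2 : a = b) : 0 < b := h2 ▸ h

lemma p4 (q : ℝ) : 0 < q ^ 4 - q ^ 2 + 1 := by nlinarith [sq_nonneg (q ^ 2 - 1), sq_nonneg q]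

include hq in
lemma p2 : 0 < q ^ 2 - q + 1 := by nlinarith

include hq in
lemma p6 : 0 < q ^ 6 - q ^ 3 + 1 := by nlinarith [sq_nonneg (q ^ 3 - 1), pow_pos (by linarith : 0 < q) 3]

include hq in
lemma p6b : 0 < q ^ 6 + q ^ 5 - q ^ 3 + q + 1 := by
  have h1 : q ^ 3 < q ^ 5 := pow_lt_pow_right₀ hq (by norm_num)
  have h2 : 0 < q ^ 6 := by positivity
  linarith

include hq in
lemma p8 : 0 < q ^ 8 + q ^ 7 - q ^ 5 - q ^ 4 - q ^ 3 + q + 1 := by
  have h1 : q ^ 5 < q ^ 8 := pow_lt_pow_right₀ hq (by norm_num)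
  have h2 : q ^ 4 < q ^ 7 := pow_lt_pow_right₀ hq (by norm_num)
  have h3 : 0 < q - 1 := by linarith
  -- q^8 - q^5 = q^5 (q^3-1) ≥ q^3 (q^3 - 1)
  nlinarith [mul_pos (pow_pos (by linarith : 0 < q) 3) (mul_pos h3 h3),
    mul_pos (pow_pos (by linarith : 0 < q) 4) h3, mul_pos (pow_pos (by linarith : 0 < q) 3) h3,
    mul_pos (pow_pos (by linarith : 0 < q) 5) h3, mul_pos (pow_pos (by linarith : 0 < q) 6) h3,
    mul_pos (pow_pos (by linarith : 0 < q) 7) h3]

include hq in
lemma pow_sub_pos {k : ℕ} (hk : k ≠ 0) : 0 < q ^ k - 1 := by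
  have := one_lt_pow₀ hq hk
  linarith

include hq in
lemma AffType.kap_pos (t : AffType) (ht : t.ok) (i : ℕ) : 0 < t.kap q i := by
  have hq0 : 0 < q := by linarith
  have h1 : 0 < q - 1 := by linarith
  have h2 := p2 hq
  have h4 := p4 q
  have h6 := p6 hq
  have h6b := p6b hq
  have h8 := p8 hq
  have g3 := pow_sub_pos hq (k := 3) (by norm_num)
  have g4 := pow_sub_pos hq (k := 4) (by norm_num)
  have g5 := pow_sub_pos hq (k := 5) (by norm_num)
  cases t with
  | B n =>
    have gn := pow_sub_pos hq (k := n - 1) (by simp only [AffType.ok] at ht; omega)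
    simp only [AffType.kap]
    split_ifs
    · positivity
    · positivity
    · norm_num
    · exact cc_pos hq _
  | C n =>
    have gn := pow_sub_pos hq (k := n) (by simp only [AffType.ok] at ht; omega)
    simp only [AffType.kap]
    split_ifs
    · positivity
    · exact cc_pos hq _
  | D n =>
    have gn := pow_sub_pos hq (k := n - 2) (by simp only [AffType.ok] at ht; omega)
    simp only [AffType.kap]
    split_ifs
    · positivity
    · positivity
    · norm_num
    · exact cc_pos hq _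
  | E6 =>
    simp only [AffType.kap]
    split_ifs <;> positivity
  | E7 =>
    simp only [AffType.kap]
    split_ifs <;> positivity
  | E8 =>
    simp only [AffType.kap]
    split_ifs <;> positivity
  | F4 =>
    simp only [AffType.kap]
    split_ifs <;> positivity
  | G2 =>
    simp only [AffType.kap]
    split_ifs <;> positivity

end Pool.Agent.Helper45.FG
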