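import Pool.Agent.Helper45.FG.Kap

/-! The constants of the affine trees satisfy the recursion. -/

namespace Pool.Agent.Helper45.FG

variable {q : ℝ} (hq : 1 < q)

lemma kids_C {n i : ℕ} (hi : i ≤ n) : kids (AffType.C n).par n i = if i = n then ∅ else {i + 1} := by
  ext c
  rw [mem_kids]
  simp only [AffType.par]
  split_ifs with h
  · simp only [Finset.notMem_empty, iff_false]
    omega
  · rw [Finset.mem_singleton]
    omega

include hq in
lemma kap_C (n : ℕ) (hn : 2 ≤ n) (i : ℕ) (hi : i ≤ n) : (AffType.C n).kap q i =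
    1 - ∑ c ∈ kids (AffType.C n).par n i, (AffType.C n).e q c / (AffType.C n).kap q c := by
  have hq0 : 0 < q := by linarith
  rw [kids_C hi]
  split_ifs with h
  · subst h
    rw [Finset.sum_empty]
    simp only [AffType.kap, cc]
    rw [if_neg (by omega)]
    simp
  · rw [Finset.sum_singleton]
    simp only [AffType.kap, AffType.e, AffType.lab]
    rw [if_neg (show i + 1 ≠ 0 by omega)]
    by_cases h0 : i = 0
    · subst h0
      simp only [if_true, zero_add, true_or]
      rw [edge4]
      obtain ⟨m, rfl⟩ : ∃ m, n = m + 2 := ⟨n - 2, by omega⟩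
      have e1 : m + 2 - 1 = m + 1 := by omega
      rw [e1]
      unfold cc
      rw [if_neg (by omega)]
      have h2 : q ^ (m + 1) = q ^ m * q := pow_succ _ _
      have h4 : q ^ (m + 2) = q ^ m * q * q := by rw [pow_succ, pow_succ]
      rw [h4, h2]
      have h5 : 0 < q ^ m := by positivity
      have h6 : 0 < q ^ m * q := by positivity
      have h7 : 0 < q ^ m * q * q := by positivity
      field_simp
      ring
    · rw [if_neg h0]
      by_cases h1 : i + 1 = n
      · have e1 : n - i = 1 := by omega
        have e2 : n - (i + 1) = 0 := by omega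
        rw [if_pos (Or.inr h1), e1, e2, edge4, cc_one hq]
        simp [cc]
      · rw [if_neg (by omega)]
        have e1 : n - i = (n - (i + 1)) + 1 := by omega
        rw [edge3, one_mul, e1]
        exact cc_succ hq _ (by omega)

lemma kids_B {n i : ℕ} (hn : 3 ≤ n) (hi : i ≤ n) : kids (AffType.B n).par n i =
    if i = 0 then {1} else if i = 1 then {2, 3} else if i = 2 ∨ i = n then ∅ else {i + 1} := by
  ext c
  rw [mem_kids]
  simp only [AffType.par, fork]
  split_ifs <;>
    simp only [Finset.notMem_empty, Finset.mem_singleton, Finset.mem_insert, iff_false] <;> omega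

include hq in
lemma kap_B (n : ℕ) (hn : 3 ≤ n) (i : ℕ) (hi : i ≤ n) : (AffType.B n).kap q i =
    1 - ∑ c ∈ kids (AffType.B n).par n i, (AffType.B n).e q c / (AffType.B n).kap q c := by
  have hq0 : 0 < q := by linarith
  obtain ⟨m, rfl⟩ : ∃ m, n = m + 3 := ⟨n - 3, by omega⟩
  have h2 : q ^ (m + 1) = q ^ m * q := pow_succ _ _
  have h3 : q ^ (m + 2) = q ^ m * q * q := by rw [pow_succ, pow_succ]
  have h4 : q ^ (m + 3) = q ^ m * q * q * q := by rw [pow_succ, pow_succ, pow_succ]
  have p0 : 0 < q ^ m := by positivity
  have p1 : 0 < q ^ m * q := by positivity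
  have p2 : 0 < q ^ m * q * q := by positivity
  have p3 : 0 < q ^ m * q * q * q := by positivity
  have e1 : m + 3 - 1 = m + 2 := by omega
  have e2 : m + 3 - 2 = m + 1 := by omega
  rw [kids_B hn hi]
  by_cases h0 : i = 0
  · subst h0
    simp only [if_true, Finset.sum_singleton, AffType.kap, AffType.e, AffType.lab, e1, e2]
    rw [if_neg (show (1 : ℕ) ≠ m + 3 by omega), if_neg one_ne_zero, edge3, h3, h4, h2]
    field_simp
    ring
  by_cases h1 : i = 1
  · subst h1
    rw [if_neg one_ne_zero, if_pos rfl, Finset.sum_pair (by norm_num)]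
    simp only [AffType.kap, AffType.e, AffType.lab, e2]
    rw [if_neg one_ne_zero, if_pos trivial, if_neg (show (2 : ℕ) ≠ m + 3 by omega), if_neg two_ne_zero,
      if_neg (show (2 : ℕ) ≠ 1 by norm_num), if_pos trivial, if_neg (show (3 : ℕ) ≠ 0 by norm_num),
      if_neg (show (3 : ℕ) ≠ 1 by norm_num), if_neg (show (3 : ℕ) ≠ 2 by norm_num), edge3]
    have e4 : m + 3 - 3 = m := by omega
    rw [e4]
    rcases Nat.eq_zero_or_pos m with hm | hm
    · subst hm
      simp only [zero_add, if_true, pow_one]
      rw [edge4]
      simp only [cc, if_true]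
      field_simp
      ring
    · rw [if_neg (by omega), edge3]
      unfold cc
      rw [if_neg (by omega), h4, h2]
      field_simp
      ring
  · rw [if_neg h0, if_neg h1]
    by_cases h5 : i = 2 ∨ i = m + 3
    · rw [if_pos h5, Finset.sum_empty, sub_zero]
      simp only [AffType.kap]
      rw [if_neg h0, if_neg h1]
      rcases h5 with h5 | h5
      · rw [if_pos h5]
      · rw [if_neg (by omega), h5, Nat.sub_self]
        simp [cc]
    · rw [if_neg h5, Finset.sum_singleton]
      simp only [AffType.kap, AffType.e, AffType.lab]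
      push Not at h5
      rw [if_neg h0, if_neg h1, if_neg h5.1, if_neg (show i + 1 ≠ 0 by omega),
        if_neg (show i + 1 ≠ 1 by omega), if_neg (show i + 1 ≠ 2 by omega)]
      by_cases h6 : i + 1 = m + 3
      · have e4 : m + 3 - i = 1 := by omega
        have e5 : m + 3 - (i + 1) = 0 := by omega
        rw [if_pos h6, e4, e5, edge4, cc_one hq]
        simp [cc]
      · rw [if_neg h6]
        have e4 : m + 3 - i = (m + 3 - (i + 1)) + 1 := by omega
        rw [edge3, one_mul, e4]
        exact cc_succ hq _ (by omega)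

lemma kids_D {n i : ℕ} (hn : 4 ≤ n) (hi : i ≤ n) : kids (AffType.D n).par n i =
    if i = 0 then {1} else if i = 1 then (if n = 4 then {2, 3, 4} else {2, 3}) else
    if i = 2 ∨ i = n - 1 ∨ i = n then ∅ else if i = n - 2 then {n - 1, n} else {i + 1} := by
  ext c
  rw [mem_kids]
  simp only [AffType.par, fork]
  split_ifs <;>
    simp only [Finset.notMem_empty, Finset.mem_singleton, Finset.mem_insert, iff_false] <;> omega

include hq in
lemma kap_D (n : ℕ) (hn : 4 ≤ n) (i : ℕ) (hi : i ≤ n) : (AffType.D n).kap q i =
    1 - ∑ c ∈ kids (AffType.D n).par n i, (AffType.D n).e q c / (AffType.D n).kap q c := by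
  have hq0 : 0 < q := by linarith
  obtain ⟨m, rfl⟩ : ∃ m, n = m + 4 := ⟨n - 4, by omega⟩
  have h2 : q ^ (m + 1) = q ^ m * q := pow_succ _ _
  have h3 : q ^ (m + 2) = q ^ m * q * q := by rw [pow_succ, pow_succ]
  have h4 : q ^ (m + 3) = q ^ m * q * q * q := by rw [pow_succ, pow_succ, pow_succ]
  have p0 : 0 < q ^ m := by positivity
  have p1 : 0 < q ^ m * q := by positivity
  have p2 : 0 < q ^ m * q * q := by positivity
  have p3 : 0 < q ^ m * q * q * q := by positivity
  have e1 : m + 4 - 1 = m + 3 := by omega
  have e2 : m + 4 - 2 = m + 2 := by omega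
  have e3 : m + 4 - 3 = m + 1 := by omega
  rw [kids_D hn hi]
  by_cases h0 : i = 0
  · subst h0
    simp only [if_true, Finset.sum_singleton, AffType.kap, AffType.e, AffType.lab, e1, e2, e3]
    rw [if_neg one_ne_zero, edge3, h3, h4, h2]
    field_simp
    ring
  by_cases h1 : i = 1
  · subst h1
    rw [if_neg one_ne_zero, if_pos rfl]
    simp only [AffType.kap, AffType.e, AffType.lab, e1, e3]
    rw [if_neg one_ne_zero, if_pos trivial]
    rcases Nat.eq_zero_or_pos m with hm | hm
    · subst hm
      rw [if_pos (by norm_num), Finset.sum_insert (by norm_num), Finset.sum_pair (by norm_num)]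
      norm_num
      rw [edge3]
      simp only [cc, if_true]
      field_simp
      ring
    · rw [if_neg (by omega), Finset.sum_pair (by norm_num)]
      rw [if_neg two_ne_zero, if_neg (show (2 : ℕ) ≠ 1 by norm_num),
        if_pos rfl, if_neg (show (3 : ℕ) ≠ 0 by norm_num), if_neg (show (3 : ℕ) ≠ 1 by norm_num),
        if_neg (show (3 : ℕ) ≠ 2 by norm_num), edge3]
      have e4 : m + 3 - 3 = m := by omega
      rw [e4]
      unfold cc
      rw [if_neg (by omega), h4, h2]
      field_simp
      ring
  · rw [if_neg h0, if_neg h1]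
    by_cases h5 : i = 2 ∨ i = m + 4 - 1 ∨ i = m + 4
    · rw [if_pos h5, Finset.sum_empty, sub_zero]
      simp only [AffType.kap]
      rw [if_neg h0, if_neg h1]
      by_cases h6 : i = 2
      · rw [if_pos h6]
      · rw [if_neg h6]
        have e4 : m + 4 - 1 - i = 0 := by omega
        rw [e4]
        simp [cc]
    · rw [if_neg h5]
      push Not at h5
      by_cases h6 : i = m + 4 - 2
      · rw [if_pos h6, Finset.sum_pair (by omega)]
        simp only [AffType.kap, AffType.e, AffType.lab]
        rw [if_neg h0, if_neg h1, if_neg h5.1, if_neg (by omega), if_neg (by omega),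
          if_neg (by omega), if_neg (by omega), if_neg (by omega), if_neg (by omega), edge3]
        have e4 : m + 4 - 1 - i = 1 := by omega
        have e5 : m + 4 - 1 - (m + 4 - 1) = 0 := by omega
        have e6 : m + 4 - 1 - (m + 4) = 0 := by omega
        rw [e4, e5, e6, cc_one hq]
        simp only [cc, if_true]
        ring
      · rw [if_neg h6, Finset.sum_singleton]
        simp only [AffType.kap, AffType.e, AffType.lab]
        rw [if_neg h0, if_neg h1, if_neg h5.1, if_neg (show i + 1 ≠ 0 by omega),
          if_neg (show i + 1 ≠ 1 by omega), if_neg (show i + 1 ≠ 2 by omega)]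
        have e4 : m + 4 - 1 - i = (m + 4 - 1 - (i + 1)) + 1 := by omega
        rw [edge3, one_mul, e4]
        exact cc_succ hq _ (by omega)

end Pool.Agent.Helper45.FG
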