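import Pool.Agent.Helper45.FG.Kap2

/-! The constants of the affine trees satisfy the recursion: exceptional types. -/

namespace Pool.Agent.Helper45.FG

variable {q : ℝ} (hq : 1 < q)

lemma fr {a D N D' c : ℝ} (hD : 0 < D) (hN : 0 < N) (h : a * N = (N - c * D') * D) :
    a / D = 1 - c / (N / D') := by
  rw [div_div_eq_mul_div, eq_sub_iff_add_eq, div_add_div _ _ hD.ne' hN.ne',
    div_eq_one_iff_eq (mul_ne_zero hD.ne' hN.ne')]
  linarith

include hq in
lemma kap_G2 (i : ℕ) (hi : i ≤ 2) : AffType.G2.kap q i =
    1 - ∑ c ∈ kids AffType.G2.par 2 i, AffType.G2.e q c / AffType.G2.kap q c := by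
  have hq0 : 0 < q := by linarith
  have h2 := p2 hq
  have k0 : kids AffType.G2.par 2 0 = {1} := by decide
  have k1 : kids AffType.G2.par 2 1 = {2} := by decide
  have k2 : kids AffType.G2.par 2 2 = ∅ := by decide
  interval_cases i
  · rw [k0, Finset.sum_singleton]
    simp only [AffType.kap, AffType.e, AffType.lab]
    norm_num [edge]
    refine fr (by positivity) (by positivity) ?_
    field_simp
    ring
  · rw [k1, Finset.sum_singleton]
    simp only [AffType.kap, AffType.e, AffType.lab]
    norm_num [edge]
    field_simp
    ring
  · rw [k2, Finset.sum_empty]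
    simp [AffType.kap]

include hq in
lemma kap_F4 (i : ℕ) (hi : i ≤ 4) : AffType.F4.kap q i =
    1 - ∑ c ∈ kids AffType.F4.par 4 i, AffType.F4.e q c / AffType.F4.kap q c := by
  have hq0 : 0 < q := by linarith
  have h2 := p2 hq
  have h4 := p4 q
  have k0 : kids AffType.F4.par 4 0 = {1} := by decide
  have k1 : kids AffType.F4.par 4 1 = {2} := by decide
  have k2 : kids AffType.F4.par 4 2 = {3} := by decide
  have k3 : kids AffType.F4.par 4 3 = {4} := by decide
  have k4 : kids AffType.F4.par 4 4 = ∅ := by decide
  interval_cases i
  · rw [k0, Finset.sum_singleton]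
    simp only [AffType.kap, AffType.e, AffType.lab]
    norm_num [edge]
    refine fr (by positivity) (by positivity) ?_
    field_simp
    ring
  · rw [k1, Finset.sum_singleton]
    simp only [AffType.kap, AffType.e, AffType.lab]
    norm_num [edge]
    refine fr (by positivity) (by positivity) ?_
    field_simp
    ring
  · rw [k2, Finset.sum_singleton]
    simp only [AffType.kap, AffType.e, AffType.lab]
    norm_num [edge]
    field_simp
    ring
  · rw [k3, Finset.sum_singleton]
    simp only [AffType.kap, AffType.e, AffType.lab]
    norm_num [edge]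
    field_simp
    ring
  · rw [k4, Finset.sum_empty]
    simp [AffType.kap]

include hq in
lemma kap_E6 (i : ℕ) (hi : i ≤ 6) : AffType.E6.kap q i =
    1 - ∑ c ∈ kids AffType.E6.par 6 i, AffType.E6.e q c / AffType.E6.kap q c := by
  have hq0 : 0 < q := by linarith
  have h2 := p2 hq
  have h4 := p4 q
  have k0 : kids AffType.E6.par 6 0 = {1} := by decide
  have k1 : kids AffType.E6.par 6 1 = {2} := by decide
  have k2 : kids AffType.E6.par 6 2 = {3, 5} := by decide
  have k3 : kids AffType.E6.par 6 3 = {4} := by decide
  have k4 : kids AffType.E6.par 6 4 = ∅ := by decide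
  have k5 : kids AffType.E6.par 6 5 = {6} := by decide
  have k6 : kids AffType.E6.par 6 6 = ∅ := by decide
  interval_cases i
  · rw [k0, Finset.sum_singleton]
    simp only [AffType.kap, AffType.e, AffType.lab]
    norm_num [edge]
    refine fr (by positivity) (by positivity) ?_
    field_simp
    ring
  · rw [k1, Finset.sum_singleton]
    simp only [AffType.kap, AffType.e, AffType.lab]
    norm_num [edge]
    refine fr (by positivity) (by positivity) ?_
    field_simp
    ring
  · rw [k2, Finset.sum_pair (by norm_num)]
    simp only [AffType.kap, AffType.e, AffType.lab]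
    norm_num [edge]
    field_simp
    ring
  · rw [k3, Finset.sum_singleton]
    simp only [AffType.kap, AffType.e, AffType.lab]
    norm_num [edge]
    field_simp
    ring
  · rw [k4, Finset.sum_empty]
    simp [AffType.kap]
  · rw [k5, Finset.sum_singleton]
    simp only [AffType.kap, AffType.e, AffType.lab]
    norm_num [edge]
    field_simp
    ring
  · rw [k6, Finset.sum_empty]
    simp [AffType.kap]

include hq in
lemma kap_E7 (i : ℕ) (hi : i ≤ 7) : AffType.E7.kap q i =
    1 - ∑ c ∈ kids AffType.E7.par 7 i, AffType.E7.e q c / AffType.E7.kap q c := by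
  have hq0 : 0 < q := by linarith
  have h2 := p2 hq
  have h6 := p6 hq
  have k0 : kids AffType.E7.par 7 0 = {1} := by decide
  have k1 : kids AffType.E7.par 7 1 = {2} := by decide
  have k2 : kids AffType.E7.par 7 2 = {3} := by decide
  have k3 : kids AffType.E7.par 7 3 = {4, 5} := by decide
  have k4 : kids AffType.E7.par 7 4 = ∅ := by decide
  have k5 : kids AffType.E7.par 7 5 = {6} := by decide
  have k6 : kids AffType.E7.par 7 6 = {7} := by decide
  have k7 : kids AffType.E7.par 7 7 = ∅ := by decide
  interval_cases i
  · rw [k0, Finset.sum_singleton]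
    simp only [AffType.kap, AffType.e, AffType.lab]
    norm_num [edge]
    refine fr (by positivity) (by positivity) ?_
    field_simp
    ring
  · rw [k1, Finset.sum_singleton]
    simp only [AffType.kap, AffType.e, AffType.lab]
    norm_num [edge]
    field_simp
    ring
  · rw [k2, Finset.sum_singleton]
    simp only [AffType.kap, AffType.e, AffType.lab]
    norm_num [edge]
    field_simp
    ring
  · rw [k3, Finset.sum_pair (by norm_num)]
    simp only [AffType.kap, AffType.e, AffType.lab]
    norm_num [edge]
    field_simp
    ring
  · rw [k4, Finset.sum_empty]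
    simp [AffType.kap]
  · rw [k5, Finset.sum_singleton]
    simp only [AffType.kap, AffType.e, AffType.lab]
    norm_num [edge]
    field_simp
    ring
  · rw [k6, Finset.sum_singleton]
    simp only [AffType.kap, AffType.e, AffType.lab]
    norm_num [edge]
    field_simp
    ring
  · rw [k7, Finset.sum_empty]
    simp [AffType.kap]

include hq in
lemma kap_E8 (i : ℕ) (hi : i ≤ 8) : AffType.E8.kap q i =
    1 - ∑ c ∈ kids AffType.E8.par 8 i, AffType.E8.e q c / AffType.E8.kap q c := by
  have hq0 : 0 < q := by linarith
  have h2 := p2 hq
  have h6 := p6 hq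
  have h6b := p6b hq
  have h8 := p8 hq
  have k0 : kids AffType.E8.par 8 0 = {1} := by decide
  have k1 : kids AffType.E8.par 8 1 = {2} := by decide
  have k2 : kids AffType.E8.par 8 2 = {3} := by decide
  have k3 : kids AffType.E8.par 8 3 = {4} := by decide
  have k4 : kids AffType.E8.par 8 4 = {5} := by decide
  have k5 : kids AffType.E8.par 8 5 = {6, 7} := by decide
  have k6 : kids AffType.E8.par 8 6 = ∅ := by decide
  have k7 : kids AffType.E8.par 8 7 = {8} := by decide
  have k8 : kids AffType.E8.par 8 8 = ∅ := by decide
  interval_cases i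
  · rw [k0, Finset.sum_singleton]
    simp only [AffType.kap, AffType.e, AffType.lab]
    norm_num [edge]
    refine fr (by positivity) (by positivity) ?_
    field_simp
    ring
  · rw [k1, Finset.sum_singleton]
    simp only [AffType.kap, AffType.e, AffType.lab]
    norm_num [edge]
    refine fr (by positivity) (by positivity) ?_
    field_simp
    ring
  · rw [k2, Finset.sum_singleton]
    simp only [AffType.kap, AffType.e, AffType.lab]
    norm_num [edge]
    refine fr (by positivity) (by positivity) ?_
    field_simp
    ring
  · rw [k3, Finset.sum_singleton]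
    simp only [AffType.kap, AffType.e, AffType.lab]
    norm_num [edge]
    field_simp
    ring
  · rw [k4, Finset.sum_singleton]
    simp only [AffType.kap, AffType.e, AffType.lab]
    norm_num [edge]
    field_simp
    ring
  · rw [k5, Finset.sum_pair (by norm_num)]
    simp only [AffType.kap, AffType.e, AffType.lab]
    norm_num [edge]
    field_simp
    ring
  · rw [k6, Finset.sum_empty]
    simp [AffType.kap]
  · rw [k7, Finset.sum_singleton]
    simp only [AffType.kap, AffType.e, AffType.lab]
    norm_num [edge]
    field_simp
    ring
  · rw [k8, Finset.sum_empty]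
    simp [AffType.kap]

include hq in
theorem kap_eq (t : AffType) (ht : t.ok) (i : ℕ) (hi : i ≤ t.rank) : t.kap q i =
    1 - ∑ c ∈ kids t.par t.rank i, t.e q c / t.kap q c := by
  cases t with
  | B n => exact kap_B hq n ht i hi
  | C n => exact kap_C hq n ht i hi
  | D n => exact kap_D hq n ht i hi
  | E6 => exact kap_E6 hq i hi
  | E7 => exact kap_E7 hq i hi
  | E8 => exact kap_E8 hq i hi
  | F4 => exact kap_F4 hq i hi
  | G2 => exact kap_G2 hq i hi

end Pool.Agent.Helper45.FG
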