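import Pool.Agent.Helper45.FG.Kap3

/-! The value of the quasi-minuscule Hecke operator at the subregular parameter. -/

namespace Pool.Agent.Helper45.FG

/-- The character of the irreducible representation of SL_2 of dimension 2e+1 at
diag(q^(1/2), q^(-1/2)). -/
noncomputable def sl2 (q : ℝ) (e : ℕ) : ℝ := ∑ j ∈ Finset.range (2 * e + 1), q ^ ((j : ℤ) - e)

/-- The exponents of the quasi-minuscule representation V of the dual group: V restricted to the
principal SL_2 is the sum of the representations of dimension 2e+1. -/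
def AffType.expo : AffType → List ℕ
  | .B n => (List.range (n - 1)).map fun k => 2 * k + 2
  | .C n => [n]
  | .D n => (n - 1) :: (List.range (n - 1)).map fun k => 2 * k + 1
  | .E6 => [1, 4, 5, 7, 8, 11]
  | .E7 => [1, 5, 7, 9, 11, 13, 17]
  | .E8 => [1, 7, 11, 13, 17, 19, 23, 29]
  | .F4 => [4, 8]
  | .G2 => [3]

/-- The restriction of V to the subregular SL_2, in the same notation. -/
def AffType.subr : AffType → List ℕ
  | .B n => 0 :: (n - 1) :: (n - 2) :: (List.range (n - 2)).map fun k => 2 * k + 2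
  | .C n => [n - 1, 0, 0]
  | .D n => (n - 1) :: (n - 2) :: (n - 3) :: 1 :: (List.range (n - 2)).map fun k => 2 * k + 1
  | .E6 => [1, 4, 5, 7, 8, 5, 3, 2]
  | .E7 => [1, 5, 7, 9, 11, 13, 8, 5, 3]
  | .E8 => [1, 7, 11, 13, 17, 19, 23, 14, 9, 5]
  | .F4 => [4, 0, 5, 2]
  | .G2 => [1, 1, 0]

/-- The quotient (chi_V(Q_O) - s) / (chi_V(Q_reg) - s), s = sum of q^(-e) over the exponents, O the
subregular orbit: by the formula of Kato and Lusztig the value of the quasi-minuscule Hecke operator
at Q_O divided by its degree. -/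
noncomputable def AffType.lam (t : AffType) (q : ℝ) : ℝ :=
  ((t.subr.map (sl2 q)).sum - (t.expo.map fun e => 1 / q ^ e).sum) /
    ((t.expo.map (sl2 q)).sum - (t.expo.map fun e => 1 / q ^ e).sum)

variable {q : ℝ} (hq : 1 < q)

include hq in
lemma sl2_eq (e : ℕ) : sl2 q e = (q ^ (2 * e + 1) - 1) / (q ^ e * (q - 1)) := by
  have hq0 : 0 < q := by linarith
  have hq1 : q - 1 ≠ 0 := by linarith
  unfold sl2
  have h1 : ∀ j ∈ Finset.range (2 * e + 1), q ^ ((j : ℤ) - e) = q ^ j / q ^ e := by
    intro j _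
    rw [zpow_sub₀ hq0.ne', zpow_natCast, zpow_natCast]
  rw [Finset.sum_congr rfl h1, ← Finset.sum_div, geom_sum_eq (by linarith)]
  have h2 : q ^ e ≠ 0 := by positivity
  field_simp

lemma lam_of {t : AffType} {q a : ℝ}
    (hD : (t.expo.map (sl2 q)).sum - (t.expo.map fun e => 1 / q ^ e).sum ≠ 0)
    (h : (t.expo.map (sl2 q)).sum - (t.subr.map (sl2 q)).sum =
      a * ((t.expo.map (sl2 q)).sum - (t.expo.map fun e => 1 / q ^ e).sum)) :
    t.lam q = 1 - a := by
  unfold AffType.lam
  rw [div_eq_iff hD]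
  linarith

include hq in
lemma term_pos {e : ℕ} (he : 0 < e) : 0 < sl2 q e - 1 / q ^ e := by
  have hq0 : 0 < q := by linarith
  have hq1 : 0 < q - 1 := by linarith
  have h0 : 0 < q ^ e := by positivity
  have h2 : sl2 q e - 1 / q ^ e = q * (q ^ (2 * e) - 1) / (q ^ e * (q - 1)) := by
    rw [sl2_eq hq, pow_succ]
    field_simp
    ring
  have h3 : 0 < q ^ (2 * e) - 1 := pow_sub_pos hq (by omega)
  rw [h2]
  positivity

include hq in
lemma den_pos (l : List ℕ) (hl : ∀ e ∈ l, 0 < e) (hne : l ≠ []) :
    0 < (l.map (sl2 q)).sum - (l.map fun e => 1 / q ^ e).sum := by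
  induction l with
  | nil => exact absurd rfl hne
  | cons a l ih =>
    simp only [List.map_cons, List.sum_cons]
    have h1 := term_pos hq (hl a List.mem_cons_self)
    by_cases h : l = []
    · subst h
      simpa using h1
    · have h2 := ih (fun e he => hl e (List.mem_cons_of_mem _ he)) h
      linarith

include hq in
lemma lam_G2 : AffType.G2.lam q = 1 - (q + 1) / q * AffType.G2.kap q 0 := by
  have hq0 : 0 < q := by linarith
  have hq1 : 0 < q - 1 := by linarith
  have h2 := p2 hq
  apply lam_of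
  · exact (den_pos hq _ (by decide) (by decide)).ne'
  · simp only [AffType.expo, AffType.subr, List.map_cons, List.map_nil, List.sum_cons, List.sum_nil,
      sl2_eq hq, AffType.kap, if_true]
    set B := q ^ 2 - q + 1 with hB
    field_simp
    rw [hB]
    ring

include hq in
lemma lam_F4 : AffType.F4.lam q = 1 - (q + 1) / q * AffType.F4.kap q 0 := by
  have hq0 : 0 < q := by linarith
  have hq1 : 0 < q - 1 := by linarith
  have h4 := p4 q
  apply lam_of
  · exact (den_pos hq _ (by decide) (by decide)).ne'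
  · simp only [AffType.expo, AffType.subr, List.map_cons, List.map_nil, List.sum_cons, List.sum_nil,
      sl2_eq hq, AffType.kap, if_true]
    set B := q ^ 4 - q ^ 2 + 1 with hB
    field_simp
    rw [hB]
    ring

include hq in
lemma lam_E6 : AffType.E6.lam q = 1 - (q + 1) / q * AffType.E6.kap q 0 := by
  have hq0 : 0 < q := by linarith
  have hq1 : 0 < q - 1 := by linarith
  have h4 := p4 q
  apply lam_of
  · exact (den_pos hq _ (by decide) (by decide)).ne'
  · simp only [AffType.expo, AffType.subr, List.map_cons, List.map_nil, List.sum_cons, List.sum_nil,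
      sl2_eq hq, AffType.kap, if_true]
    set B := q ^ 4 - q ^ 2 + 1 with hB
    field_simp
    rw [hB]
    ring

include hq in
lemma lam_E7 : AffType.E7.lam q = 1 - (q + 1) / q * AffType.E7.kap q 0 := by
  have hq0 : 0 < q := by linarith
  have hq1 : 0 < q - 1 := by linarith
  have h6 := p6 hq
  apply lam_of
  · exact (den_pos hq _ (by decide) (by decide)).ne'
  · simp only [AffType.expo, AffType.subr, List.map_cons, List.map_nil, List.sum_cons, List.sum_nil,
      sl2_eq hq, AffType.kap, if_true]
    set B := q ^ 6 - q ^ 3 + 1 with hB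
    field_simp
    rw [hB]
    ring

include hq in
lemma lam_E8 : AffType.E8.lam q = 1 - (q + 1) / q * AffType.E8.kap q 0 := by
  have hq0 : 0 < q := by linarith
  have hq1 : 0 < q - 1 := by linarith
  have h8 := p8 hq
  apply lam_of
  · exact (den_pos hq _ (by decide) (by decide)).ne'
  · simp only [AffType.expo, AffType.subr, List.map_cons, List.map_nil, List.sum_cons, List.sum_nil,
      sl2_eq hq, AffType.kap, if_true]
    set B := q ^ 8 + q ^ 7 - q ^ 5 - q ^ 4 - q ^ 3 + q + 1 with hB
    field_simp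
    rw [hB]
    ring

include hq in
lemma lam_C (n : ℕ) (hn : 2 ≤ n) : (AffType.C n).lam q = 1 - (q + 1) / q * (AffType.C n).kap q 0 := by
  have hq0 : 0 < q := by linarith
  have hq1 : 0 < q - 1 := by linarith
  apply lam_of
  · refine (den_pos hq _ ?_ (by simp [AffType.expo])).ne'
    intro e he
    simp only [AffType.expo, List.mem_singleton] at he
    omega
  · obtain ⟨m, rfl⟩ : ∃ m, n = m + 1 := ⟨n - 1, by omega⟩
    simp only [AffType.expo, AffType.subr, List.map_cons, List.map_nil, List.sum_cons, List.sum_nil,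
      sl2_eq hq, AffType.kap, if_true, Nat.add_sub_cancel, mul_zero, zero_add, pow_one, pow_zero,
      one_mul, add_zero]
    have e1 : q ^ (m + 1) = q ^ m * q := pow_succ _ _
    have e2 : q ^ (2 * (m + 1) + 1) = (q ^ m) ^ 2 * q ^ 3 := by
      rw [← pow_mul, ← pow_add]
      congr 1
      ring
    have e3 : q ^ (2 * m + 1) = (q ^ m) ^ 2 * q := by
      rw [← pow_mul, ← pow_succ]
      congr 1
      ring
    rw [e1, e2, e3]
    have hx : 0 < q ^ m := by positivity
    set x := q ^ m with hxd
    have h2 : 0 < x * q + 1 := by positivity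
    field_simp
    ring

include hq in
lemma sumB (m : ℕ) : ((((List.range m).map fun k => 2 * k + 2).map (sl2 q)).sum -
    (((List.range m).map fun k => 2 * k + 2).map fun e => 1 / q ^ e).sum) =
    q * (q ^ (2 * m) - 1) * (q ^ (2 * m + 2) - 1) / ((q - 1) * q ^ (2 * m) * (q ^ 2 - 1)) := by
  have hq0 : 0 < q := by linarith
  have hq1 : 0 < q - 1 := by linarith
  have hq2 : 0 < q ^ 2 - 1 := pow_sub_pos hq (by norm_num)
  induction m with
  | zero => simp
  | succ m ih =>
    rw [List.range_succ, List.map_append, List.map_append, List.map_append, List.sum_append,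
      List.sum_append]
    simp only [List.map_cons, List.map_nil, List.sum_cons, List.sum_nil, add_zero]
    have h1 : ((((List.range m).map fun k => 2 * k + 2).map (sl2 q)).sum + sl2 q (2 * m + 2) -
      ((((List.range m).map fun k => 2 * k + 2).map fun e => 1 / q ^ e).sum + 1 / q ^ (2 * m + 2))) =
      ((((List.range m).map fun k => 2 * k + 2).map (sl2 q)).sum -
      (((List.range m).map fun k => 2 * k + 2).map fun e => 1 / q ^ e).sum) +
      (sl2 q (2 * m + 2) - 1 / q ^ (2 * m + 2)) := by ring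
    rw [h1, ih, sl2_eq hq]
    have e1 : q ^ (2 * m) = (q ^ m) ^ 2 := by rw [← pow_mul, mul_comm]
    have e2 : q ^ (2 * m + 2) = (q ^ m) ^ 2 * q ^ 2 := by rw [pow_add, e1]
    have e3 : q ^ (2 * (m + 1)) = (q ^ m) ^ 2 * q ^ 2 := by rw [← e2]; congr 1
    have e4 : q ^ (2 * (m + 1) + 2) = (q ^ m) ^ 2 * q ^ 4 := by
      rw [pow_add, e3]
      ring
    have e5 : q ^ (2 * (2 * m + 2) + 1) = (q ^ m) ^ 4 * q ^ 5 := by
      rw [← pow_mul, ← pow_add]
      congr 1
      ring
    rw [e5, e4, e3, e2, e1]
    have hx : 0 < q ^ m := by positivity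
    set x := q ^ m with hxd
    field_simp
    ring

include hq in
lemma sumD (m : ℕ) : ((((List.range m).map fun k => 2 * k + 1).map (sl2 q)).sum -
    (((List.range m).map fun k => 2 * k + 1).map fun e => 1 / q ^ e).sum) =
    q ^ 2 * (q ^ (2 * m) - 1) ^ 2 / ((q - 1) * q ^ (2 * m) * (q ^ 2 - 1)) := by
  have hq0 : 0 < q := by linarith
  have hq1 : 0 < q - 1 := by linarith
  have hq2 : 0 < q ^ 2 - 1 := pow_sub_pos hq (by norm_num)
  induction m with
  | zero => simp
  | succ m ih =>
    rw [List.range_succ, List.map_append, List.map_append, List.map_append, List.sum_append,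
      List.sum_append]
    simp only [List.map_cons, List.map_nil, List.sum_cons, List.sum_nil, add_zero]
    have h1 : ((((List.range m).map fun k => 2 * k + 1).map (sl2 q)).sum + sl2 q (2 * m + 1) -
      ((((List.range m).map fun k => 2 * k + 1).map fun e => 1 / q ^ e).sum + 1 / q ^ (2 * m + 1))) =
      ((((List.range m).map fun k => 2 * k + 1).map (sl2 q)).sum -
      (((List.range m).map fun k => 2 * k + 1).map fun e => 1 / q ^ e).sum) +
      (sl2 q (2 * m + 1) - 1 / q ^ (2 * m + 1)) := by ring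
    rw [h1, ih, sl2_eq hq]
    have e1 : q ^ (2 * m) = (q ^ m) ^ 2 := by rw [← pow_mul, mul_comm]
    have e2 : q ^ (2 * m + 1) = (q ^ m) ^ 2 * q := by rw [pow_succ, e1]
    have e3 : q ^ (2 * (m + 1)) = (q ^ m) ^ 2 * q ^ 2 := by
      rw [← pow_mul, ← pow_add]
      congr 1
      ring
    have e5 : q ^ (2 * (2 * m + 1) + 1) = (q ^ m) ^ 4 * q ^ 3 := by
      rw [← pow_mul, ← pow_add]
      congr 1
      ring
    rw [e5, e3, e2, e1]
    have hx : 0 < q ^ m := by positivity
    set x := q ^ m with hxd
    field_simp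
    ring

include hq in
lemma lam_B (n : ℕ) (hn : 3 ≤ n) : (AffType.B n).lam q = 1 - (q + 1) / q * (AffType.B n).kap q 0 := by
  have hq0 : 0 < q := by linarith
  have hq1 : 0 < q - 1 := by linarith
  have hq2 : 0 < q ^ 2 - 1 := pow_sub_pos hq (by norm_num)
  obtain ⟨m, rfl⟩ : ∃ m, n = m + 2 := ⟨n - 2, by omega⟩
  apply lam_of
  · refine (den_pos hq _ ?_ ?_).ne'
    · intro e he
      simp only [AffType.expo, List.mem_map] at he
      obtain ⟨k, -, rfl⟩ := he
      omega
    · simp [AffType.expo]
  · have hD := sumB hq (m + 1)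
    have e0 : m + 2 - 1 = m + 1 := by omega
    have e0' : m + 2 - 2 = m := by omega
    simp only [AffType.expo, AffType.subr, AffType.kap, e0, e0', List.map_cons, List.sum_cons,
      if_true] at hD ⊢
    rw [hD]
    have h1 : (((List.range (m + 1)).map fun k => 2 * k + 2).map (sl2 q)).sum =
        (((List.range m).map fun k => 2 * k + 2).map (sl2 q)).sum + sl2 q (2 * m + 2) := by
      rw [List.range_succ, List.map_append, List.map_append, List.sum_append]
      simp
    rw [h1, sl2_eq hq, sl2_eq hq, sl2_eq hq, sl2_eq hq]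
    have e1 : q ^ (2 * m) = (q ^ m) ^ 2 := by rw [← pow_mul, mul_comm]
    have e2 : q ^ (2 * m + 2) = (q ^ m) ^ 2 * q ^ 2 := by rw [pow_add, e1]
    have e3 : q ^ (2 * (m + 1)) = (q ^ m) ^ 2 * q ^ 2 := by rw [← e2]; congr 1
    have e4 : q ^ (2 * (m + 1) + 2) = (q ^ m) ^ 2 * q ^ 4 := by
      rw [pow_add, e3]
      ring
    have e5 : q ^ (2 * (2 * m + 2) + 1) = (q ^ m) ^ 4 * q ^ 5 := by
      rw [← pow_mul, ← pow_add]
      congr 1
      ring
    have e6 : q ^ (m + 1) = q ^ m * q := pow_succ _ _
    have e7 : q ^ (m + 2) = q ^ m * q ^ 2 := pow_add _ _ _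
    have e8 : q ^ (2 * (m + 1) + 1) = (q ^ m) ^ 2 * q ^ 3 := by
      rw [← pow_mul, ← pow_add]
      congr 1
      ring
    have e9 : q ^ (2 * m + 1) = (q ^ m) ^ 2 * q := by rw [pow_succ, e1]
    rw [e9, e8, e5, e4, e3, e2, e7, e6]
    have hx : 0 < q ^ m := by positivity
    set x := q ^ m with hxd
    have h3 : 0 < x * q ^ 2 + 1 := by positivity
    simp only [mul_zero, zero_add, pow_one, pow_zero, one_mul]
    field_simp
    ring

include hq in
lemma lam_D (n : ℕ) (hn : 4 ≤ n) : (AffType.D n).lam q = 1 - (q + 1) / q * (AffType.D n).kap q 0 := by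
  have hq0 : 0 < q := by linarith
  have hq1 : 0 < q - 1 := by linarith
  have hq2 : 0 < q ^ 2 - 1 := pow_sub_pos hq (by norm_num)
  obtain ⟨m, rfl⟩ : ∃ m, n = m + 3 := ⟨n - 3, by omega⟩
  apply lam_of
  · refine (den_pos hq _ ?_ ?_).ne'
    · intro e he
      simp only [AffType.expo, List.mem_cons, List.mem_map] at he
      rcases he with he | ⟨k, -, rfl⟩ <;> omega
    · simp [AffType.expo]
  · have hD := sumD hq (m + 2)
    have e0 : m + 3 - 1 = m + 2 := by omega
    have e0' : m + 3 - 2 = m + 1 := by omega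
    have e0'' : m + 3 - 3 = m := by omega
    simp only [AffType.expo, AffType.subr, AffType.kap, e0, e0', e0'', List.map_cons, List.sum_cons,
      if_true] at hD ⊢
    have h1 : (((List.range (m + 2)).map fun k => 2 * k + 1).map (sl2 q)).sum =
        (((List.range (m + 1)).map fun k => 2 * k + 1).map (sl2 q)).sum + sl2 q (2 * m + 3) := by
      rw [List.range_succ, List.map_append, List.map_append, List.sum_append]
      simp only [List.map_cons, List.map_nil, List.sum_cons, List.sum_nil, add_zero]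
      congr 2
    have h2 : sl2 q (m + 2) + (((List.range (m + 2)).map fun k => 2 * k + 1).map (sl2 q)).sum -
        (1 / q ^ (m + 2) + (((List.range (m + 2)).map fun k => 2 * k + 1).map
          fun e => 1 / q ^ e).sum) = (sl2 q (m + 2) - 1 / q ^ (m + 2)) +
        ((((List.range (m + 2)).map fun k => 2 * k + 1).map (sl2 q)).sum -
        (((List.range (m + 2)).map fun k => 2 * k + 1).map fun e => 1 / q ^ e).sum) := by ring
    rw [h2, hD, h1, sl2_eq hq, sl2_eq hq, sl2_eq hq, sl2_eq hq, sl2_eq hq]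
    have e1 : q ^ (2 * m) = (q ^ m) ^ 2 := by rw [← pow_mul, mul_comm]
    have e2 : q ^ (2 * m + 3) = (q ^ m) ^ 2 * q ^ 3 := by rw [pow_add, e1]
    have e3 : q ^ (2 * (m + 2)) = (q ^ m) ^ 2 * q ^ 4 := by
      rw [← pow_mul, ← pow_add]
      congr 1
      ring
    have e4 : q ^ (2 * (m + 2) + 1) = (q ^ m) ^ 2 * q ^ 5 := by
      rw [← pow_mul, ← pow_add]
      congr 1
      ring
    have e5 : q ^ (2 * (2 * m + 3) + 1) = (q ^ m) ^ 4 * q ^ 7 := by
      rw [← pow_mul, ← pow_add]
      congr 1
      ring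
    have e6 : q ^ (m + 1) = q ^ m * q := pow_succ _ _
    have e7 : q ^ (m + 2) = q ^ m * q ^ 2 := pow_add _ _ _
    have e8 : q ^ (2 * (m + 1) + 1) = (q ^ m) ^ 2 * q ^ 3 := by
      rw [← pow_mul, ← pow_add]
      congr 1
      ring
    have e9 : q ^ (2 * m + 1) = (q ^ m) ^ 2 * q := by rw [pow_succ, e1]
    rw [e5, e4, e3, e2, e8, e9, e7, e6]
    have hx : 0 < q ^ m := by positivity
    set x := q ^ m with hxd
    have h3 : 0 < x * q ^ 2 + 1 := by positivity
    simp only [mul_one, pow_one]
    field_simp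
    ring

include hq in
theorem lam_eq (t : AffType) (ht : t.ok) : t.lam q = 1 - (q + 1) / q * t.kap q 0 := by
  cases t with
  | B n => exact lam_B hq n ht
  | C n => exact lam_C hq n ht
  | D n => exact lam_D hq n ht
  | E6 => exact lam_E6 hq
  | E7 => exact lam_E7 hq
  | E8 => exact lam_E8 hq
  | F4 => exact lam_F4 hq
  | G2 => exact lam_G2 hq

end Pool.Agent.Helper45.FG
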