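import Pool.Agent.Helper45.FG.Up

/-! The first gap for chamber systems. -/

open scoped ENNReal NNReal InnerProductSpace
open MeasureTheory

namespace Pool.Agent.Helper45.FG

open Pool.Agent.Helper80.AT

variable {G C V : Type} [Group G] [MulAction G C] [MulAction G V]

/-- The data: equivalence relations E i, 0 ≤ i ≤ rank, and the quotient by the relation generated
by those with i > 0. -/
structure Sys (G C V : Type) [Group G] [MulAction G C] [MulAction G V] (t : AffType) (q : ℕ) where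
  ok : t.ok
  hq : 2 ≤ q
  /-- the panels -/
  E : ℕ → Eqv G C
  card : ∀ i, i ≤ t.rank → (E i).n = q + 1
  braid : ∀ i j, i ≤ t.rank → j ≤ t.rank → i ≠ j → ∀ F : C → ℂ,
      altF (heckeFn (E i).r) (heckeFn (E j).r) (t.M i j) F =
        altF (heckeFn (E j).r) (heckeFn (E i).r) (t.M i j) F
  /-- the quotient -/
  Λ : Lift G C V
  sub : ∀ i, 0 < i → i ≤ t.rank → ∀ c d, (E i).r c d → Λ.E.r c d
  gen : ∀ F : C → ℂ, (∀ i, 0 < i → i ≤ t.rank → ∀ c d, (E i).r c d → F c = F d) →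
    ∀ c d, Λ.E.r c d → F c = F d

variable {t : AffType} {q : ℕ} (S : Sys G C V t q)

/-- The word of Hecke operators. -/
noncomputable def Sys.word (L : List ℕ) (F : C → ℂ) : C → ℂ :=
  L.foldr (fun l F => heckeFn (S.E l).r F) F

/-- The spherical part of a word. -/
noncomputable def Sys.sph (L : List ℕ) (f : Bun G V → ℂ) (x : Bun G V) : ℂ :=
  1 / (S.Λ.E.n : ℂ) * ∑ c ∈ S.Λ.fib x.out, S.word L (fun c => f (cls G V (S.Λ.π c))) c

/-- Orthogonal to the functions that are constant along all panels. -/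
def Sys.Orth (f : Bun G V → ℂ) : Prop :=
  ∀ h : Bun G V → ℂ, IsL2 h → (∀ c d, (S.E 0).r c d →
    h (cls G V (S.Λ.π c)) = h (cls G V (S.Λ.π d))) →
    ∑' x, (mass x : ℂ) * (starRingEnd ℂ (h x) * f x) = 0

variable [hC : ∀ P : C, Finite (MulAction.stabilizer G P)]
  [hV : ∀ P : V, Finite (MulAction.stabilizer G P)]

/-- The projections. -/
noncomputable def Sys.R (i : ℕ) : L2 G C →L[ℂ] L2 G C := (S.E i).co

omit hV in
lemma Sys.tree : TreeSys S.R t.rank t.par (t.e q) (t.kap q) :=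
  treeSys t S.ok S.hq S.E S.card S.braid

omit hV in
lemma Sys.lf_word (L : List ℕ) (hL : ∀ l ∈ L, l ≤ t.rank) (u : L2 G C) :
    lf (hkW (q : ℝ) S.R L u : Bun G C → ℂ) = S.word L (lf u) := by
  induction L with
  | nil => rfl
  | cons l L ih =>
    have e1 : hkW (q : ℝ) S.R (l :: L) u = hk ((q : ℝ) : ℂ) (S.R l) (hkW (q : ℝ) S.R L u) := rfl
    have e2 : S.word (l :: L) (lf (u : Bun G C → ℂ)) =
      heckeFn (S.E l).r (S.word L (lf (u : Bun G C → ℂ))) := rfl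
    rw [e1, e2, ← ih fun l hl => hL l (List.mem_cons_of_mem _ hl)]
    exact (S.E l).lf_hk (S.card l (hL l List.mem_cons_self)) _

omit hV in
lemma Sys.inv_of_ker {v : L2 G C} (hv : ∀ i, 0 < i → i ≤ t.rank → S.R i v = 0) :
    ∀ c d, S.Λ.E.r c d → lf (v : Bun G C → ℂ) c = lf (v : Bun G C → ℂ) d := by
  apply S.gen
  intro i hi hin
  exact (S.E i).co_eq_zero.1 (hv i hi hin)

lemma Sys.lf_toL2 {f : Bun G V → ℂ} (hf : IsL2 f) :
    lf (S.Λ.toL2 hf : Bun G C → ℂ) = fun c => f (cls G V (S.Λ.π c)) := by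
  rw [S.Λ.coe_toL2]
  exact funext fun c => S.Λ.lf_up f c

lemma Sys.ker {f : Bun G V → ℂ} (hf : IsL2 f) (i : ℕ) (hi : 0 < i) (hin : i ≤ t.rank) :
    S.R i (S.Λ.toL2 hf) = 0 := by
  apply (S.E i).co_eq_zero.2
  intro c d hcd
  rw [S.lf_toL2 hf]
  show f _ = f _
  rw [(S.Λ.hE c d).1 (S.sub i hi hin c d hcd)]

lemma Sys.ort {f : Bun G V → ℂ} (hf : IsL2 f) (ho : S.Orth f) (v : L2 G C)
    (hv : ∀ i, i ≤ t.rank → S.R i v = 0) : ⟪v, S.Λ.toL2 hf⟫_ℂ = 0 := by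
  obtain ⟨h, hh, e⟩ := S.Λ.desc (v := v) (S.inv_of_ker fun i _ hin => hv i hin)
  rw [← S.Λ.toL2_eq hh e, S.Λ.inner_up hf hh, ho h hh, mul_zero]
  intro c d hcd
  have h1 := (S.E 0).co_eq_zero.1 (hv 0 (Nat.zero_le _)) c d hcd
  rw [← e, S.Λ.lf_up, S.Λ.lf_up] at h1
  exact h1

omit hV in
lemma Sys.pr_eq (y : L2 G C) : pr S.R {i | 0 < i ∧ i ≤ t.rank} y = S.Λ.E.op y := by
  apply Submodule.eq_starProjection_of_mem_of_inner_eq_zero
  · rintro i ⟨hi, hin⟩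
    apply (S.E i).co_eq_zero.2
    intro c d hcd
    have h1 := S.Λ.E.isPr.idem y
    rw [S.Λ.E.op_eq_self] at h1
    exact h1 c d (S.sub i hi hin c d hcd)
  · intro w hw
    have h1 : S.Λ.E.op w = w := by
      rw [S.Λ.E.op_eq_self]
      exact S.inv_of_ker fun i hi hin => hw i ⟨hi, hin⟩
    rw [← h1, ← S.Λ.E.isPr.sa, map_sub, S.Λ.E.isPr.idem, sub_self, inner_zero_left]

lemma Sys.inner_T {f : Bun G V → ℂ} (hf : IsL2 f) :
    (S.Λ.E.n : ℂ) * ∑' x, (mass x : ℂ) * (starRingEnd ℂ (f x) * S.sph [0] f x) =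
      ⟪S.Λ.toL2 hf, hk ((q : ℝ) : ℂ) (S.R 0) (S.Λ.toL2 hf)⟫_ℂ := by
  rw [S.Λ.inner_toL2 hf, ← tsum_mul_left]
  refine tsum_congr fun x => ?_
  have h1 : lf (hk ((q : ℝ) : ℂ) (S.R 0) (S.Λ.toL2 hf) : Bun G C → ℂ) =
      S.word [0] (fun c => f (cls G V (S.Λ.π c))) := by
    rw [← S.lf_toL2 hf]
    exact (S.E 0).lf_hk (S.card 0 (Nat.zero_le _)) _
  rw [h1]
  unfold Sys.sph
  have : (S.Λ.E.n : ℂ) ≠ 0 := by exact_mod_cast S.Λ.E.pos.ne'
  field_simp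

lemma inner_hk {H : Type*} [NormedAddCommGroup H] [InnerProductSpace ℂ H] {a : H →L[ℂ] H}
    (ha : IsPr a) (q : ℝ) (u : H) :
    (⟪u, hk (q : ℂ) a u⟫_ℂ).re = q * ‖u‖ ^ 2 - (q + 1) * ‖a u‖ ^ 2 := by
  rw [hk_apply, inner_sub_right, inner_smul_right, inner_smul_right, Complex.sub_re,
    Complex.re_ofReal_mul, Complex.re_ofReal_mul, re_self, re_symm, ← ha.norm_sq]

/-- The first gap and the rigidity of its end. -/
theorem Sys.main {f : Bun G V → ℂ} (hf : IsL2 f) (ho : S.Orth f) :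
    (∑' x, (mass x : ℂ) * (starRingEnd ℂ (f x) * S.sph [0] f x)).re ≤
      (q - (q + 1) * t.kap q 0) * nrm f ∧
    ((∑' x, (mass x : ℂ) * (starRingEnd ℂ (f x) * S.sph [0] f x)).re =
      (q - (q + 1) * t.kap q 0) * nrm f → ∀ L : List ℕ, (∀ l ∈ L, l ≤ t.rank) →
        ∀ x, S.sph L f x = (chi q t.rank t.par (t.e q) (t.kap q) L : ℂ) * f x) := by
  set u := S.Λ.toL2 hf with hu
  have hN : (0 : ℝ) < S.Λ.E.n := by exact_mod_cast S.Λ.E.pos
  have hnorm : ‖u‖ ^ 2 = S.Λ.E.n * nrm f := S.Λ.norm_toL2 hf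
  have hgap := S.tree.gap (S.ker hf) (fun v hv => S.ort hf ho v hv)
  have hT := congrArg Complex.re (S.inner_T hf)
  have hR0 : IsPr (S.R 0) := (S.E 0).co_isPr
  rw [inner_hk hR0, ← hu] at hT
  rw [← hu] at hgap
  set Φ := ∑' x, (mass x : ℂ) * (starRingEnd ℂ (f x) * S.sph [0] f x) with hΦ
  have hT2 : (S.Λ.E.n : ℝ) * Φ.re = q * ‖u‖ ^ 2 - (q + 1) * ‖S.R 0 u‖ ^ 2 := by
    rw [← hT]
    have : (S.Λ.E.n : ℂ) = ((S.Λ.E.n : ℝ) : ℂ) := by simp
    rw [this, Complex.re_ofReal_mul]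
  have hq1 : (0 : ℝ) < (q : ℝ) + 1 := by positivity
  constructor
  · have h1 : (S.Λ.E.n : ℝ) * Φ.re ≤ (S.Λ.E.n : ℝ) * ((q - (q + 1) * t.kap q 0) * nrm f) := by
      rw [hT2, show (S.Λ.E.n : ℝ) * ((q - (q + 1) * t.kap q 0) * nrm f) =
        (q - (q + 1) * t.kap q 0) * ((S.Λ.E.n : ℝ) * nrm f) by ring, ← hnorm]
      nlinarith
    exact le_of_mul_le_mul_left h1 hN
  · intro he L hL x
    have h1 : t.kap q 0 * ‖u‖ ^ 2 = ‖S.R 0 u‖ ^ 2 := by
      have h2 : (S.Λ.E.n : ℝ) * Φ.re = (q - (q + 1) * t.kap q 0) * ((S.Λ.E.n : ℝ) * nrm f) := by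
        rw [he]
        ring
      rw [hT2, ← hnorm] at h2
      have h3 : (q + 1) * (t.kap q 0 * ‖u‖ ^ 2) = (q + 1) * ‖S.R 0 u‖ ^ 2 := by linarith
      exact mul_left_cancel₀ hq1.ne' h3
    have hE : Extremal S.R t.rank (t.kap q) u :=
      ⟨S.ker hf, fun v hv => S.ort hf ho v hv, h1⟩
    have h4 := S.tree.rigid hE (q : ℝ) L hL
    rw [S.pr_eq] at h4
    obtain ⟨c, hc⟩ := S.Λ.surj x.out
    have h5 : lf (S.Λ.E.op (hkW (q : ℝ) S.R L u) : Bun G C → ℂ) c =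
        (chi q t.rank t.par (t.e q) (t.kap q) L : ℂ) * f x := by
      rw [h4, lf_smul, hu, S.lf_toL2 hf]
      show _ * f (cls G V (S.Λ.π c)) = _
      rw [hc, cls_out]
    rw [← h5, S.Λ.E.lf_op, S.lf_word L hL, hu, S.lf_toL2 hf]
    unfold Sys.sph Eqv.av
    rw [← hc, S.Λ.fib_eq]

end Pool.Agent.Helper45.FG
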