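import Pool.Agent.Helper45.FG.Alg

/-! The angle of a pair of projections satisfying a braid relation. -/

open scoped InnerProductSpace

namespace Pool.Agent.Helper45.FG

variable {H : Type*} [NormedAddCommGroup H] [InnerProductSpace ℂ H]

/-- An orthogonal projection. -/
structure IsPr (a : H →L[ℂ] H) : Prop where
  sa : ∀ x y, ⟪a x, y⟫_ℂ = ⟪x, a y⟫_ℂ
  idem : ∀ x, a (a x) = a x

lemma mulx (f g : H →L[ℂ] H) (x : H) : (f * g) x = f (g x) := rfl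

lemma IsPr.mul_self {a : H →L[ℂ] H} (h : IsPr a) : a * a = a :=
  ContinuousLinearMap.ext fun x => h.idem x

lemma IsPr.norm_sq {a : H →L[ℂ] H} (h : IsPr a) (x : H) : ‖a x‖ ^ 2 = (⟪a x, x⟫_ℂ).re := by
  rw [← h.idem x, h.sa, h.idem, ← inner_self_eq_norm_sq (𝕜 := ℂ)]
  rfl

lemma nsq_sub_smul (x y : H) (t : ℝ) :
    ‖x - (t : ℂ) • y‖ ^ 2 = ‖x‖ ^ 2 - 2 * t * (⟪x, y⟫_ℂ).re + t ^ 2 * ‖y‖ ^ 2 := by
  rw [@norm_sub_sq ℂ, inner_smul_right, norm_smul]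
  have : RCLike.re ((t : ℂ) * ⟪x, y⟫_ℂ) = t * (⟪x, y⟫_ℂ).re := by simp
  rw [this, Complex.norm_real, mul_pow, Real.norm_eq_abs, sq_abs]
  ring

section

variable {c : H →L[ℂ] H} (hc : ∀ x y, ⟪c x, y⟫_ℂ = ⟪x, c y⟫_ℂ) {u : H} {X : ℝ} (hX : 0 < X)

include hc hX in
lemma sos4 (h : c (c u) = ((2 * X : ℝ) : ℂ) • c u) :
    (⟪c u, u⟫_ℂ).re ≤ 2 * X * ‖u‖ ^ 2 ∧
      ((⟪c u, u⟫_ℂ).re = 2 * X * ‖u‖ ^ 2 → c u = ((2 * X : ℝ) : ℂ) • u) := by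
  have h2 : ‖c u‖ ^ 2 = 2 * X * (⟪c u, u⟫_ℂ).re := by
    rw [← inner_self_eq_norm_sq (𝕜 := ℂ), hc, h, inner_smul_right, ← hc]
    simp
  have h3 := nsq_sub_smul (c u) u (2 * X)
  rw [h2] at h3
  have h4 : 0 ≤ ‖c u - ((2 * X : ℝ) : ℂ) • u‖ ^ 2 := by positivity
  constructor
  · rw [h3] at h4
    nlinarith
  · intro h5
    rw [h5] at h3
    have h6 : ‖c u - ((2 * X : ℝ) : ℂ) • u‖ ^ 2 = 0 := by rw [h3]; ring
    exact sub_eq_zero.1 (norm_eq_zero.1 (pow_eq_zero_iff (two_ne_zero)|>.1 h6))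

include hc hX in
lemma sos6 (h : c (c (c u)) = ((4 * X : ℝ) : ℂ) • c (c u) - ((3 * X ^ 2 : ℝ) : ℂ) • c u) :
    (⟪c u, u⟫_ℂ).re ≤ 3 * X * ‖u‖ ^ 2 ∧
      ((⟪c u, u⟫_ℂ).re = 3 * X * ‖u‖ ^ 2 → c u = ((3 * X : ℝ) : ℂ) • u) := by
  set a1 := (⟪c u, u⟫_ℂ).re with ha1
  set a2 := ‖c u‖ ^ 2 with ha2
  have e2 : (⟪c (c u), u⟫_ℂ).re = a2 := by
    rw [hc, ha2, ← inner_self_eq_norm_sq (𝕜 := ℂ)]
    rfl
  have e3 : (⟪c (c u), c u⟫_ℂ).re = 4 * X * a2 - 3 * X ^ 2 * a1 := by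
    rw [← hc, h, inner_sub_left, inner_smul_left, inner_smul_left, Complex.sub_re]
    rw [Complex.conj_ofReal, Complex.conj_ofReal, Complex.re_ofReal_mul, Complex.re_ofReal_mul, e2]
  have e4 : ‖c (c u)‖ ^ 2 = 4 * X * (4 * X * a2 - 3 * X ^ 2 * a1) - 3 * X ^ 2 * a2 := by
    rw [← inner_self_eq_norm_sq (𝕜 := ℂ)]
    have : ⟪c (c u), c (c u)⟫_ℂ = ⟪c (c (c u)), c u⟫_ℂ := (hc _ _).symm
    rw [this, h, inner_sub_left, inner_smul_left, inner_smul_left, RCLike.re_eq_complex_re]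
    rw [Complex.sub_re, Complex.conj_ofReal, Complex.conj_ofReal, Complex.re_ofReal_mul,
      Complex.re_ofReal_mul, e3]
    congr 2
    rw [ha2, ← inner_self_eq_norm_sq (𝕜 := ℂ)]
    rfl
  have h3 := nsq_sub_smul (c u) u (3 * X)
  have h4 := nsq_sub_smul (c (c u)) (c u) (3 * X)
  rw [e3, e4] at h4
  have p3 : 0 ≤ ‖c u - ((3 * X : ℝ) : ℂ) • u‖ ^ 2 := by positivity
  have p4 : 0 ≤ ‖c (c u) - ((3 * X : ℝ) : ℂ) • c u‖ ^ 2 := by positivity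
  have key : 3 * X * ‖u‖ ^ 2 - a1 = ‖c u - ((3 * X : ℝ) : ℂ) • u‖ ^ 2 / (3 * X) +
      ‖c (c u) - ((3 * X : ℝ) : ℂ) • c u‖ ^ 2 / (6 * X ^ 3) := by
    rw [h3, h4]
    field_simp
    ring
  have q3 : 0 ≤ ‖c u - ((3 * X : ℝ) : ℂ) • u‖ ^ 2 / (3 * X) := by positivity
  have q4 : 0 ≤ ‖c (c u) - ((3 * X : ℝ) : ℂ) • c u‖ ^ 2 / (6 * X ^ 3) := by positivity
  constructor
  · linarith
  · intro h5
    have h6 : ‖c u - ((3 * X : ℝ) : ℂ) • u‖ ^ 2 / (3 * X) = 0 := by linarith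
    rw [div_eq_zero_iff] at h6
    rcases h6 with h6 | h6
    · exact sub_eq_zero.1 (norm_eq_zero.1 (pow_eq_zero_iff (two_ne_zero)|>.1 h6))
    · exfalso; linarith

end

/-- The multiplicity of an edge: 1, 2, 3 for m = 3, 4, 6. -/
def edge : ℕ → ℕ
  | 3 => 1
  | 4 => 2
  | 6 => 3
  | _ => 0

lemma pair_bound {a b : H →L[ℂ] H} (ha : IsPr a) (hb : IsPr b) {q : ℝ} (hq : 0 < q) {m : ℕ}
    (hm : m = 3 ∨ m = 4 ∨ m = 6)
    (h : alt (hk (q : ℂ) a) (hk (q : ℂ) b) m = alt (hk (q : ℂ) b) (hk (q : ℂ) a) m) {v : H}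
    (hv : a v = 0) :
    ‖a (b v)‖ ^ 2 ≤ edge m * (q / (q + 1) ^ 2) * ‖b v‖ ^ 2 ∧
      (‖a (b v)‖ ^ 2 = edge m * (q / (q + 1) ^ 2) * ‖b v‖ ^ 2 →
        b (a (b v)) = ((edge m * (q / (q + 1) ^ 2) : ℝ) : ℂ) • b v) := by
  have hs : (q : ℂ) + 1 ≠ 0 := by
    have : ((q + 1 : ℝ) : ℂ) ≠ 0 := by exact_mod_cast (by linarith : q + 1 ≠ 0)
    simpa using this
  set X : ℝ := q / (q + 1) ^ 2 with hXd
  have hX : 0 < X := by positivity
  have hXc : (q : ℂ) / ((q : ℂ) + 1) ^ 2 = (X : ℂ) := by rw [hXd]; push_cast; rfl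
  set c : H →L[ℂ] H := b * a * b with hcd
  have hcx : ∀ x, c x = b (a (b x)) := fun x => rfl
  have hc : ∀ x y, ⟪c x, y⟫_ℂ = ⟪x, c y⟫_ℂ := by
    intro x y
    rw [hcx, hcx, hb.sa, ha.sa, hb.sa]
  set u := b v with hu
  have hbu : b u = u := hb.idem v
  have hcu : c u = b (a u) := by rw [hcx, hbu]
  have hnorm : ‖a u‖ ^ 2 = (⟪c u, u⟫_ℂ).re := by
    rw [ha.norm_sq, hcu, hb.sa, hbu]
  rw [hnorm]
  rcases hm with rfl | rfl | rfl
  · have h3 := rel3 (q := (q : ℂ)) ha.mul_self hb.mul_self hs (by simpa [alt] using h)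
    have h4 := congrArg (fun f : H →L[ℂ] H => f v) h3
    simp only [_root_.sub_apply, mulx,
      _root_.smul_apply, hv, map_zero, zero_sub, hXc, smul_neg, neg_inj] at h4
    have h5 : c u = (X : ℂ) • u := by rw [hcu]; exact h4
    have e1 : ((edge 3 : ℕ) : ℝ) = 1 := by simp [edge]
    rw [e1, one_mul, h5]
    constructor
    · rw [inner_smul_left, Complex.conj_ofReal, Complex.re_ofReal_mul]
      refine le_of_eq ?_
      congr 1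
      rw [← inner_self_eq_norm_sq (𝕜 := ℂ)]
      rfl
    · intro _
      rw [← h5, hcu]
  · have h3 := rel4 (q := (q : ℂ)) ha.mul_self hb.mul_self hs (by simpa [alt, mul_assoc] using h)
    have h4 := congrArg (fun f : H →L[ℂ] H => b (f v)) h3
    simp only [_root_.sub_apply, mulx,
      _root_.smul_apply, hv, map_zero, sub_zero, hXc, map_smul] at h4
    have h5 : c (c u) = ((2 * X : ℝ) : ℂ) • c u := by
      rw [hcx (c u), hcu, hb.idem]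
      push_cast
      exact h4
    have e1 : ((edge 4 : ℕ) : ℝ) = 2 := by simp [edge]
    rw [e1, ← hcu]
    exact sos4 hc hX h5
  · have h3 := rel6 (q := (q : ℂ)) ha.mul_self hb.mul_self hs (by simpa [alt, mul_assoc] using h)
    have h4 := congrArg (fun f : H →L[ℂ] H => b (f v)) h3
    simp only [_root_.sub_apply, mulx,
      _root_.smul_apply, hv, map_zero, sub_zero, hXc, map_smul, map_sub] at h4
    have h5 : c (c (c u)) = ((4 * X : ℝ) : ℂ) • c (c u) - ((3 * X ^ 2 : ℝ) : ℂ) • c u := by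
      rw [hcx (c (c u)), hcx (c u), hcu, hb.idem, hb.idem]
      push_cast
      exact h4
    have e1 : ((edge 6 : ℕ) : ℝ) = 3 := by simp [edge]
    rw [e1, ← hcu]
    exact sos6 hc hX h5

end Pool.Agent.Helper45.FG
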