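import Pool.Agent.Helper45.FG.Gap

/-! Projections onto the common kernels of families of projections. -/

open scoped InnerProductSpace

namespace Pool.Agent.Helper45.FG

variable {H : Type*} [NormedAddCommGroup H] [InnerProductSpace ℂ H] [CompleteSpace H]

/-- The common kernel of the operators R i, i in S. -/
def VS (R : ℕ → H →L[ℂ] H) (S : Set ℕ) : Submodule ℂ H where
  carrier := {v | ∀ i ∈ S, R i v = 0}
  add_mem' := by
    intro a b ha hb i hi
    rw [map_add, ha i hi, hb i hi, add_zero]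
  zero_mem' := by
    intro i _
    rw [map_zero]
  smul_mem' := by
    intro c a ha i hi
    rw [map_smul, ha i hi, smul_zero]

variable {R : ℕ → H →L[ℂ] H} {S S' : Set ℕ}

omit [CompleteSpace H] in
lemma mem_VS {v : H} : v ∈ VS R S ↔ ∀ i ∈ S, R i v = 0 := Iff.rfl

omit [CompleteSpace H] in
lemma VS_mono (h : S ⊆ S') {v : H} (hv : v ∈ VS R S') : v ∈ VS R S :=
  fun i hi => hv i (h hi)

omit [CompleteSpace H] in
lemma isClosed_VS : IsClosed (VS R S : Set H) := by
  have : (VS R S : Set H) = ⋂ i ∈ S, {v | R i v = 0} := by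
    ext v
    simp [mem_VS]
  rw [this]
  exact isClosed_biInter fun i _ => isClosed_eq (R i).continuous continuous_const

instance : (VS R S).HasOrthogonalProjection := by
  have : CompleteSpace (VS R S) := (isClosed_VS (R := R) (S := S)).completeSpace_coe
  infer_instance

variable (R S) in
/-- The projection onto the common kernel. -/
noncomputable def pr : H →L[ℂ] H := (VS R S).starProjection

lemma isPr_pr : IsPr (pr R S) where
  sa := Submodule.inner_starProjection_left_eq_right _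
  idem _ := Submodule.starProjection_eq_self_iff.2 (Submodule.starProjection_apply_mem _ _)

lemma pr_mem (v : H) : pr R S v ∈ VS R S := Submodule.starProjection_apply_mem _ _

lemma pr_eq {v : H} : pr R S v = v ↔ v ∈ VS R S := Submodule.starProjection_eq_self_iff

lemma R_pr {i : ℕ} (hi : i ∈ S) (v : H) : R i (pr R S v) = 0 := pr_mem v i hi

lemma R_sub {i : ℕ} (hi : i ∈ S) (v : H) : R i (v - pr R S v) = R i v := by
  rw [map_sub, R_pr hi, sub_zero]

lemma pr_ort {u : H} (hu : u ∈ VS R S) (v : H) : ⟪u, v - pr R S v⟫_ℂ = 0 := by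
  have h := Submodule.starProjection_inner_eq_zero (K := VS R S) v u hu
  rw [← inner_conj_symm]
  unfold pr
  rw [h, map_zero]

omit [CompleteSpace H] in
lemma IsPr.pyth {a : H →L[ℂ] H} (h : IsPr a) (v : H) : ‖v - a v‖ ^ 2 = ‖v‖ ^ 2 - ‖a v‖ ^ 2 := by
  have h1 := nsq_sub_smul v (a v) 1
  rw [Complex.ofReal_one, one_smul] at h1
  have h2 : (⟪v, a v⟫_ℂ).re = ‖a v‖ ^ 2 := by rw [re_symm, h.norm_sq]
  rw [h1, h2]
  ring

omit [CompleteSpace H] in
lemma IsPr.norm_le {a : H →L[ℂ] H} (h : IsPr a) (v : H) : ‖a v‖ ^ 2 ≤ ‖v‖ ^ 2 := by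
  have h1 := h.pyth v
  have h2 : 0 ≤ ‖v - a v‖ ^ 2 := by positivity
  linarith

omit [CompleteSpace H] in
lemma IsPr.eq_of_norm {a : H →L[ℂ] H} (h : IsPr a) {v : H} (hv : ‖a v‖ ^ 2 = ‖v‖ ^ 2) :
    a v = v := by
  have h1 := h.pyth v
  rw [hv, sub_self] at h1
  exact (sub_eq_zero.1 (norm_eq_zero.1 (pow_eq_zero_iff (two_ne_zero)|>.1 h1))).symm

/-- A self-adjoint operator that commutes with all R i commutes with the projection. -/
lemma pr_comm {B : H →L[ℂ] H} (hB : ∀ x y, ⟪B x, y⟫_ℂ = ⟪x, B y⟫_ℂ)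
    (h : ∀ i ∈ S, ∀ x, B (R i x) = R i (B x)) (x : H) : B (pr R S x) = pr R S (B x) := by
  have h1 : ∀ u ∈ VS R S, B u ∈ VS R S := by
    intro u hu i hi
    rw [← h i hi, hu i hi, map_zero]
  have h2 : ∀ u ∈ VS R S, ⟪u, B (x - pr R S x)⟫_ℂ = 0 := by
    intro u hu
    rw [← hB]
    exact pr_ort (h1 u hu) x
  refine (Submodule.eq_starProjection_of_mem_of_inner_eq_zero (h1 _ (pr_mem x)) ?_).symm
  intro w hw
  rw [← map_sub, ← inner_conj_symm, h2 w hw, map_zero]

lemma pr_pr (h : ∀ i ∈ S, ∀ j ∈ S', ∀ x, R i (R j x) = R j (R i x)) (hR : ∀ i ∈ S, IsPr (R i))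
    (x : H) : pr R S (pr R S' x) = pr R S' (pr R S x) := by
  have h1 : ∀ i ∈ S, ∀ x, R i (pr R S' x) = pr R S' (R i x) := by
    intro i hi x
    exact pr_comm (hR i hi).sa (fun j hj x => h i hi j hj x) x
  exact (pr_comm (B := pr R S') (isPr_pr.sa) (fun i hi x => (h1 i hi x).symm) x).symm

lemma pr_union (h : ∀ i ∈ S, ∀ j ∈ S', ∀ x, R i (R j x) = R j (R i x))
    (hR : ∀ i ∈ S, IsPr (R i)) (x : H) : pr R (S ∪ S') x = pr R S (pr R S' x) := by
  apply Submodule.eq_starProjection_of_mem_of_inner_eq_zero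
  · intro i hi
    rcases hi with hi | hi
    · exact R_pr hi _
    · rw [pr_pr h hR]
      exact R_pr hi _
  · intro w hw
    have hw1 : w ∈ VS R S := VS_mono Set.subset_union_left hw
    have hw2 : w ∈ VS R S' := VS_mono Set.subset_union_right hw
    rw [← inner_conj_symm]
    have : x - pr R S (pr R S' x) = (x - pr R S' x) + (pr R S' x - pr R S (pr R S' x)) := by abel
    rw [this, inner_add_right, pr_ort hw2, pr_ort hw1, add_zero, map_zero]

lemma sum_bound (A : Finset ℕ) (S : ℕ → Set ℕ) (hR : ∀ a ∈ A, ∀ i ∈ S a, IsPr (R i))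
    (h : ∀ a ∈ A, ∀ b ∈ A, a ≠ b → ∀ i ∈ S a, ∀ j ∈ S b, ∀ x, R i (R j x) = R j (R i x)) (w : H) :
    ‖w - pr R (⋃ a ∈ A, S a) w‖ ^ 2 ≤ ∑ a ∈ A, ‖w - pr R (S a) w‖ ^ 2 ∧
    (‖w - pr R (⋃ a ∈ A, S a) w‖ ^ 2 = ∑ a ∈ A, ‖w - pr R (S a) w‖ ^ 2 →
      ∀ a ∈ A, ∀ b ∈ A, a ≠ b → ∀ i ∈ S a, ∀ j ∈ S b, R i (R j w) = 0) := by
  classical
  induction A using Finset.induction_on with
  | empty =>
    have : pr R (⋃ a ∈ (∅ : Finset ℕ), S a) w = w := by
      rw [pr_eq]
      intro i hi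
      simp at hi
    rw [this]
    simp
  | insert c A hc ih =>
    have ih' := ih (fun a ha => hR a (Finset.mem_insert_of_mem ha))
      (fun a ha b hb => h a (Finset.mem_insert_of_mem ha) b (Finset.mem_insert_of_mem hb))
    set T := ⋃ a ∈ A, S a with hT
    have hU : (⋃ a ∈ insert c A, S a) = S c ∪ T := by
      rw [hT]
      exact Finset.set_biUnion_insert c A S
    have hcomm : ∀ i ∈ S c, ∀ j ∈ T, ∀ x, R i (R j x) = R j (R i x) := by
      intro i hi j hj x
      rw [hT] at hj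
      simp only [Set.mem_iUnion, exists_prop] at hj
      obtain ⟨a, ha, hj⟩ := hj
      exact h c (Finset.mem_insert_self _ _) a (Finset.mem_insert_of_mem ha)
        (fun e => hc (e ▸ ha)) i hi j hj x
    have hRc := hR c (Finset.mem_insert_self _ _)
    rw [hU, Finset.sum_insert hc]
    set z := w - pr R T w with hz
    have e1 : w - pr R (S c ∪ T) w = (w - pr R (S c) w) + pr R (S c) z := by
      rw [pr_union hcomm hRc, hz, map_sub]
      abel
    have e2 : ‖w - pr R (S c ∪ T) w‖ ^ 2 = ‖w - pr R (S c) w‖ ^ 2 + ‖pr R (S c) z‖ ^ 2 := by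
      rw [e1, @norm_add_sq ℂ]
      have : ⟪w - pr R (S c) w, pr R (S c) z⟫_ℂ = 0 := by
        rw [← inner_conj_symm, pr_ort (pr_mem z), map_zero]
      rw [this]
      simp
    have e3 : ‖pr R (S c) z‖ ^ 2 ≤ ‖z‖ ^ 2 := isPr_pr.norm_le z
    constructor
    · rw [e2]
      linarith [ih'.1]
    · intro he
      rw [e2] at he
      have e4 : ‖z‖ ^ 2 = ∑ a ∈ A, ‖w - pr R (S a) w‖ ^ 2 := by linarith [ih'.1]
      have e5 : ‖pr R (S c) z‖ ^ 2 = ‖z‖ ^ 2 := by linarith [ih'.1]
      have e6 := isPr_pr.eq_of_norm e5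
      have key : ∀ a ∈ A, ∀ i ∈ S c, ∀ j ∈ S a, R i (R j w) = 0 := by
        intro a ha i hi j hj
        have hjT : j ∈ T := by
          rw [hT]
          simp only [Set.mem_iUnion, exists_prop]
          exact ⟨a, ha, hj⟩
        rw [← R_sub hjT, hcomm i hi j hjT, ← hz, ← e6, R_pr hi, map_zero]
      intro a ha b hb hab i hi j hj
      rcases Finset.mem_insert.1 ha with ha1 | ha1
      · rcases Finset.mem_insert.1 hb with hb1 | hb1
        · exact absurd (ha1.trans hb1.symm) hab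
        · exact key b hb1 i (ha1 ▸ hi) j hj
      · rcases Finset.mem_insert.1 hb with hb1 | hb1
        · have hiT : i ∈ T := by
            rw [hT]
            simp only [Set.mem_iUnion, exists_prop]
            exact ⟨a, ha1, hi⟩
          have hj' : j ∈ S c := hb1 ▸ hj
          rw [← hcomm j hj' i hiT]
          exact key a ha1 j hj' i hi
        · exact ih'.2 e4 a ha1 b hb1 hab i hi j hj

end Pool.Agent.Helper45.FG
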