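import Pool.Agent.Helper45.FG.Ind

/-! Rigidity: the vectors at the end of the gap. -/

open scoped InnerProductSpace

namespace Pool.Agent.Helper45.FG

variable {H : Type*} [NormedAddCommGroup H] [InnerProductSpace ℂ H] [CompleteSpace H]

variable {R : ℕ → H →L[ℂ] H} {n : ℕ} {par : ℕ → ℕ} {e κ : ℕ → ℝ}

/-- The vectors w_0 = R_0 f, w_i = R_i w_(par i). -/
noncomputable def wv (R : ℕ → H →L[ℂ] H) (par : ℕ → ℕ) (f : H) (i : ℕ) : H :=
  if _h : par i < i then R i (wv R par f (par i)) else R i f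
termination_by i

section

variable (T : TreeSys R n par e κ)

include T in
/-- The equality case at a vertex. -/
lemma TreeSys.eq_step {i : ℕ} (hi : i ≤ n) {v : H} (hv : v ∈ VS R (SD par n i))
    (he : κ i * ‖v - pr R (D par n i) v‖ ^ 2 = ‖R i v‖ ^ 2) :
    (∀ c ∈ kids par n i, κ c * ‖R i v - pr R (D par n c) (R i v)‖ ^ 2 = ‖R c (R i v)‖ ^ 2 ∧
      R i (R c (R i v)) = (e c : ℂ) • R i v) ∧
    (∀ a ∈ kids par n i, ∀ b ∈ kids par n i, a ≠ b → R a (R b (R i v)) = 0) ∧
    pr R (SD par n i) (R i v) = (κ i : ℂ) • (v - pr R (D par n i) v) := by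
  have ih : ∀ c ∈ kids par n i, ∀ w ∈ VS R (SD par n c),
      κ c * ‖w - pr R (D par n c) w‖ ^ 2 ≤ ‖R c w‖ ^ 2 :=
    fun c hc => T.claim c (mem_kids.1 hc).2.1
  set v' := v - pr R (D par n i) v with hv'
  have hRv : R i v' = R i v := R_sub (D_self hi) v
  have h1 := (gap_main (isPr_pr (R := R) (S := SD par n i)) (T.isPr i hi) (κ := κ i)
      (T.pr_SD_le hi ih) (pr_eq.2 (T.sub_mem hi hv)) (T.ort hi v)).2 (by rw [← hv', hRv, he])
  rw [← hv', hRv] at h1
  set w := R i v with hw
  have h2 : ‖pr R (SD par n i) w‖ ^ 2 = κ i * ‖w‖ ^ 2 := by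
    rw [h1, norm_smul, mul_pow, Complex.norm_real, Real.norm_eq_abs, sq_abs, ← he]
    ring
  have h3 : ‖w - pr R (SD par n i) w‖ ^ 2 = (1 - κ i) * ‖w‖ ^ 2 := by
    rw [isPr_pr.pyth, h2]
    ring
  obtain ⟨h4, -⟩ := T.sum_le hi ih hv
  rw [← hw] at h4
  obtain ⟨h5, h6⟩ := sum_bound (R := R) (kids par n i) (D par n)
    (fun a _ l hl => T.isPr l hl.1) T.kids_comm w
  have h7 : ∑ c ∈ kids par n i, e c / κ c * ‖w‖ ^ 2 = (1 - κ i) * ‖w‖ ^ 2 := by
    rw [← Finset.sum_mul]
    congr 1
    rw [T.κ_eq i hi]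
    ring
  have h8 := Finset.sum_le_sum h4
  have h9 : ‖w - pr R (SD par n i) w‖ ^ 2 ≤
      ∑ c ∈ kids par n i, ‖w - pr R (D par n c) w‖ ^ 2 := h5
  have h10 : ∑ c ∈ kids par n i, ‖w - pr R (D par n c) w‖ ^ 2 =
      ∑ c ∈ kids par n i, e c / κ c * ‖w‖ ^ 2 := by
    apply le_antisymm h8
    rw [h7, ← h3]
    exact h9
  refine ⟨?_, ?_, h1⟩
  · intro c hc
    have hc1 := mem_kids.1 hc
    have hκ := T.κ_pos c hc1.2.1
    have h11 := (Finset.sum_eq_sum_iff_of_le h4).1 h10 c hc
    have h12 : κ c * ‖w - pr R (D par n c) w‖ ^ 2 = e c * ‖w‖ ^ 2 := by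
      rw [h11]
      field_simp
    have h13 := ih c hc w (T.low hi hc hv)
    have h14 := T.pair c hc1.1 hc1.2.1 v (hv c (mem_SD.2 ⟨c, hc, D_self hc1.2.1⟩))
    rw [hc1.2.2, ← hw] at h14
    have h15 : ‖R c w‖ ^ 2 = e c * ‖w‖ ^ 2 := le_antisymm h14.1 (h12 ▸ h13)
    exact ⟨h12.trans h15.symm, h14.2 h15⟩
  · intro a ha b hb hab
    have h11 : ‖w - pr R (⋃ a ∈ kids par n i, D par n a) w‖ ^ 2 =
        ∑ c ∈ kids par n i, ‖w - pr R (D par n c) w‖ ^ 2 := by
      rw [h10, h7, ← h3]
      rfl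
    exact h6 h11 a ha b hb hab a (D_self (mem_kids.1 ha).2.1) b (D_self (mem_kids.1 hb).2.1)

omit [CompleteSpace H] in
lemma wv_zero (f : H) : wv R par f 0 = R 0 f := by
  rw [wv, dif_neg (Nat.not_lt_zero _)]

include T in
omit [CompleteSpace H] in
lemma TreeSys.wv_pos (f : H) {i : ℕ} (hi : 0 < i) :
    wv R par f i = R i (wv R par f (par i)) := by
  rw [wv, dif_pos (T.par_lt i hi)]

/-- The hypothesis at the root. -/
structure Extremal (R : ℕ → H →L[ℂ] H) (n : ℕ) (κ : ℕ → ℝ) (f : H) : Prop where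
  ker : ∀ i, 0 < i → i ≤ n → R i f = 0
  ort : ∀ u, (∀ i, i ≤ n → R i u = 0) → ⟪u, f⟫_ℂ = 0
  eq : κ 0 * ‖f‖ ^ 2 = ‖R 0 f‖ ^ 2

include T in
omit [CompleteSpace H] in
lemma TreeSys.down (f : H) {i c : ℕ} (hc : c ∈ kids par n i) :
    R c (wv R par f i) = wv R par f c := by
  rw [T.wv_pos f (mem_kids.1 hc).1, (mem_kids.1 hc).2.2]

variable {f : H} (E : Extremal R n κ f)

include T E

lemma TreeSys.root_data : f ∈ VS R (SD par n 0) ∧ pr R (D par n 0) f = 0 := by
  constructor
  · intro l hl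
    have h1 : l ∈ D par n 0 := by
      rw [D_eq T.par_lt (Nat.zero_le n)]
      exact Or.inr hl
    refine E.ker l ?_ h1.1
    rw [mem_SD] at hl
    obtain ⟨c, hc, hl⟩ := hl
    have := le_of_anc T.par_lt hl.2
    have := (mem_kids.1 hc).1
    omega
  · rw [← inner_self_eq_zero (𝕜 := ℂ), isPr_pr.sa, isPr_pr.idem, ← inner_conj_symm]
    rw [E.ort, map_zero]
    intro i hi
    exact R_pr (by rw [D_zero T.par_lt]; exact hi) f

/-- Every vertex is extremal. -/
lemma TreeSys.all_eq (i : ℕ) (hi : i ≤ n) : ∃ v, v ∈ VS R (SD par n i) ∧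
    κ i * ‖v - pr R (D par n i) v‖ ^ 2 = ‖R i v‖ ^ 2 ∧ R i v = wv R par f i := by
  induction i using Nat.strong_induction_on with
  | _ i ih =>
    rcases Nat.eq_zero_or_pos i with h | h
    · subst h
      obtain ⟨h1, h2⟩ := T.root_data E
      exact ⟨f, h1, by rw [h2, sub_zero, E.eq], (wv_zero f).symm⟩
    · obtain ⟨v, h1, h2, h3⟩ := ih (par i) (T.par_lt i h) ((T.par_lt i h).le.trans hi)
      have hc : i ∈ kids par n (par i) := mem_kids.2 ⟨h, hi, rfl⟩
      have h4 := ((T.eq_step ((T.par_lt i h).le.trans hi) h1 h2).1 i hc).1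
      rw [h3] at h4
      refine ⟨wv R par f (par i), ?_, h4, (T.wv_pos f h).symm⟩
      rw [← h3]
      exact T.low ((T.par_lt i h).le.trans hi) hc h1

lemma TreeSys.up {i c : ℕ} (hi : i ≤ n) (hc : c ∈ kids par n i) :
    R i (wv R par f c) = (e c : ℂ) • wv R par f i := by
  obtain ⟨v, h1, h2, h3⟩ := T.all_eq E i hi
  have h4 := ((T.eq_step hi h1 h2).1 c hc).2
  rw [h3] at h4
  rw [T.wv_pos f (mem_kids.1 hc).1, (mem_kids.1 hc).2.2, h4]

lemma TreeSys.sib {i a b : ℕ} (hi : i ≤ n) (ha : a ∈ kids par n i) (hb : b ∈ kids par n i)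
    (hab : a ≠ b) : R a (wv R par f b) = 0 := by
  obtain ⟨v, h1, h2, h3⟩ := T.all_eq E i hi
  have h4 := (T.eq_step hi h1 h2).2.1 a ha b hb hab
  rw [h3] at h4
  rw [T.wv_pos f (mem_kids.1 hb).1, (mem_kids.1 hb).2.2, h4]

lemma TreeSys.self {i : ℕ} (hi : i ≤ n) : R i (wv R par f i) = wv R par f i := by
  obtain ⟨v, h1, h2, h3⟩ := T.all_eq E i hi
  rw [← h3, (T.isPr i hi).idem]

lemma TreeSys.far (i : ℕ) (hi : i ≤ n) : ∀ l, l ≤ n → l ≠ i → ¬ Adj par l i →
    R l (wv R par f i) = 0 := by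
  induction i using Nat.strong_induction_on with
  | _ i ih =>
    intro l hl hli hadj
    rcases Nat.eq_zero_or_pos i with h | h
    · subst h
      rw [wv_zero, T.comm l 0 hl hi hli hadj, E.ker l (by omega) hl, map_zero]
    · have hpi := T.par_lt i h
      have hpn : par i ≤ n := hpi.le.trans hi
      have hik : i ∈ kids par n (par i) := mem_kids.2 ⟨h, hi, rfl⟩
      rw [T.wv_pos f h, T.comm l i hl hi hli hadj]
      by_cases hlp : l = par i
      · exact absurd (Or.inr ⟨h, hlp.symm⟩) hadj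
      by_cases ha : Adj par l (par i)
      · rcases ha with ha | ha
        · have hlk : l ∈ kids par n (par i) := mem_kids.2 ⟨ha.1, hl, ha.2⟩
          rw [T.down f hlk]
          exact T.sib E hpn hik hlk (Ne.symm hli)
        · have hpk : par i ∈ kids par n l := mem_kids.2 ⟨ha.1, hpn, ha.2⟩
          rw [T.up E hl hpk, map_smul]
          have hlt : l < par i := by
            have := T.par_lt (par i) ha.1
            rw [ha.2] at this
            exact this
          rw [ih l (by omega) hl i hi (by omega), smul_zero]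
          rintro (h1 | h1)
          · exact hlp h1.2.symm
          · have := T.par_lt l h1.1
            rw [h1.2] at this
            omega
      · rw [ih (par i) hpi hpn l hl hlp ha, map_zero]

end

/-! ### The formal module -/

/-- The coefficient of w_l in R_l applied to the combination with coefficients x. -/
noncomputable def coef (n : ℕ) (par : ℕ → ℕ) (e : ℕ → ℝ) (l : ℕ) (x : ℕ → ℝ) : ℝ :=
  x l + (if l = 0 then 0 else x (par l)) + ∑ c ∈ kids par n l, e c * x c

/-- The combination with coefficients x. -/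
noncomputable def combo (R : ℕ → H →L[ℂ] H) (n : ℕ) (par : ℕ → ℕ) (f : H) (x : ℕ → ℝ) : H :=
  ∑ i ∈ Finset.range (n + 1), (x i : ℂ) • wv R par f i

variable (T : TreeSys R n par e κ) {f : H} (E : Extremal R n κ f)

include T E in
lemma TreeSys.R_combo (x : ℕ → ℝ) {l : ℕ} (hl : l ≤ n) :
    R l (combo R n par f x) = (coef n par e l x : ℂ) • wv R par f l := by
  classical
  unfold combo
  rw [map_sum]
  have h1 : ∀ i ∈ Finset.range (n + 1), R l ((x i : ℂ) • wv R par f i) =
      (((if i = l then x i else 0) + (if l ≠ 0 ∧ i = par l then x i else 0) +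
        (if i ∈ kids par n l then e i * x i else 0) : ℝ) : ℂ) • wv R par f l := by
    intro i hi
    rw [Finset.mem_range] at hi
    have hin : i ≤ n := by omega
    rw [map_smul]
    by_cases h1 : i = l
    · subst h1
      have h2 : ¬ (i ≠ 0 ∧ i = par i) := by
        rintro ⟨h2, h3⟩
        have := T.par_lt i (Nat.pos_of_ne_zero h2)
        omega
      have h3 : i ∉ kids par n i := by
        intro h3
        rw [mem_kids] at h3
        have := T.par_lt i h3.1
        omega
      rw [if_pos rfl, if_neg h2, if_neg h3, add_zero, add_zero, T.self E hin]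
    · by_cases h2 : l ≠ 0 ∧ i = par l
      · have hlk : l ∈ kids par n i := mem_kids.2 ⟨Nat.pos_of_ne_zero h2.1, hl, h2.2.symm⟩
        have h3 : i ∉ kids par n l := by
          intro h3
          rw [mem_kids] at h3
          have := T.par_lt i h3.1
          have := T.par_lt l (Nat.pos_of_ne_zero h2.1)
          omega
        rw [if_neg h1, if_pos h2, if_neg h3, zero_add, add_zero, T.down f hlk]
      · by_cases h3 : i ∈ kids par n l
        · rw [if_neg h1, if_neg h2, if_pos h3, zero_add, zero_add, T.up E hl h3, smul_smul]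
          congr 1
          push_cast
          ring
        · rw [if_neg h1, if_neg h2, if_neg h3, T.far E i hin l hl (Ne.symm h1)]
          · simp
          · rintro (h4 | h4)
            · exact h2 ⟨by have := h4.1; omega, h4.2.symm⟩
            · exact h3 (mem_kids.2 ⟨h4.1, hin, h4.2⟩)
  rw [Finset.sum_congr rfl h1, ← Finset.sum_smul]
  congr 1
  rw [← Complex.ofReal_sum]
  congr 1
  rw [Finset.sum_add_distrib, Finset.sum_add_distrib]
  unfold coef
  congr 1
  · congr 1
    · rw [Finset.sum_ite_eq' (Finset.range (n + 1)) l x, if_pos (by rw [Finset.mem_range]; omega)]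
    · by_cases h0 : l = 0
      · simp [h0]
      · rw [if_neg h0]
        have hpl := T.par_lt l (Nat.pos_of_ne_zero h0)
        simp only [ne_eq, h0, not_false_eq_true, true_and]
        rw [Finset.sum_ite_eq' (Finset.range (n + 1)) (par l) x,
          if_pos (by rw [Finset.mem_range]; omega)]
  · rw [← Finset.sum_filter]
    refine Finset.sum_congr ?_ fun _ _ => rfl
    ext c
    rw [Finset.mem_filter, Finset.mem_range, mem_kids]
    constructor
    · exact fun h => h.2
    · exact fun h => ⟨by omega, h⟩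

end Pool.Agent.Helper45.FG
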