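import Pool.Agent.Helper45.FG.Kap3

/-! The gap is attained: the module dual to the reflection representation. -/

open scoped InnerProductSpace

namespace Pool.Agent.Helper45.FG

section alg

variable {A : Type*} [Ring A] [Algebra ℂ A] {a b : A} {q x : ℂ}

lemma braid2 (h1 : a * b = 0) (h2 : b * a = 0) : hk q a * hk q b = hk q b * hk q a := by
  rw [hk_mul, hk_mul, h1, h2, add_comm b a]

lemma braid3 (ha : a * a = a) (hb : b * b = b) (h1 : a * (b * a) = x • a)
    (h2 : b * (a * b) = x • b) (hx : (q + 1) ^ 2 * x = q) :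
    hk q a * (hk q b * hk q a) = hk q b * (hk q a * hk q b) := by
  have e : hk q a * (hk q b * hk q a) - hk q b * (hk q a * hk q b) =
      (q * (q + 1)) • (a - b) - ((q + 1) ^ 3) • (a * (b * a) - b * (a * b)) := by
    rw [hk_mul, hk_mul]
    unfold hk
    simp only [sub_mul, mul_sub, mul_add, Algebra.algebraMap_eq_smul_one, smul_mul_assoc,
      mul_smul_comm, one_mul, mul_one, smul_add, ha, hb]
    module
  rw [← sub_eq_zero, e, h1, h2, ← smul_sub, smul_smul, ← sub_smul]
  have : q * (q + 1) - (q + 1) ^ 3 * x = 0 := by linear_combination (-(q + 1)) * hx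
  rw [this, zero_smul]

lemma braid4 (ha : a * a = a) (hb : b * b = b) (h1 : a * (b * a) = x • a)
    (h2 : b * (a * b) = x • b) (hx : (q + 1) ^ 2 * x = 2 * q) :
    hk q a * hk q b * (hk q a * hk q b) = hk q b * hk q a * (hk q b * hk q a) := by
  have e : hk q a * hk q b * (hk q a * hk q b) - hk q b * hk q a * (hk q b * hk q a) =
      ((q + 1) ^ 4) • (a * (b * (a * b)) - b * (a * (b * a))) -
      (2 * q * (q + 1) ^ 2) • (a * b - b * a) := by
    rw [hk_sq ha hb, hk_sq hb ha]
    module
  rw [← sub_eq_zero, e, h1, h2, mul_smul_comm, mul_smul_comm, ← smul_sub, smul_smul, ← sub_smul]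
  have : (q + 1) ^ 4 * x - 2 * q * (q + 1) ^ 2 = 0 := by linear_combination ((q + 1) ^ 2) * hx
  rw [this, zero_smul]

lemma braid6 (ha : a * a = a) (hb : b * b = b) (h1 : a * (b * a) = x • a)
    (h2 : b * (a * b) = x • b) (hx : (q + 1) ^ 2 * x = 3 * q) :
    hk q a * hk q b * (hk q a * hk q b) * (hk q a * hk q b) =
      hk q b * hk q a * (hk q b * hk q a) * (hk q b * hk q a) := by
  have ha' : ∀ x, a * (a * x) = a * x := fun x => by rw [← mul_assoc, ha]
  have hb' : ∀ x, b * (b * x) = b * x := fun x => by rw [← mul_assoc, hb]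
  have e : hk q a * hk q b * (hk q a * hk q b) * (hk q a * hk q b) -
        hk q b * hk q a * (hk q b * hk q a) * (hk q b * hk q a) =
      ((q + 1) ^ 6) • (a * (b * (a * (b * (a * b)))) - b * (a * (b * (a * (b * a))))) -
      (4 * q * (q + 1) ^ 4) • (a * (b * (a * b)) - b * (a * (b * a))) +
      (3 * q ^ 2 * (q + 1) ^ 2) • (a * b - b * a) := by
    rw [hk_sq ha hb, hk_sq hb ha, hk_mul, hk_mul]
    simp only [sub_mul, mul_sub, mul_add, add_mul, smul_mul_assoc, mul_smul_comm, one_mul, mul_one,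
      smul_add, mul_assoc, ha, hb, ha', hb']
    module
  rw [← sub_eq_zero, e, h1, h2]
  simp only [mul_smul_comm, h1, h2]
  have : (q + 1) ^ 6 * (x * x) - 4 * q * (q + 1) ^ 4 * x + 3 * q ^ 2 * (q + 1) ^ 2 = 0 := by
    linear_combination ((q + 1) ^ 4 * x - q * (q + 1) ^ 2) * hx
  have h3 : ((q + 1) ^ 6) • (x • x • (a * b) - x • x • (b * a)) -
      (4 * q * (q + 1) ^ 4) • (x • (a * b) - x • (b * a)) +
      (3 * q ^ 2 * (q + 1) ^ 2) • (a * b - b * a) =
      ((q + 1) ^ 6 * (x * x) - 4 * q * (q + 1) ^ 4 * x + 3 * q ^ 2 * (q + 1) ^ 2) •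
        (a * b - b * a) := by module
  rw [h3, this, zero_smul]

lemma braid_edge (ha : a * a = a) (hb : b * b = b) (h1 : a * (b * a) = x • a)
    (h2 : b * (a * b) = x • b) {m : ℕ} (hm : m = 3 ∨ m = 4 ∨ m = 6)
    (hx : (q + 1) ^ 2 * x = edge m * q) : alt (hk q a) (hk q b) m = alt (hk q b) (hk q a) m := by
  rcases hm with rfl | rfl | rfl
  · have := braid3 (q := q) ha hb h1 h2 (by simpa [edge] using hx)
    simpa [alt, mul_assoc] using this
  · have := braid4 (q := q) ha hb h1 h2 (by simpa [edge] using hx)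
    simpa [alt, mul_assoc] using this
  · have := braid6 (q := q) ha hb h1 h2 (by simpa [edge] using hx)
    simpa [alt, mul_assoc] using this

end alg

section rank1

variable {H : Type*} [NormedAddCommGroup H] [InnerProductSpace ℂ H]

/-- The projection to a unit vector. -/
noncomputable def pw (w : H) : H →L[ℂ] H := (innerSL ℂ w).smulRight w

lemma pw_apply (w v : H) : pw w v = ⟪w, v⟫_ℂ • w := by
  simp [pw]

lemma pw_isPr {w : H} (h : ⟪w, w⟫_ℂ = 1) : IsPr (pw w) where
  sa x y := by
    rw [pw_apply, pw_apply, inner_smul_left, inner_smul_right, inner_conj_symm]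
    ring
  idem x := by
    rw [pw_apply, pw_apply, inner_smul_right, h, mul_one]

lemma pw_three {u w : H} {r : ℂ} (h : ⟪u, w⟫_ℂ = r) (h' : ⟪w, u⟫_ℂ = r) :
    pw u * (pw w * pw u) = (r * r) • pw u := by
  ext v
  rw [mulx, mulx, pw_apply u v, map_smul, map_smul, pw_apply w u, map_smul, pw_apply u w, h, h']
  rw [_root_.smul_apply, pw_apply, smul_smul, smul_smul, smul_smul]
  congr 1
  ring

lemma pw_two {u w : H} (h : ⟪u, w⟫_ℂ = 0) : pw u * pw w = 0 := by
  ext v
  rw [mulx, pw_apply w v, map_smul, pw_apply u w, h, zero_smul, smul_zero]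
  rfl

end rank1

section coef

variable (t : AffType) (q : ℝ)

/-- The coordinates of the unit vectors. -/
noncomputable def gc (i j : ℕ) : ℝ :=
  (if j = i then √(t.kap q i) else 0) -
    (if j ∈ kids t.par t.rank i then √(t.e q j / t.kap q j) else 0)

variable {t q} (ht : t.ok) (hq : 1 < q)

include ht in
lemma not_kid_self (i : ℕ) : i ∉ kids t.par t.rank i := by
  intro h
  rw [mem_kids] at h
  have := t.par_lt ht i h.1
  omega

include ht hq in
lemma sum_gc_self {i : ℕ} (hi : i ≤ t.rank) :
    ∑ j ∈ Finset.range (t.rank + 1), gc t q i j * gc t q i j = 1 := by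
  have h1 : ∀ j ∈ Finset.range (t.rank + 1), gc t q i j * gc t q i j =
      (if j = i then t.kap q i else 0) +
        (if j ∈ kids t.par t.rank i then t.e q j / t.kap q j else 0) := by
    intro j _
    have hj : 0 ≤ t.e q j / t.kap q j := (div_pos (t.e_pos hq j) (t.kap_pos hq ht j)).le
    unfold gc
    by_cases h : j = i
    · subst h
      rw [if_pos rfl, if_neg (not_kid_self ht j), if_pos rfl, if_neg (not_kid_self ht j), sub_zero,
        Real.mul_self_sqrt (t.kap_pos hq ht j).le, add_zero]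
    · rw [if_neg h, if_neg h]
      split_ifs
      · rw [zero_sub, neg_mul_neg, Real.mul_self_sqrt hj, zero_add]
      · simp
  rw [Finset.sum_congr rfl h1, Finset.sum_add_distrib, Finset.sum_ite_eq' (Finset.range _) i,
    if_pos (Finset.mem_range.2 (by omega)), ← Finset.sum_filter]
  have h2 : (Finset.range (t.rank + 1)).filter (fun j => j ∈ kids t.par t.rank i) =
      kids t.par t.rank i := by
    ext j
    rw [Finset.mem_filter, Finset.mem_range]
    constructor
    · exact fun h => h.2
    · intro h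
      exact ⟨by have := (mem_kids.1 h).2.1; omega, h⟩
  rw [h2, kap_eq hq t ht i hi]
  ring

include ht hq in
lemma sum_gc_kid {i c : ℕ} (hc : c ∈ kids t.par t.rank i) :
    ∑ j ∈ Finset.range (t.rank + 1), gc t q i j * gc t q c j = -√(t.e q c) := by
  have hc' := mem_kids.1 hc
  have hlt := t.par_lt ht c hc'.1
  rw [hc'.2.2] at hlt
  rw [Finset.sum_eq_single c]
  · unfold gc
    rw [if_neg (by omega), if_pos hc, if_pos rfl, if_neg (not_kid_self ht c), sub_zero, zero_sub,
      neg_mul, ← Real.sqrt_mul (div_pos (t.e_pos hq c) (t.kap_pos hq ht c)).le,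
      div_mul_cancel₀ _ (t.kap_pos hq ht c).ne']
  · intro j hj hjc
    unfold gc
    rw [if_neg hjc]
    by_cases h : j ∈ kids t.par t.rank c
    · have h' := mem_kids.1 h
      have h2 := t.par_lt ht j h'.1
      rw [h'.2.2] at h2
      have h3 : j ∉ kids t.par t.rank i := by
        intro h4
        have := (mem_kids.1 h4).2.2
        omega
      rw [if_neg (show j ≠ i by omega), if_neg h3]
      simp
    · rw [if_neg h]
      simp
  · intro h
    exact absurd (Finset.mem_range.2 (by omega)) h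

lemma sum_gc_zero {i l : ℕ} (hil : i ≠ l) (h1 : i ∉ kids t.par t.rank l)
    (h2 : l ∉ kids t.par t.rank i) :
    ∑ j ∈ Finset.range (t.rank + 1), gc t q i j * gc t q l j = 0 := by
  refine Finset.sum_eq_zero fun j _ => ?_
  unfold gc
  by_cases hi : j = i
  · subst hi
    rw [if_neg hil, if_neg h1]
    simp
  · by_cases hl : j = l
    · subst hl
      rw [if_neg hi, if_neg h2]
      simp
    · rw [if_neg hi, if_neg hl]
      by_cases h3 : j ∈ kids t.par t.rank i
      · have h4 : j ∉ kids t.par t.rank l := by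
          intro h4
          exact hil ((mem_kids.1 h3).2.2.symm.trans (mem_kids.1 h4).2.2)
        rw [if_neg h4]
        simp
      · rw [if_neg h3]
        simp

variable (t q)

/-- The unit vectors. -/
noncomputable def wc (i : ℕ) : EuclideanSpace ℂ (Fin (t.rank + 1)) :=
  WithLp.toLp 2 fun j => ((gc t q i (j : ℕ) : ℝ) : ℂ)

lemma inner_wc (i l : ℕ) : ⟪wc t q i, wc t q l⟫_ℂ =
    ((∑ j ∈ Finset.range (t.rank + 1), gc t q i j * gc t q l j : ℝ) : ℂ) := by
  rw [PiLp.inner_apply, Finset.sum_range, Complex.ofReal_sum]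
  refine Finset.sum_congr rfl fun j _ => ?_
  simp only [wc]
  rw [RCLike.inner_apply, Complex.conj_ofReal, Complex.ofReal_mul]
  ring

end coef

/-- There are projections on a finite-dimensional Hilbert space that satisfy the braid relations
and have an extremal vector. -/
theorem sharp (t : AffType) (ht : t.ok) (q : ℝ) (hq : 1 < q) :
    ∃ (R : ℕ → EuclideanSpace ℂ (Fin (t.rank + 1)) →L[ℂ] EuclideanSpace ℂ (Fin (t.rank + 1)))
      (f : EuclideanSpace ℂ (Fin (t.rank + 1))), f ≠ 0 ∧ (∀ i, i ≤ t.rank → IsPr (R i)) ∧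
      (∀ i j, i ≤ t.rank → j ≤ t.rank → i ≠ j →
        alt (hk (q : ℂ) (R i)) (hk (q : ℂ) (R j)) (t.M i j) =
          alt (hk (q : ℂ) (R j)) (hk (q : ℂ) (R i)) (t.M i j)) ∧
      Extremal R t.rank (t.kap q) f := by
  have hq0 : 0 < q := by linarith
  have hs : (q : ℂ) + 1 ≠ 0 := by
    have : ((q + 1 : ℝ) : ℂ) ≠ 0 := by exact_mod_cast (by linarith : q + 1 ≠ 0)
    simpa using this
  have hw : ∀ i, i ≤ t.rank → ⟪wc t q i, wc t q i⟫_ℂ = 1 := by
    intro i hi
    rw [inner_wc, sum_gc_self ht hq hi, Complex.ofReal_one]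
  have hpr : ∀ i, i ≤ t.rank → IsPr (pw (wc t q i)) := fun i hi => pw_isPr (hw i hi)
  have hin : ∀ i l, ⟪wc t q i, wc t q l⟫_ℂ = ⟪wc t q l, wc t q i⟫_ℂ := by
    intro i l
    rw [inner_wc, inner_wc]
    congr 1
    exact Finset.sum_congr rfl fun j _ => mul_comm _ _
  have hedge : ∀ i c, c ∈ kids t.par t.rank i → i ≤ t.rank →
      alt (hk (q : ℂ) (pw (wc t q i))) (hk (q : ℂ) (pw (wc t q c))) (t.lab c) =
        alt (hk (q : ℂ) (pw (wc t q c))) (hk (q : ℂ) (pw (wc t q i))) (t.lab c) := by
    intro i c hc hi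
    have hc' := mem_kids.1 hc
    have h1 : ⟪wc t q i, wc t q c⟫_ℂ = ((-√(t.e q c) : ℝ) : ℂ) := by
      rw [inner_wc, sum_gc_kid ht hq hc]
    have h2 : ⟪wc t q c, wc t q i⟫_ℂ = ((-√(t.e q c) : ℝ) : ℂ) := by rw [hin, h1]
    have h3 : ((-√(t.e q c) : ℝ) : ℂ) * ((-√(t.e q c) : ℝ) : ℂ) = ((t.e q c : ℝ) : ℂ) := by
      rw [← Complex.ofReal_mul, neg_mul_neg, Real.mul_self_sqrt (t.e_pos hq c).le]
    refine braid_edge (x := ((t.e q c : ℝ) : ℂ)) (hpr i hi).mul_self (hpr c hc'.2.1).mul_self ?_ ?_
      (t.lab_mem c) ?_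
    · rw [pw_three h1 h2, h3]
    · rw [pw_three h2 h1, h3]
    · unfold AffType.e
      push_cast
      field_simp
  have hcomm : ∀ i l, i ≠ l → i ∉ kids t.par t.rank l → l ∉ kids t.par t.rank i →
      ⟪wc t q i, wc t q l⟫_ℂ = 0 := by
    intro i l hil h1 h2
    rw [inner_wc, sum_gc_zero hil h1 h2, Complex.ofReal_zero]
  refine ⟨fun i => pw (wc t q i), EuclideanSpace.single 0 1, ?_, hpr, ?_, ?_, ?_, ?_⟩
  · intro h
    have := congrArg (fun v : EuclideanSpace ℂ (Fin (t.rank + 1)) => v 0) h
    simp at this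
  · intro i j hi hj hij
    unfold AffType.M
    split_ifs with h1 h2
    · exact (hedge j i (mem_kids.2 ⟨h1.1, hi, h1.2⟩) hj).symm
    · exact hedge i j (mem_kids.2 ⟨h2.1, hj, h2.2⟩) hi
    · have h3 : i ∉ kids t.par t.rank j := fun h => h1 ⟨(mem_kids.1 h).1, (mem_kids.1 h).2.2⟩
      have h4 : j ∉ kids t.par t.rank i := fun h => h2 ⟨(mem_kids.1 h).1, (mem_kids.1 h).2.2⟩
      have := braid2 (q := (q : ℂ)) (pw_two (hcomm i j hij h3 h4))
        (pw_two (hcomm j i hij.symm h4 h3))
      simpa [alt] using this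
  · intro i h0 hi
    show pw (wc t q i) _ = 0
    rw [pw_apply]
    have : ⟪wc t q i, EuclideanSpace.single 0 1⟫_ℂ = 0 := by
      rw [EuclideanSpace.inner_single_right]
      simp only [wc, gc]
      rw [if_neg (by simp; omega), if_neg (by rw [mem_kids]; simp)]
      simp
    rw [this, zero_smul]
  · intro u hu
    have hu' : ∀ i, i ≤ t.rank → ⟪wc t q i, u⟫_ℂ = 0 := by
      intro i hi
      have h1 := hu i hi
      change pw (wc t q i) u = 0 at h1
      rw [pw_apply] at h1
      rcases smul_eq_zero.1 h1 with h2 | h2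
      · exact h2
      · exfalso
        have h3 := hw i hi
        rw [h2, inner_zero_left] at h3
        exact zero_ne_one h3
    have hz : ∀ k, ∀ j : Fin (t.rank + 1), t.rank - (j : ℕ) = k → u j = 0 := by
      intro k
      induction k using Nat.strong_induction_on with
      | _ k ih =>
        intro j hj
        have h1 := hu' j (by omega)
        rw [PiLp.inner_apply, Finset.sum_eq_single j] at h1
        · simp only [wc] at h1
          rw [RCLike.inner_apply, Complex.conj_ofReal, mul_eq_zero] at h1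
          rcases h1 with h1 | h1
          · exact h1
          · exfalso
            rw [Complex.ofReal_eq_zero] at h1
            unfold gc at h1
            rw [if_pos rfl, if_neg (not_kid_self ht _), sub_zero] at h1
            exact (Real.sqrt_pos.2 (t.kap_pos hq ht _)).ne' h1
        · intro l _ hl
          simp only [wc]
          rw [RCLike.inner_apply, Complex.conj_ofReal]
          by_cases h2 : (l : ℕ) ∈ kids t.par t.rank (j : ℕ)
          · have h3 := mem_kids.1 h2
            have h4 := t.par_lt ht l h3.1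
            rw [h3.2.2] at h4
            have h5 : u l = 0 := ih (t.rank - (l : ℕ)) (by omega) l rfl
            rw [h5, zero_mul]
          · unfold gc
            rw [if_neg (fun h => hl (Fin.ext h)), if_neg h2]
            simp
        · intro h
          exact absurd (Finset.mem_univ _) h
    have : u = 0 := by
      ext j
      exact hz _ j rfl
    rw [this, inner_zero_left]
  · show t.kap q 0 * _ = ‖pw (wc t q 0) _‖ ^ 2
    rw [(hpr 0 (Nat.zero_le _)).norm_sq, pw_apply, inner_smul_left, inner_conj_symm]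
    have h0 : ⟪wc t q 0, EuclideanSpace.single 0 1⟫_ℂ = ((√(t.kap q 0) : ℝ) : ℂ) := by
      rw [EuclideanSpace.inner_single_right]
      simp only [wc, gc]
      rw [if_pos (by simp), if_neg (by rw [mem_kids]; simp)]
      simp
    have h1 : ⟪EuclideanSpace.single 0 1, wc t q 0⟫_ℂ = ((√(t.kap q 0) : ℝ) : ℂ) := by
      rw [← inner_conj_symm, h0, Complex.conj_ofReal]
    rw [h0, h1, ← Complex.ofReal_mul, Complex.ofReal_re,
      Real.mul_self_sqrt (t.kap_pos hq ht 0).le]
    simp

end Pool.Agent.Helper45.FG
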