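import Pool.Agent.Helper45.FG.Proj

/-! Rooted trees: descendants. -/

namespace Pool.Agent.Helper45.FG

open Relation

/-- x is not the root and its parent is y. -/
def Par (par : ℕ → ℕ) (x y : ℕ) : Prop := 0 < x ∧ par x = y

/-- The vertices i and j are joined. -/
def Adj (par : ℕ → ℕ) (i j : ℕ) : Prop := Par par i j ∨ Par par j i

/-- The descendants of i among 0..n. -/
def D (par : ℕ → ℕ) (n i : ℕ) : Set ℕ := {l | l ≤ n ∧ ReflTransGen (Par par) l i}

/-- The children of i. -/
def kids (par : ℕ → ℕ) (n i : ℕ) : Finset ℕ := (Finset.Icc 1 n).filter fun c => par c = i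

variable {par : ℕ → ℕ} {n : ℕ}

lemma mem_kids {i c : ℕ} : c ∈ kids par n i ↔ 0 < c ∧ c ≤ n ∧ par c = i := by
  unfold kids
  rw [Finset.mem_filter, Finset.mem_Icc]
  constructor
  · rintro ⟨⟨a, b⟩, c⟩
    exact ⟨a, b, c⟩
  · rintro ⟨a, b, c⟩
    exact ⟨⟨a, b⟩, c⟩

/-- The strict descendants. -/
def SD (par : ℕ → ℕ) (n i : ℕ) : Set ℕ := ⋃ c ∈ kids par n i, D par n c

variable (hp : ∀ i, 0 < i → par i < i)

include hp in
lemma le_of_anc {l i : ℕ} (h : ReflTransGen (Par par) l i) : i ≤ l := by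
  induction h with
  | refl => exact le_rfl
  | tail _ h2 ih =>
    have := hp _ h2.1
    rw [h2.2] at this
    omega

include hp in
lemma anc_root (l : ℕ) : ReflTransGen (Par par) l 0 := by
  induction l using Nat.strong_induction_on with
  | _ l ih =>
    rcases Nat.eq_zero_or_pos l with h | h
    · rw [h]
    · exact ReflTransGen.head ⟨h, rfl⟩ (ih _ (hp l h))

include hp in
lemma D_zero : D par n 0 = {l | l ≤ n} := by
  ext l
  exact ⟨fun h => h.1, fun h => ⟨h, anc_root hp l⟩⟩

lemma D_self {i : ℕ} (hi : i ≤ n) : i ∈ D par n i := ⟨hi, ReflTransGen.refl⟩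

lemma mem_SD {i l : ℕ} : l ∈ SD par n i ↔ ∃ c ∈ kids par n i, l ∈ D par n c := by
  unfold SD
  simp

include hp in
lemma D_eq {i : ℕ} (hi : i ≤ n) : D par n i = {i} ∪ SD par n i := by
  ext l
  constructor
  · rintro ⟨h1, h2⟩
    rcases ReflTransGen.cases_tail_iff _ _ _ |>.1 h2 with h3 | ⟨c, h3, h4⟩
    · left
      exact h3.symm
    · right
      rw [mem_SD]
      exact ⟨c, mem_kids.2 ⟨h4.1, (le_of_anc hp h3).trans h1, h4.2⟩, h1, h3⟩
  · rintro (h | h)
    · rw [Set.mem_singleton_iff.1 h]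
      exact D_self hi
    · rw [mem_SD] at h
      obtain ⟨c, hc, h1, h2⟩ := h
      rw [mem_kids] at hc
      exact ⟨h1, h2.tail ⟨hc.1, hc.2.2⟩⟩

include hp in
lemma D_disj {i c c' l : ℕ} (hc : c ∈ kids par n i) (hc' : c' ∈ kids par n i)
    (hl : l ∈ D par n c) (hl' : l ∈ D par n c') : c = c' := by
  have hu : Relator.RightUnique (Par par) := by
    intro a b b' h h'
    exact h.2.symm.trans h'.2
  have aux : ∀ c c', c ∈ kids par n i → c' ∈ kids par n i → ReflTransGen (Par par) c c' →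
      c = c' := by
    intro c c' hc hc' h
    rcases ReflTransGen.cases_head_iff.1 h with h1 | ⟨d, h1, h2⟩
    · exact h1
    · exfalso
      rw [mem_kids] at hc hc'
      have h3 : d = i := h1.2.symm.trans hc.2.2
      rw [h3] at h2
      have h4 := le_of_anc hp h2
      have h5 := hp c' hc'.1
      rw [hc'.2.2] at h5
      omega
  rcases ReflTransGen.total_of_right_unique hu hl.2 hl'.2 with h | h
  · exact aux c c' hc hc' h
  · exact (aux c' c hc' hc h).symm

include hp in
lemma sib_adj {i c c' l l' : ℕ} (hc : c ∈ kids par n i) (hc' : c' ∈ kids par n i) (hne : c ≠ c')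
    (hl : l ∈ D par n c) (hl' : l' ∈ D par n c') : l ≠ l' ∧ ¬ Adj par l l' := by
  constructor
  · rintro rfl
    exact hne (D_disj hp hc hc' hl hl')
  · rintro (h | h)
    · exact hne (D_disj hp hc hc' hl ⟨hl.1, ReflTransGen.head h hl'.2⟩)
    · exact hne (D_disj hp hc hc' ⟨hl'.1, ReflTransGen.head h hl.2⟩ hl')

include hp in
lemma low_adj {i c l : ℕ} (hc : c ∈ kids par n i) (hl : l ∈ D par n c) (hlc : l ≠ c) :
    l ≠ i ∧ ¬ Adj par i l := by
  have h1 := le_of_anc hp hl.2
  have hc1 := mem_kids.1 hc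
  have h2 := hp c hc1.1
  rw [hc1.2.2] at h2
  constructor
  · omega
  · rintro (h | h)
    · have := hp i h.1
      rw [h.2] at this
      omega
    · have hlk : l ∈ kids par n i := mem_kids.2 ⟨h.1, hl.1, h.2⟩
      exact hlc (D_disj hp hlk hc (D_self hl.1) hl)

end Pool.Agent.Helper45.FG
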