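import Pool.Agent.Helper45.FG.Word

/-! The affine diagrams that are trees, as rooted trees with root 0. -/

namespace Pool.Agent.Helper45.FG

/-- The affine types whose diagram is a tree with finite labels. -/
inductive AffType
  | B (n : ℕ)
  | C (n : ℕ)
  | D (n : ℕ)
  | E6
  | E7
  | E8
  | F4
  | G2

/-- The rank. -/
def AffType.rank : AffType → ℕ
  | .B n => n
  | .C n => n
  | .D n => n
  | .E6 => 6
  | .E7 => 7
  | .E8 => 8
  | .F4 => 4
  | .G2 => 2

/-- B_n for n ≥ 3, C_n for n ≥ 2, D_n for n ≥ 4 and all exceptional types. -/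
def AffType.ok : AffType → Prop
  | .B n => 3 ≤ n
  | .C n => 2 ≤ n
  | .D n => 4 ≤ n
  | _ => True

/-- 0 - 1, 1 - 2, 1 - 3, 3 - 4, 4 - 5, ... -/
def fork (i : ℕ) : ℕ := if i = 3 then 1 else i - 1

/-- The parent of the vertex i of the affine diagram with root 0 (the affine vertex): the vertices
are 0..rank and the edges are i - par i for i > 0. -/
def AffType.par : AffType → ℕ → ℕ
  | .B _, i => fork i
  | .C _, i => i - 1
  | .D n, i => if i = n then fork (n - 1) else fork i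
  | .E6, i => if i = 5 then 2 else i - 1
  | .E7, i => if i = 5 then 3 else i - 1
  | .E8, i => if i = 7 then 5 else i - 1
  | .F4, i => i - 1
  | .G2, i => i - 1

/-- The label (order of the product of the two reflections) of the edge i - par i. -/
def AffType.lab : AffType → ℕ → ℕ
  | .B n, i => if i = n then 4 else 3
  | .C n, i => if i = 1 ∨ i = n then 4 else 3
  | .F4, i => if i = 3 then 4 else 3
  | .G2, i => if i = 2 then 6 else 3
  | _, _ => 3

/-- The Coxeter matrix of the affine diagram (off the diagonal). -/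
def AffType.M (t : AffType) (i j : ℕ) : ℕ :=
  if 0 < i ∧ t.par i = j then t.lab i else if 0 < j ∧ t.par j = i then t.lab j else 2

/-- The squared cosine of an edge. -/
noncomputable def AffType.e (t : AffType) (q : ℝ) (c : ℕ) : ℝ :=
  edge (t.lab c) * (q / (q + 1) ^ 2)

/-- The continued fraction of a chain ending with a double edge. -/
noncomputable def cc (q : ℝ) (k : ℕ) : ℝ :=
  if k = 0 then 1 else (q ^ (k + 1) + 1) / ((q + 1) * (q ^ k + 1))

/-- The constants of the subtrees. -/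
noncomputable def AffType.kap : AffType → ℝ → ℕ → ℝ
  | .B n, q, i => if i = 0 then (q - 1) * (q ^ (n - 1) - 1) / (q ^ n + 1)
      else if i = 1 then (q ^ n + 1) / ((q + 1) ^ 2 * (q ^ (n - 2) + 1))
      else if i = 2 then 1 else cc q (n - i)
  | .C n, q, i => if i = 0 then (q - 1) * (q ^ n - 1) / ((q + 1) * (q ^ n + 1)) else cc q (n - i)
  | .D n, q, i => if i = 0 then (q - 1) * (q ^ (n - 2) - 1) / (q ^ (n - 1) + 1)
      else if i = 1 then (q ^ (n - 1) + 1) / ((q + 1) ^ 2 * (q ^ (n - 3) + 1))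
      else if i = 2 then 1 else cc q (n - 1 - i)
  | .E6, q, i => if i = 0 then (q - 1) * (q ^ 3 - 1) / (q ^ 4 - q ^ 2 + 1)
      else if i = 1 then (q ^ 4 - q ^ 2 + 1) / ((q + 1) ^ 2 * (q ^ 2 - q + 1))
      else if i = 2 then (q ^ 2 - q + 1) / (q ^ 2 + q + 1)
      else if i = 3 ∨ i = 5 then (q ^ 2 + q + 1) / (q + 1) ^ 2 else 1
  | .E7, q, i => if i = 0 then (q ^ 4 - 1) * (q ^ 3 - 1) / ((q + 1) * (q ^ 6 - q ^ 3 + 1))
      else if i = 1 then (q ^ 6 - q ^ 3 + 1) / ((q + 1) * (q ^ 5 + 1))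
      else if i = 2 then (q ^ 5 + 1) / ((q + 1) * (q ^ 4 + q ^ 2 + 1))
      else if i = 3 then (q ^ 4 + q ^ 2 + 1) / ((q + 1) ^ 2 * (q ^ 2 + 1))
      else if i = 5 then (q ^ 2 + 1) / (q ^ 2 + q + 1)
      else if i = 6 then (q ^ 2 + q + 1) / (q + 1) ^ 2 else 1
  | .E8, q, i => if i = 0 then (q ^ 3 - 1) * (q ^ 5 - 1) / (q ^ 8 + q ^ 7 - q ^ 5 - q ^ 4 - q ^ 3 + q + 1)
      else if i = 1 then (q ^ 8 + q ^ 7 - q ^ 5 - q ^ 4 - q ^ 3 + q + 1) /
        ((q + 1) ^ 2 * (q ^ 6 - q ^ 3 + 1))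
      else if i = 2 then (q ^ 6 - q ^ 3 + 1) / (q ^ 6 + q ^ 5 - q ^ 3 + q + 1)
      else if i = 3 then (q ^ 6 + q ^ 5 - q ^ 3 + q + 1) / ((q + 1) ^ 2 * (q ^ 4 + 1))
      else if i = 4 then (q ^ 4 + 1) / (q ^ 4 + q ^ 3 + q ^ 2 + q + 1)
      else if i = 5 then (q ^ 4 + q ^ 3 + q ^ 2 + q + 1) / ((q + 1) ^ 2 * (q ^ 2 + q + 1))
      else if i = 7 then (q ^ 2 + q + 1) / (q + 1) ^ 2 else 1
  | .F4, q, i => if i = 0 then (q - 1) * (q ^ 3 - 1) / (q ^ 4 - q ^ 2 + 1)
      else if i = 1 then (q ^ 4 - q ^ 2 + 1) / ((q + 1) ^ 2 * (q ^ 2 - q + 1))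
      else if i = 2 then (q ^ 2 - q + 1) / (q ^ 2 + q + 1)
      else if i = 3 then (q ^ 2 + q + 1) / (q + 1) ^ 2 else 1
  | .G2, q, i => if i = 0 then (q - 1) ^ 2 / (q ^ 2 - q + 1)
      else if i = 1 then (q ^ 2 - q + 1) / (q + 1) ^ 2 else 1

lemma AffType.par_lt (t : AffType) (ht : t.ok) (i : ℕ) (hi : 0 < i) : t.par i < i := by
  cases t <;> simp only [AffType.par, AffType.ok, fork] at ht ⊢ <;> (try split_ifs) <;> omega

lemma AffType.lab_mem (t : AffType) (i : ℕ) : t.lab i = 3 ∨ t.lab i = 4 ∨ t.lab i = 6 := by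
  cases t <;> simp only [AffType.lab] <;> (try split_ifs) <;> simp

lemma edge_pos {m : ℕ} (h : m = 3 ∨ m = 4 ∨ m = 6) : (0 : ℝ) < edge m := by
  rcases h with rfl | rfl | rfl <;> simp [edge]

lemma AffType.e_pos (t : AffType) {q : ℝ} (hq : 1 < q) (c : ℕ) : 0 < t.e q c := by
  have := edge_pos (t.lab_mem c)
  unfold AffType.e
  positivity

end Pool.Agent.Helper45.FG
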