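import Pool.Agent.Helper45.FG.Grp

/-! Functions on the quotient lifted to the chambers. -/

open scoped ENNReal NNReal InnerProductSpace
open MeasureTheory

namespace Pool.Agent.Helper45.FG

open Pool.Agent.Helper80.AT

/-- An equivariant surjection whose fibres are the classes of an equivalence relation. -/
structure Lift (G C V : Type) [Group G] [MulAction G C] [MulAction G V] where
  /-- the map -/
  π : C → V
  equi : ∀ (g : G) c, π (g • c) = g • π c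
  surj : Function.Surjective π
  /-- the relation -/
  E : Eqv G C
  hE : ∀ c d, E.r c d ↔ π c = π d

variable {G C V : Type} [Group G] [MulAction G C] [MulAction G V] (Λ : Lift G C V)

lemma Lift.fin (v : V) : {c | Λ.π c = v}.Finite := by
  obtain ⟨c, rfl⟩ := Λ.surj v
  refine (Λ.E.fin c).subset ?_
  intro d hd
  exact (Λ.hE c d).2 (Eq.symm hd)

/-- The fibre. -/
noncomputable def Lift.fib (v : V) : Finset C := FG.fib Λ.π Λ.fin v

lemma Lift.mem_fib {v : V} {c : C} : c ∈ Λ.fib v ↔ Λ.π c = v := FG.mem_fib Λ.π Λ.fin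

lemma Lift.fib_eq (c : C) : Λ.fib (Λ.π c) = Λ.E.cl c := by
  ext d
  rw [Λ.mem_fib, Λ.E.mem_cl, Λ.hE]
  exact eq_comm

lemma Lift.card_fib (v : V) : (Λ.fib v).card = Λ.E.n := by
  obtain ⟨c, rfl⟩ := Λ.surj v
  rw [Λ.fib_eq, Λ.E.card_cl]

/-- The lift of a function. -/
noncomputable def Lift.up (f : Bun G V → ℂ) : Bun G C → ℂ := fun b => f (cls G V (Λ.π b.out))

lemma Lift.lf_up (f : Bun G V → ℂ) (c : C) : lf (Λ.up f) c = f (cls G V (Λ.π c)) := by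
  unfold lf Lift.up
  obtain ⟨g, hg⟩ := exists_out (G := G) c
  rw [hg, Λ.equi, cls_smul]

lemma lf_smul_inv (u : Bun G C → ℂ) (g : G) (c : C) : lf u (g • c) = lf u c := by
  unfold lf
  rw [cls_smul]

variable [hC : ∀ P : C, Finite (MulAction.stabilizer G P)]
  [hV : ∀ P : V, Finite (MulAction.stabilizer G P)]

lemma Lift.nsq_up (f : Bun G V → ℂ) : nsq (Λ.up f) = Λ.E.n * nsq f := by
  unfold nsq
  rw [mass_sum Λ.π Λ.equi Λ.fin, ← ENNReal.tsum_mul_left]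
  refine tsum_congr fun x => ?_
  have h1 : ∀ c ∈ FG.fib Λ.π Λ.fin x.out, ‖Λ.up f (cls G C c)‖ₑ ^ 2 = ‖f x‖ₑ ^ 2 := by
    intro c hc
    have h2 : Λ.up f (cls G C c) = f (cls G V (Λ.π c)) := Λ.lf_up f c
    rw [h2, (FG.mem_fib Λ.π Λ.fin).1 hc, cls_out]
  rw [Finset.sum_congr rfl h1, Finset.sum_const, show (FG.fib Λ.π Λ.fin x.out).card = Λ.E.n from
    Λ.card_fib _, nsmul_eq_mul]
  ring

lemma Lift.memLp {f : Bun G V → ℂ} (hf : IsL2 f) : MemLp (Λ.up f) 2 (bunMeasure G C) := by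
  rw [memLp_iff, Λ.nsq_up]
  exact ENNReal.mul_ne_top (by simp) ((isL2_iff f).1 hf)

/-- The lift in L2. -/
noncomputable def Lift.toL2 {f : Bun G V → ℂ} (hf : IsL2 f) : L2 G C := (Λ.memLp hf).toLp _

omit hV in
lemma toL2_coe {F : Bun G C → ℂ} (hF : MemLp F 2 (bunMeasure G C)) :
    ((hF.toLp F : L2 G C) : Bun G C → ℂ) = F := funext fun b => coe_toLp F hF b

lemma Lift.coe_toL2 {f : Bun G V → ℂ} (hf : IsL2 f) : (Λ.toL2 hf : Bun G C → ℂ) = Λ.up f :=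
  toL2_coe _

lemma Lift.norm_toL2 {f : Bun G V → ℂ} (hf : IsL2 f) : ‖Λ.toL2 hf‖ ^ 2 = Λ.E.n * nrm f := by
  have h1 := norm_sq (Λ.toL2 hf)
  rw [Λ.coe_toL2, Λ.nsq_up, ← ofReal_nrm hf] at h1
  have h2 : (Λ.E.n : ℝ≥0∞) = ENNReal.ofReal (Λ.E.n : ℝ) := by simp
  have h3 : 0 ≤ nrm f := tsum_nonneg fun b => nonneg_term f b
  rw [h2, ← ENNReal.ofReal_mul (by positivity)] at h1
  exact (ENNReal.ofReal_eq_ofReal_iff (by positivity) (by positivity)).1 h1

lemma Lift.inner_toL2 {f : Bun G V → ℂ} (hf : IsL2 f) (w : L2 G C) :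
    ⟪Λ.toL2 hf, w⟫_ℂ = ∑' x : Bun G V, (mass x : ℂ) *
      (starRingEnd ℂ (f x) * ∑ c ∈ Λ.fib x.out, lf (w : Bun G C → ℂ) c) := by
  rw [L2.inner_def, integral_eq Λ.π Λ.equi Λ.fin (L2.integrable_inner _ _)]
  refine tsum_congr fun x => ?_
  congr 1
  rw [Finset.mul_sum]
  refine Finset.sum_congr rfl fun c hc => ?_
  have h1 : (Λ.toL2 hf : Bun G C → ℂ) (cls G C c) = f x := by
    rw [Λ.coe_toL2]
    have h2 : Λ.up f (cls G C c) = f (cls G V (Λ.π c)) := Λ.lf_up f c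
    rw [h2, Λ.mem_fib.1 hc, cls_out]
  rw [h1, RCLike.inner_apply, mul_comm]
  rfl

/-- A function on the chambers that is constant on the fibres comes from the quotient. -/
lemma Lift.desc {v : L2 G C} (hv : ∀ c d, Λ.E.r c d → lf (v : Bun G C → ℂ) c = lf v d) :
    ∃ h : Bun G V → ℂ, IsL2 h ∧ Λ.up h = (v : Bun G C → ℂ) := by
  have hex : ∀ x : Bun G V, ∃ c, Λ.π c = x.out := fun x => Λ.surj _
  choose s hs using hex
  have h1 : Λ.up (fun x => lf (v : Bun G C → ℂ) (s x)) = (v : Bun G C → ℂ) := by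
    funext b
    show lf (v : Bun G C → ℂ) (s (cls G V (Λ.π b.out))) = v b
    obtain ⟨g, hg⟩ := exists_out (G := G) (Λ.π b.out)
    have h2 : Λ.π (s (cls G V (Λ.π b.out))) = Λ.π (g • b.out) := by
      rw [hs, Λ.equi, hg]
    rw [hv _ _ ((Λ.hE _ _).2 h2), lf_smul_inv]
    unfold lf
    rw [cls_out]
  refine ⟨fun x => lf (v : Bun G C → ℂ) (s x), ?_, h1⟩
  rw [isL2_iff]
  intro htop
  have h2 := Λ.nsq_up (fun x => lf (v : Bun G C → ℂ) (s x))
  rw [h1, htop] at h2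
  apply nsq_ne_top v
  rw [h2]
  exact ENNReal.mul_top (by exact_mod_cast Λ.E.pos.ne')

omit hV in
lemma Lift.toL2_eq [∀ P : V, Finite (MulAction.stabilizer G P)] {h : Bun G V → ℂ} (hh : IsL2 h)
    {v : L2 G C} (e : Λ.up h = (v : Bun G C → ℂ)) : Λ.toL2 hh = v := by
  apply coe_eq
  intro b
  rw [Λ.coe_toL2, e]

/-- The inner product of two lifts. -/
lemma Lift.inner_up {f h : Bun G V → ℂ} (hf : IsL2 f) (hh : IsL2 h) :
    ⟪Λ.toL2 hh, Λ.toL2 hf⟫_ℂ = Λ.E.n * ∑' x : Bun G V, (mass x : ℂ) *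
      (starRingEnd ℂ (h x) * f x) := by
  rw [Λ.inner_toL2 hh, ← tsum_mul_left]
  refine tsum_congr fun x => ?_
  have h1 : ∀ c ∈ Λ.fib x.out, lf (Λ.toL2 hf : Bun G C → ℂ) c = f x := by
    intro c hc
    rw [Λ.coe_toL2, Λ.lf_up, Λ.mem_fib.1 hc, cls_out]
  rw [Finset.sum_congr rfl h1, Finset.sum_const, Λ.card_fib, nsmul_eq_mul]
  ring

end Pool.Agent.Helper45.FG
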