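import Pool.Agent.Helper45.FG.Rig

/-! The action of words of Hecke operators on the extremal vectors. -/

open scoped InnerProductSpace

namespace Pool.Agent.Helper45.FG

/-- The formal Hecke operator q - (q+1) R_l. -/
noncomputable def formal (q : ℝ) (n : ℕ) (par : ℕ → ℕ) (e : ℕ → ℝ) (l : ℕ) (x : ℕ → ℝ) : ℕ → ℝ :=
  fun i => q * x i - if i = l then (q + 1) * coef n par e l x else 0

/-- The formal action of a word. -/
noncomputable def formalW (q : ℝ) (n : ℕ) (par : ℕ → ℕ) (e : ℕ → ℝ) (L : List ℕ) (x : ℕ → ℝ) :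
    ℕ → ℝ :=
  L.foldr (formal q n par e) x

/-- The coefficients of the extremal vector. -/
noncomputable def uv (par : ℕ → ℕ) (κ : ℕ → ℝ) (i : ℕ) : ℝ :=
  if _h : par i < i then -uv par κ (par i) / κ i else 1 / κ 0
termination_by i

/-- The eigenvalue of a word. -/
noncomputable def chi (q : ℝ) (n : ℕ) (par : ℕ → ℕ) (e κ : ℕ → ℝ) (L : List ℕ) : ℝ :=
  κ 0 * formalW q n par e L (uv par κ) 0

variable {H : Type*} [NormedAddCommGroup H] [InnerProductSpace ℂ H] [CompleteSpace H]

variable {R : ℕ → H →L[ℂ] H} {n : ℕ} {par : ℕ → ℕ} {e κ : ℕ → ℝ}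

/-- The Hecke operators. -/
noncomputable def hkW (q : ℝ) (R : ℕ → H →L[ℂ] H) (L : List ℕ) : H →L[ℂ] H :=
  L.foldr (fun l A => hk (q : ℂ) (R l) * A) 1

omit [CompleteSpace H] in
lemma hk_apply (q : ℝ) (a : H →L[ℂ] H) (x : H) :
    hk (q : ℂ) a x = (q : ℂ) • x - ((q + 1 : ℝ) : ℂ) • a x := by
  unfold hk
  rw [_root_.sub_apply, _root_.smul_apply]
  push_cast
  rfl

omit [CompleteSpace H] in
lemma combo_sub (f : H) (x y : ℕ → ℝ) :
    combo R n par f (fun i => x i - y i) = combo R n par f x - combo R n par f y := by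
  unfold combo
  rw [← Finset.sum_sub_distrib]
  refine Finset.sum_congr rfl fun i _ => ?_
  push_cast
  rw [sub_smul]

omit [CompleteSpace H] in
lemma combo_smul (f : H) (c : ℝ) (x : ℕ → ℝ) :
    combo R n par f (fun i => c * x i) = (c : ℂ) • combo R n par f x := by
  unfold combo
  rw [Finset.smul_sum]
  refine Finset.sum_congr rfl fun i _ => ?_
  push_cast
  rw [mul_smul]

omit [CompleteSpace H] in
lemma combo_single (f : H) (c : ℝ) {l : ℕ} (hl : l ≤ n) :
    combo R n par f (fun i => if i = l then c else 0) = (c : ℂ) • wv R par f l := by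
  unfold combo
  rw [Finset.sum_eq_single l]
  · simp only [if_true]
  · intro i _ hi
    simp only [if_neg hi, Complex.ofReal_zero, zero_smul]
  · intro h
    rw [Finset.mem_range] at h
    omega

variable (T : TreeSys R n par e κ) {f : H} (E : Extremal R n κ f)

include T E

lemma TreeSys.hk_combo (q : ℝ) (x : ℕ → ℝ) {l : ℕ} (hl : l ≤ n) :
    hk (q : ℂ) (R l) (combo R n par f x) = combo R n par f (formal q n par e l x) := by
  unfold formal
  rw [combo_sub, combo_smul, combo_single f _ hl, hk_apply, T.R_combo E x hl, smul_smul]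
  congr 2
  push_cast
  ring

lemma TreeSys.hkW_combo (q : ℝ) (L : List ℕ) (hL : ∀ l ∈ L, l ≤ n) (x : ℕ → ℝ) :
    hkW q R L (combo R n par f x) = combo R n par f (formalW q n par e L x) := by
  induction L with
  | nil => rfl
  | cons l L ih =>
    have h1 : hkW q R (l :: L) (combo R n par f x) =
      hk (q : ℂ) (R l) (hkW q R L (combo R n par f x)) := rfl
    rw [h1, ih fun l hl => hL l (List.mem_cons_of_mem _ hl),
      T.hk_combo E q _ (hL l List.mem_cons_self)]
    rfl

omit E [CompleteSpace H] in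
lemma TreeSys.uv_pos {i : ℕ} (hi : 0 < i) : uv par κ i = -uv par κ (par i) / κ i := by
  rw [uv, dif_pos (T.par_lt i hi)]

omit T E [CompleteSpace H] in
lemma uv_zero : uv par κ 0 = 1 / κ 0 := by
  rw [uv, dif_neg (Nat.not_lt_zero _)]

omit E [CompleteSpace H] in
lemma TreeSys.coef_uv {l : ℕ} (hl : l ≤ n) :
    coef n par e l (uv par κ) = if l = 0 then 1 else 0 := by
  have h1 : ∑ c ∈ kids par n l, e c * uv par κ c = -uv par κ l * ∑ c ∈ kids par n l, e c / κ c := by
    rw [Finset.mul_sum]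
    refine Finset.sum_congr rfl fun c hc => ?_
    have hc1 := mem_kids.1 hc
    rw [T.uv_pos hc1.1, hc1.2.2]
    ring
  have h2 : ∑ c ∈ kids par n l, e c / κ c = 1 - κ l := by
    rw [T.κ_eq l hl]
    ring
  have hκ := T.κ_pos l hl
  unfold coef
  rw [h1, h2]
  by_cases h0 : l = 0
  · subst h0
    rw [if_pos rfl, if_pos rfl, uv_zero]
    field_simp
    ring
  · rw [if_neg h0, if_neg h0, T.uv_pos (Nat.pos_of_ne_zero h0)]
    field_simp
    ring

/-- The extremal vector is a combination of the vectors w_i. -/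
lemma TreeSys.f_eq : f = combo R n par f (uv par κ) := by
  have h1 : ∀ l, l ≤ n → R l (f - combo R n par f (uv par κ)) = 0 := by
    intro l hl
    rw [map_sub, T.R_combo E _ hl, T.coef_uv hl]
    by_cases h0 : l = 0
    · subst h0
      rw [if_pos rfl, wv_zero]
      simp
    · rw [if_neg h0, E.ker l (Nat.pos_of_ne_zero h0) hl]
      simp
  have h2 : ∀ u, (∀ l, l ≤ n → R l u = 0) → ⟪u, combo R n par f (uv par κ)⟫_ℂ = 0 := by
    intro u hu
    unfold combo
    rw [inner_sum]
    apply Finset.sum_eq_zero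
    intro i hi
    have hin : i ≤ n := by
      rw [Finset.mem_range] at hi
      omega
    rw [inner_smul_right, ← T.self E hin, ← (T.isPr i hin).sa, hu i hin, inner_zero_left, mul_zero]
  have h3 : ⟪f - combo R n par f (uv par κ), f - combo R n par f (uv par κ)⟫_ℂ = 0 := by
    rw [inner_sub_right, E.ort _ h1, h2 _ h1, sub_zero]
  exact sub_eq_zero.1 (inner_self_eq_zero.1 h3)

lemma TreeSys.pr_combo (x : ℕ → ℝ) :
    pr R {i | 0 < i ∧ i ≤ n} (combo R n par f x) = ((κ 0 * x 0 : ℝ) : ℂ) • f := by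
  have hS : SD par n 0 = {i | 0 < i ∧ i ≤ n} := by
    ext l
    constructor
    · intro hl
      have h1 : l ∈ D par n 0 := by
        rw [D_eq T.par_lt (Nat.zero_le n)]
        exact Or.inr hl
      refine ⟨?_, h1.1⟩
      rw [mem_SD] at hl
      obtain ⟨c, hc, hl⟩ := hl
      have := le_of_anc T.par_lt hl.2
      have := (mem_kids.1 hc).1
      omega
    · rintro ⟨h1, h2⟩
      have h3 : l ∈ D par n 0 := by rw [D_zero T.par_lt]; exact h2
      rw [D_eq T.par_lt (Nat.zero_le n)] at h3
      rcases h3 with h3 | h3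
      · rw [Set.mem_singleton_iff] at h3
        omega
      · exact h3
  obtain ⟨hr1, hr2⟩ := T.root_data E
  have h0 : pr R {i | 0 < i ∧ i ≤ n} (wv R par f 0) = (κ 0 : ℂ) • f := by
    have h1 := (T.eq_step (Nat.zero_le n) hr1 (by rw [hr2, sub_zero, E.eq])).2.2
    rw [hr2, sub_zero, hS] at h1
    rw [wv_zero]
    exact h1
  have hpos : ∀ i, 0 < i → i ≤ n → pr R {i | 0 < i ∧ i ≤ n} (wv R par f i) = 0 := by
    intro i hi hin
    rw [← inner_self_eq_zero (𝕜 := ℂ), isPr_pr.sa, isPr_pr.idem, ← T.self E hin,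
      (T.isPr i hin).sa]
    rw [R_pr (show i ∈ {i | 0 < i ∧ i ≤ n} from ⟨hi, hin⟩), inner_zero_right]
  unfold combo
  rw [map_sum, Finset.sum_eq_single 0]
  · rw [map_smul, h0, smul_smul]
    congr 1
    push_cast
    ring
  · intro i hi hi0
    rw [Finset.mem_range] at hi
    rw [map_smul, hpos i (Nat.pos_of_ne_zero hi0) (by omega), smul_zero]
  · intro h
    rw [Finset.mem_range] at h
    omega

/-- Rigidity. -/
theorem TreeSys.rigid (q : ℝ) (L : List ℕ) (hL : ∀ l ∈ L, l ≤ n) :
    pr R {i | 0 < i ∧ i ≤ n} (hkW q R L f) = (chi q n par e κ L : ℂ) • f := by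
  have h1 : hkW q R L f = combo R n par f (formalW q n par e L (uv par κ)) := by
    conv_lhs => rw [T.f_eq E]
    exact T.hkW_combo E q L hL _
  rw [h1, T.pr_combo E]
  rfl

end Pool.Agent.Helper45.FG
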